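import Mathlib
import Pool.Agent.H119R2.Kp.Defs

set_option autoImplicit false

/-!
MP_257582_lc: states with five clique parts (one of size `X`, four of size `p`) coded by masks
`g < 1024`.
-/

namespace Pool.Agent.H119R2.Kp

open Finset

/-- bit position of the pair `{a,b}` of parts -/
def ix (a b : Fin 5) : ℕ :=
  (![![0, 0, 1, 2, 3], ![0, 0, 4, 5, 6], ![1, 4, 0, 7, 8], ![2, 5, 7, 0, 9], ![3, 6, 8, 9, 0]] :
    Fin 5 → Fin 5 → ℕ) a b

/-- pattern of the mask `g` (all five parts are cliques) -/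
def pM (g : ℕ) : Fin 5 → Fin 5 → Bool := fun a b => decide (a = b) || g.testBit (ix a b)

/-- value of `P` on the state with mask `g` -/
noncomputable def fM {n : ℕ} (P : SimpleGraph (Fin n) → Prop) (X p : ℕ) (g : ℕ) : ℤ :=
  hv P (sz 4 X p) (pM g)

/-- alternating sum of `f` over `g` plus all sub-sums of the list -/
def alt (f : ℕ → ℤ) : List ℕ → ℕ → ℤ
  | [], g => f g
  | w :: ws, g => alt f ws g - alt f ws (g + w)

/-- support of the swap transport: part `0` goes into part `1`, part `1` is distributed over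
parts `0` and `1`, the other parts are fixed -/
def sw (i a : Fin 5) : Bool :=
  if i = 0 then decide (a = 1) else if i = 1 then decide (a = 0 ∨ a = 1) else decide (a = i)

/-- the facts about the values `f g` used in the finite computation -/
structure FD (f : ℕ → ℤ) : Prop where
  h01 : ∀ g, f g = 0 ∨ f g = 1
  mono : ∀ g g', (∀ a b, pM g a b = true → pM g' a b = true) → f g ≤ f g'
  perm : ∀ σ : Equiv.Perm (Fin 5), σ 0 = 0 → ∀ g g',
    (∀ a b, pM g' (σ a) (σ b) = pM g a b) → f g = f g'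
  swap : ∀ g g', (∀ i j a b, pM g i j = true → sw i a = true → sw j b = true →
    pM g' a b = true) → f g ≤ f g'
  zero : ∀ g i, i ≠ 0 → (∀ a b, (a = 0 ∨ a = i) → ¬(b = 0 ∨ b = i) → pM g a b = false) → f g = 0
  one : ∀ g i, i ≠ 0 → (∀ a b, (a = 0 ∨ a = i) → ¬(b = 0 ∨ b = i) → pM g a b = true) → f g = 1
  univ : ∀ g a, (∀ b, pM g a b = true) → f g = 1
  rel0 : ∀ b, b < 2 → alt f [2, 4, 8, 16, 32, 64, 128, 256, 512] b = 0
  rel9 : ∀ b, b < 2 → alt f [1, 2, 4, 8, 16, 32, 64, 128, 256] (512 * b) = 0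
  relM : alt f [18, 36, 72, 128, 256, 512] 1 = 0
  hub : ∀ g j i, j ≠ i → (∀ a, a ≠ i → pM g j a = true) →
    (i ≠ 0 ∨ ∃ b, b ≠ j ∧ b ≠ 0 ∧ pM g 0 b = true) → f 910 ≤ f g

end Pool.Agent.H119R2.Kp
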