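import Mathlib
import Pool.Agent.H119R2.Kp.Defs

set_option autoImplicit false

/-! Task PVE of helper119 (Karp / evasiveness): transport to other vertex sets, embeddings of
blow-ups (helper715). -/

namespace Pool.Agent.H119R2.Kp

open Finset
open Pool.Agent.H98R2.Ev (EV toG NE)

theorem pve_map_adj {V W : Type} (G : SimpleGraph V) (e : V ≃ W) (a b : W) :
    (G.map e.toEmbedding).Adj a b ↔ G.Adj (e.symm a) (e.symm b) := by
  rw [SimpleGraph.map_adj]
  constructor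
  · rintro ⟨u, v, h, hu, hv⟩
    have hu' : e u = a := hu
    have hv' : e v = b := hv
    rw [← hu', ← hv', Equiv.symm_apply_apply, Equiv.symm_apply_apply]
    exact h
  · intro h
    exact ⟨e.symm a, e.symm b, h, e.apply_symm_apply a, e.apply_symm_apply b⟩

theorem pve_map_compl {V W : Type} (G : SimpleGraph V) (e : V ≃ W) :
    (G.map e.toEmbedding)ᶜ = Gᶜ.map e.toEmbedding := by
  ext a b
  rw [SimpleGraph.compl_adj, pve_map_adj, pve_map_adj, SimpleGraph.compl_adj]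
  simp

theorem PV.mono {n q : ℕ} {P : SimpleGraph (Fin n) → Prop} (h : GP n q P) {V W : Type}
    {G : SimpleGraph V} {H : SimpleGraph W} (e : V ≃ W) (he : ∀ u v, G.Adj u v → H.Adj (e u) (e v))
    (hG : PV P V G) : PV P W H := by
  obtain ⟨e0, h0⟩ := hG
  refine ⟨e.symm.trans e0, h.mono _ _ ?_ h0⟩
  intro a b hab
  rw [pve_map_adj] at hab ⊢
  have := he _ _ hab
  simpa using this

/-- `t i a` vertices of part `i` are sent to part `a` -/
theorem emb {n q : ℕ} {P : SimpleGraph (Fin n) → Prop} (h : GP n q P) {k l : ℕ} (s : Fin k → ℕ)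
    (s' : Fin l → ℕ) (Γ : Fin k → Fin k → Bool) (Γ' : Fin l → Fin l → Bool)
    (t : Fin k → Fin l → ℕ) (hrow : ∀ i, ∑ a, t i a = s i) (hcol : ∀ a, ∑ i, t i a = s' a)
    (hΓ : ∀ i j a b, (Γ i j = true ∨ Γ j i = true) → t i a ≠ 0 → t j b ≠ 0 →
      (Γ' a b = true ∨ Γ' b a = true)) : hv P s Γ ≤ hv P s' Γ' := by
  classical
  let e1 : ∀ i, Fin (s i) ≃ (Σ a, Fin (t i a)) := fun i =>
    (finSigmaFinEquiv.trans (finCongr (hrow i))).symm
  let e3 : ∀ a, (Σ i, Fin (t i a)) ≃ Fin (s' a) := fun a =>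
    finSigmaFinEquiv.trans (finCongr (hcol a))
  let e2 : (Σ i, Σ a, Fin (t i a)) ≃ (Σ a, Σ i, Fin (t i a)) :=
    ⟨fun x => ⟨x.2.1, x.1, x.2.2⟩, fun x => ⟨x.2.1, x.1, x.2.2⟩, fun _ => rfl, fun _ => rfl⟩
  let e : (Σ i, Fin (s i)) ≃ (Σ a, Fin (s' a)) :=
    ((Equiv.sigmaCongrRight e1).trans e2).trans (Equiv.sigmaCongrRight e3)
  have hpart : ∀ u : (Σ i, Fin (s i)), t u.1 (e u).1 ≠ 0 := by
    intro u
    have h1 : (e u).1 = (e1 u.1 u.2).1 := rfl
    rw [h1]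
    exact Nat.ne_of_gt (Nat.lt_of_le_of_lt (Nat.zero_le _) (e1 u.1 u.2).2.isLt)
  unfold hv
  by_cases h1 : PV P _ (BU s Γ)
  · have h2 : PV P _ (BU s' Γ') := by
      refine PV.mono h e ?_ h1
      rintro u v ⟨huv, hadj⟩
      exact ⟨fun hh => huv (e.injective hh), hΓ _ _ _ _ hadj (hpart u) (hpart v)⟩
    rw [if_pos h1, if_pos h2]
  · rw [if_neg h1]
    split_ifs <;> norm_num

theorem hv01 {n : ℕ} (P : SimpleGraph (Fin n) → Prop) {k : ℕ} (s : Fin k → ℕ)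
    (Γ : Fin k → Fin k → Bool) : hv P s Γ = 0 ∨ hv P s Γ = 1 := by
  unfold hv
  split_ifs
  · exact Or.inr rfl
  · exact Or.inl rfl

/-- a non-empty part without any edge -/
theorem hv_isol {n q : ℕ} {P : SimpleGraph (Fin n) → Prop} (h : GP n q P) (hS : Star n P) {k : ℕ}
    (s : Fin k → ℕ) (Γ : Fin k → Fin k → Bool) (i : Fin k) (hi : s i ≠ 0)
    (hΓ : ∀ j, Γ i j = false ∧ Γ j i = false) : hv P s Γ = 0 := by
  unfold hv
  rw [if_neg]
  rintro ⟨e, he⟩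
  refine hS.isol _ ⟨e ⟨i, ⟨0, Nat.pos_of_ne_zero hi⟩⟩, fun w hw => ?_⟩ he
  rw [pve_map_adj, Equiv.symm_apply_apply] at hw
  rcases hw.2 with h1 | h1
  · rw [(hΓ _).1] at h1; exact Bool.noConfusion h1
  · rw [(hΓ _).2] at h1; exact Bool.noConfusion h1

/-- a non-empty clique part joined to everything -/
theorem hv_univ {n q : ℕ} {P : SimpleGraph (Fin n) → Prop} (h : GP n q P) (hS : Star n P) {k : ℕ}
    (s : Fin k → ℕ) (hs : ∑ i, s i = n) (Γ : Fin k → Fin k → Bool) (i : Fin k) (hi : s i ≠ 0)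
    (hΓ : ∀ j, Γ i j = true ∨ Γ j i = true) : hv P s Γ = 1 := by
  unfold hv
  rw [if_pos]
  let e : (Σ i, Fin (s i)) ≃ Fin n := finSigmaFinEquiv.trans (finCongr hs)
  refine ⟨e, hS.univ _ ⟨e ⟨i, ⟨0, Nat.pos_of_ne_zero hi⟩⟩, fun w hw => ?_⟩⟩
  rw [pve_map_adj, Equiv.symm_apply_apply]
  refine ⟨fun hh => hw ?_, hΓ _⟩
  rw [hh, Equiv.apply_symm_apply]

theorem PV_dual {n q : ℕ} {P : SimpleGraph (Fin n) → Prop} (h : GP n q P) (V : Type)
    (G : SimpleGraph V) (hV : Nonempty (V ≃ Fin n)) : PV (dual P) V G ↔ ¬ PV P V Gᶜ := by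
  constructor
  · rintro ⟨e, he⟩ ⟨e', he'⟩
    unfold dual at he
    rw [pve_map_compl] at he
    apply he
    have h1 := h.iso (e'.symm.trans e) _ he'
    have h2 : (Gᶜ.map e'.toEmbedding).map (e'.symm.trans e).toEmbedding
        = Gᶜ.map e.toEmbedding := by
      ext a b
      rw [pve_map_adj, pve_map_adj, pve_map_adj]
      simp
    rw [h2] at h1
    exact h1
  · intro hh
    obtain ⟨e⟩ := hV
    refine ⟨e, ?_⟩
    unfold dual
    rw [pve_map_compl]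
    exact fun h1 => hh ⟨e, h1⟩

end Pool.Agent.H119R2.Kp
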