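import Mathlib
import Pool.Agent.H119R2.Kp.Defs
import Pool.Agent.H119R2.Kp.Rel

set_option autoImplicit false

/-! # Task RID: relId (helper911) -/

namespace Pool.Agent.H119R2.Kp

open Finset
open Pool.Agent.H98R2.Ev (EV toG NE)


namespace RI

section

variable {κ : Type} [Fintype κ] [DecidableEq κ] {s : κ → ℕ} [hs : ∀ i, NeZero (s i)]

/-- translations of the parts -/
def T (d : ∀ i, Fin (s i)) : Equiv.Perm (Σ i, Fin (s i)) :=
  Equiv.sigmaCongrRight (fun i => Equiv.addRight (d i))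

omit [Fintype κ] [DecidableEq κ] in
@[simp] lemma T_apply (d : ∀ i, Fin (s i)) (i : κ) (a : Fin (s i)) :
    T d ⟨i, a⟩ = ⟨i, a + d i⟩ := rfl

omit [Fintype κ] [DecidableEq κ] in
lemma T_fst (d : ∀ i, Fin (s i)) (u : Σ i, Fin (s i)) : (T d u).1 = u.1 := rfl

omit [Fintype κ] [DecidableEq κ] in
lemma T_add (d d' : ∀ i, Fin (s i)) : T (d + d') = T d * T d' := by
  apply Equiv.ext
  rintro ⟨i, a⟩
  simp only [Equiv.Perm.coe_mul, Function.comp_apply, T_apply, Pi.add_apply]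
  congr 1
  rw [add_assoc, add_comm (d i)]

omit [Fintype κ] [DecidableEq κ] in
lemma T_zero : T (0 : ∀ i, Fin (s i)) = 1 := by
  apply Equiv.ext
  rintro ⟨i, a⟩
  simp

omit [Fintype κ] [DecidableEq κ] in
lemma T_nsmul (n : ℕ) (d : ∀ i, Fin (s i)) : T (n • d) = T d ^ n := by
  induction n with
  | zero => simp [T_zero]
  | succ n ih => rw [succ_nsmul, T_add, ih, pow_succ]

omit [Fintype κ] [DecidableEq κ] in
lemma T_comm (d d' : ∀ i, Fin (s i)) : T d * T d' = T d' * T d := by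
  rw [← T_add, ← T_add, add_comm]

/-- the generators -/
def gen (i : κ) : Equiv.Perm (Σ i, Fin (s i)) := T (Pi.single i 1)

omit [Fintype κ] [DecidableEq κ] hs in
lemma fin_eq_nsmul {n : ℕ} [NeZero n] (a : Fin n) : a = a.val • (1 : Fin n) := by
  have h : ∀ m : ℕ, (m • (1 : Fin n)).val = m % n := by
    intro m
    induction m with
    | zero => simp
    | succ m ih =>
      rw [succ_nsmul, Fin.val_add, ih, Fin.val_one', Nat.mod_add_mod, Nat.add_mod_mod]
  apply Fin.ext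
  rw [h, Nat.mod_eq_of_lt a.isLt]

lemma T_mem (K : Subgroup (Equiv.Perm (Σ i, Fin (s i)))) (hK : ∀ i, gen i ∈ K)
    (d : ∀ i, Fin (s i)) : T d ∈ K := by
  have h1 : ∀ i : κ, ∀ z : Fin (s i), T (Pi.single i z) ∈ K := by
    intro i z
    have : (Pi.single i z : ∀ i, Fin (s i)) = z.val • (Pi.single i 1) := by
      rw [← Pi.single_smul]
      congr 1
      exact fin_eq_nsmul z
    rw [this, T_nsmul]
    exact Subgroup.pow_mem _ (hK i) _
  have h2 : ∀ t : Finset κ, T (∑ i ∈ t, Pi.single i (d i) : ∀ i, Fin (s i)) ∈ K := by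
    intro t
    induction t using Finset.induction_on with
    | empty => rw [Finset.sum_empty, T_zero]; exact K.one_mem
    | insert a t ha ih =>
      rw [Finset.sum_insert ha, T_add]
      exact K.mul_mem (h1 _ _) ih
  have h3 : d = ∑ i, Pi.single i (d i) := by
    rw [Finset.univ_sum_single]
  rw [h3]
  exact h2 _

/-- complete bipartite graph between the parts `i` and `j` -/
def RR (i j : κ) (hij : i ≠ j) : SimpleGraph (Σ i, Fin (s i)) where
  Adj u v := (u.1 = i ∧ v.1 = j) ∨ (u.1 = j ∧ v.1 = i)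
  symm := ⟨fun u v h => h.symm.imp (fun h => ⟨h.2, h.1⟩) (fun h => ⟨h.2, h.1⟩)⟩
  loopless := ⟨fun u h => by
    rcases h with h | h
    · exact hij (h.1.symm.trans h.2)
    · exact hij (h.2.symm.trans h.1)⟩

omit [Fintype κ] [DecidableEq κ] hs in
lemma RR_adj (i j : κ) (hij : i ≠ j) (u v : Σ i, Fin (s i)) :
    (RR i j hij).Adj u v ↔ (u.1 = i ∧ v.1 = j) ∨ (u.1 = j ∧ v.1 = i) := Iff.rfl

lemma exT (i j : κ) (hij : i ≠ j) (a a' : Fin (s i)) (b b' : Fin (s j)) :
    ∃ d, T d ⟨i, a⟩ = ⟨i, a'⟩ ∧ T d ⟨j, b⟩ = ⟨j, b'⟩ := by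
  refine ⟨Pi.single i (a' - a) + Pi.single j (b' - b), ?_, ?_⟩
  · rw [T_apply, Pi.add_apply, Pi.single_eq_same, Pi.single_eq_of_ne hij, add_zero,
      add_sub_cancel]
  · rw [T_apply, Pi.add_apply, Pi.single_eq_same, Pi.single_eq_of_ne hij.symm, zero_add,
      add_sub_cancel]

lemma exT' (i j : κ) (hij : i ≠ j) (u v u' v' : Σ i, Fin (s i))
    (h : (RR i j hij).Adj u v) (h' : (RR i j hij).Adj u' v') :
    ∃ d, (T d u = u' ∧ T d v = v') ∨ (T d u = v' ∧ T d v = u') := by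
  obtain ⟨u1, a⟩ := u
  obtain ⟨v1, b⟩ := v
  obtain ⟨u1', a'⟩ := u'
  obtain ⟨v1', b'⟩ := v'
  simp only [RR_adj] at h h'
  rcases h with ⟨rfl, rfl⟩ | ⟨rfl, rfl⟩ <;> rcases h' with ⟨h1, h2⟩ | ⟨h1, h2⟩
  · subst h1 h2
    obtain ⟨d, hd⟩ := exT _ _ hij a a' b b'
    exact ⟨d, Or.inl hd⟩
  · subst h1 h2
    obtain ⟨d, hd⟩ := exT _ _ hij a b' b a'
    exact ⟨d, Or.inr hd⟩
  · subst h1 h2
    obtain ⟨d, hd⟩ := exT _ _ hij b a' a b'
    exact ⟨d, Or.inr ⟨hd.2, hd.1⟩⟩
  · subst h1 h2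
    obtain ⟨d, hd⟩ := exT _ _ hij b b' a a'
    exact ⟨d, Or.inl ⟨hd.2, hd.1⟩⟩

lemma card_RR (i j : κ) (hij : i ≠ j) : s i * s j ≤ Nat.card (RR (s := s) i j hij).edgeSet := by
  have : s i * s j = Nat.card (Fin (s i) × Fin (s j)) := by
    rw [Nat.card_prod, Nat.card_fin, Nat.card_fin]
  rw [this]
  refine Nat.card_le_card_of_injective (fun w => ⟨s(⟨i, w.1⟩, ⟨j, w.2⟩), ?_⟩) ?_
  · rw [SimpleGraph.mem_edgeSet, RR_adj]
    left
    exact ⟨rfl, rfl⟩
  · rintro ⟨a, c⟩ ⟨a', c'⟩ h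
    simp only [Subtype.mk.injEq, Sym2.eq_iff, Sigma.mk.injEq, heq_eq_eq, true_and, hij, false_and,
      or_false] at h
    ext <;> simp [h]

end

end RI

open RI in
theorem relId {n q : ℕ} {P : SimpleGraph (Fin n) → Prop} (hP : GP n q P) (k x p : ℕ)
    [Fact p.Prime] (hx : 0 < x) (hn : x + k * p = n) (Γ : Fin (k + 1) → Fin (k + 1) → Bool)
    {m : ℕ} (M : Fin m → Fin (k + 1) × Fin (k + 1)) (hM : ∀ j, (M j).1 < (M j).2)
    (hinj : Function.Injective M)
    (hΓ : ∀ j, Γ (M j).1 (M j).2 = false ∧ Γ (M j).2 (M j).1 = false)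
    (hq : q < ∑ j, sz k x p (M j).1 * sz k x p (M j).2) :
    ∑ I : Finset (Fin m), (-1 : ℤ) ^ I.card * hv P (sz k x p) (addCls Γ (fun j => [M j]) I) = 0 := by
  classical
  have hp0 : p ≠ 0 := (Fact.out : p.Prime).ne_zero
  haveI hs : ∀ i, NeZero (sz k x p i) := by
    intro i
    refine Fin.cases ?_ (fun i => ?_) i
    · exact ⟨hx.ne'⟩
    · exact ⟨hp0⟩
  have hV : Fintype.card (Σ i, Fin (sz k x p i)) = n := by
    rw [Fintype.card_sigma]
    simp only [Fintype.card_fin]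
    rw [Fin.sum_univ_succ]
    simp only [sz, Fin.cons_zero, Fin.cons_succ, Finset.sum_const, Finset.card_univ,
      Fintype.card_fin, smul_eq_mul]
    exact hn
  have hsum := rel hP hV p (fun i : Fin k => gen (s := sz k x p) i.succ) (gen 0)
    (by intro i j; exact T_comm _ _)
    (by
      intro i
      simp only [gen]
      rw [← T_nsmul]
      have : p • (Pi.single i.succ 1 : ∀ i, Fin (sz k x p i)) = 0 := by
        rw [← Pi.single_smul]
        have h1 : p • (1 : Fin (sz k x p i.succ)) = 0 := by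
          have h2 := card_nsmul_eq_zero (G := Fin (sz k x p i.succ)) (x := 1)
          rwa [Fintype.card_fin] at h2
        rw [h1, Pi.single_zero]
      rw [this, T_zero])
    (by
      intro i
      have : (gen (s := sz k x p) 0)⁻¹ * gen i.succ * gen 0 = gen i.succ := by
        rw [mul_assoc, gen, gen, T_comm, ← mul_assoc, inv_mul_cancel, one_mul]
      rw [this]
      exact Subgroup.subset_closure ⟨i, rfl⟩)
    (BU (sz k x p) Γ) (fun j => RR (M j).1 (M j).2 (hM j).ne)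
    (by
      intro i u v h
      exact ⟨fun hc => h.1 ((gen i.succ).injective hc), h.2⟩)
    (by
      intro u v h
      exact ⟨fun hc => h.1 ((gen 0).injective hc), h.2⟩)
    (by intro j i u v h; exact h)
    (by intro j u v h; exact h)
    (by
      intro i j hij
      rw [disjoint_iff_inf_le]
      intro u v h
      simp only [SimpleGraph.inf_adj, RR_adj] at h
      apply hij
      apply hinj
      have hi := hM i
      have hj := hM j
      obtain ⟨h1 | h1, h2 | h2⟩ := h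
      · exact Prod.ext (h1.1.symm.trans h2.1) (h1.2.symm.trans h2.2)
      · rw [← h1.1, ← h1.2] at hi
        rw [← h2.1, ← h2.2] at hj
        exact absurd hi (lt_asymm hj)
      · rw [← h1.1, ← h1.2] at hi
        rw [← h2.1, ← h2.2] at hj
        exact absurd hi (lt_asymm hj)
      · exact Prod.ext (h1.2.symm.trans h2.2) (h1.1.symm.trans h2.1))
    (by
      intro i
      rw [disjoint_iff_inf_le]
      intro u v h
      simp only [SimpleGraph.inf_adj, RR_adj] at h
      obtain ⟨h1, h2⟩ := h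
      obtain ⟨_, h3⟩ := h1
      have h4 := hΓ i
      rcases h2 with ⟨h5, h6⟩ | ⟨h5, h6⟩ <;> rw [h5, h6] at h3 <;> simp [h4] at h3)
    (by
      intro j
      exact ⟨⟨(M j).1, 0⟩, ⟨(M j).2, 0⟩, Or.inl ⟨rfl, rfl⟩⟩)
    (by
      intro j u v u' v' h h'
      obtain ⟨d, hd⟩ := exT' _ _ _ u v u' v' h h'
      refine ⟨T d, T_mem _ ?_ d, hd⟩
      intro i
      refine Fin.cases ?_ (fun i => ?_) i
      · exact Subgroup.subset_closure (Set.mem_insert _ _)
      · exact Subgroup.subset_closure (Set.mem_insert_of_mem _ ⟨i, rfl⟩))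
    (lt_of_lt_of_le hq (Finset.sum_le_sum fun j _ => card_RR _ _ _))
  rw [← hsum]
  refine Finset.sum_congr rfl fun I _ => ?_
  congr 1
  have hg : BU (sz k x p) (addCls Γ (fun j => [M j]) I) =
      BU (sz k x p) Γ ⊔ ⨆ j ∈ I, RR (M j).1 (M j).2 (hM j).ne := by
    ext u v
    simp only [SimpleGraph.sup_adj, SimpleGraph.iSup_adj, RR_adj, exists_prop]
    simp only [BU, addCls, Bool.or_eq_true, decide_eq_true_eq, List.mem_singleton]
    constructor
    · rintro ⟨h1, (h2 | ⟨j, hj, h2⟩) | (h2 | ⟨j, hj, h2⟩)⟩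
      · exact Or.inl ⟨h1, Or.inl h2⟩
      · right
        refine ⟨j, hj, Or.inl ?_⟩
        rw [← h2]
        exact ⟨rfl, rfl⟩
      · exact Or.inl ⟨h1, Or.inr h2⟩
      · right
        refine ⟨j, hj, Or.inr ?_⟩
        rw [← h2]
        exact ⟨rfl, rfl⟩
    · rintro (⟨h1, h2⟩ | ⟨j, hj, h2⟩)
      · exact ⟨h1, h2.imp Or.inl Or.inl⟩
      · have hne : u ≠ v := by
          rintro rfl
          rcases h2 with h2 | h2
          · exact (hM j).ne (h2.1.symm.trans h2.2)
          · exact (hM j).ne (h2.2.symm.trans h2.1)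
        refine ⟨hne, ?_⟩
        rcases h2 with h2 | h2
        · left; right
          exact ⟨j, hj, Prod.ext h2.1 h2.2⟩
        · right; right
          exact ⟨j, hj, Prod.ext h2.2 h2.1⟩
  unfold hv
  rw [hg]

end Pool.Agent.H119R2.Kp
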