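import Mathlib
import Pool.Agent.H119R2.Kp.Defs2
import Pool.Agent.H119R2.Kp.PVE
import Pool.Agent.H119R2.Kp.RelId

set_option autoImplicit false

/-! Task ALT of helper119 (Karp / evasiveness): alternating sums (helper814). -/

namespace Pool.Agent.H119R2.Kp

open Finset
open Pool.Agent.H98R2.Ev (EV toG NE)

namespace TaskALT

theorem alt_list {ι : Type} [DecidableEq ι] (f : ℕ → ℤ) (w : ι → ℕ) (l : List ι) (hl : l.Nodup)
    (g : ℕ) : ∑ I ∈ l.toFinset.powerset, (-1 : ℤ) ^ I.card * f (g + ∑ i ∈ I, w i) =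
      alt f (l.map w) g := by
  induction l generalizing g with
  | nil => simp [alt]
  | cons a l ih =>
    rw [List.nodup_cons] at hl
    have ha : a ∉ l.toFinset := by simpa using hl.1
    rw [List.toFinset_cons, sum_powerset_insert ha, List.map_cons, alt, ← ih hl.2, ← ih hl.2,
      sub_eq_add_neg, ← sum_neg_distrib]
    congr 1
    apply sum_congr rfl
    intro I hI
    have haI : a ∉ I := fun h => ha (mem_powerset.1 hI h)
    rw [card_insert_of_notMem haI, sum_insert haI, pow_succ, ← add_assoc]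
    ring

theorem tb (s : Finset ℕ) (k : ℕ) : (∑ i ∈ s, 2 ^ i).testBit k = true ↔ k ∈ s := by
  have := Finset.toFinset_bitIndices_sum_two_pow s
  have h2 : k ∈ (∑ i ∈ s, 2 ^ i).bitIndices.toFinset ↔ k ∈ s := by rw [this]
  rwa [List.mem_toFinset, Nat.mem_bitIndices] at h2

theorem tb_gen {m : ℕ} (B : Finset ℕ) (E : Fin m → Finset ℕ)
    (hd : ∀ i j, i ≠ j → Disjoint (E i) (E j)) (hB : ∀ i, Disjoint B (E i)) (I : Finset (Fin m))
    (k : ℕ) : (∑ k ∈ B, 2 ^ k + ∑ i ∈ I, ∑ k ∈ E i, 2 ^ k).testBit k = true ↔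
      k ∈ B ∨ ∃ i ∈ I, k ∈ E i := by
  have h1 : ∑ k ∈ B, 2 ^ k + ∑ i ∈ I, ∑ k ∈ E i, 2 ^ k = ∑ k ∈ B ∪ I.biUnion E, 2 ^ k := by
    rw [sum_union, sum_biUnion]
    · intro i _ j _ hij
      exact hd i j hij
    · rw [disjoint_biUnion_right]
      exact fun i _ => hB i
  rw [h1, tb]
  simp

theorem hv_congr {n : ℕ} (P : SimpleGraph (Fin n) → Prop) {k : ℕ} (s : Fin k → ℕ)
    (Γ Γ' : Fin k → Fin k → Bool)
    (h : ∀ a b, (Γ a b = true ∨ Γ b a = true) ↔ (Γ' a b = true ∨ Γ' b a = true)) :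
    hv P s Γ = hv P s Γ' := by
  have : BU s Γ = BU s Γ' := by
    ext u v
    simp only [BU]
    rw [h]
  unfold hv
  rw [this]

theorem ix_symm : ∀ a b : Fin 5, ix a b = ix b a := by decide

theorem pM_iff (g : ℕ) (a b : Fin 5) : pM g a b = true ↔ a = b ∨ g.testBit (ix a b) = true := by
  simp [pM]

theorem addCls_iff {k m : ℕ} (Γ : Fin k → Fin k → Bool) (M : Fin m → Fin k × Fin k)
    (I : Finset (Fin m)) (a b : Fin k) :
    addCls Γ (fun j => [M j]) I a b = true ↔ Γ a b = true ∨ ∃ j ∈ I, (a, b) = M j := by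
  simp [addCls]

/-- general form of the relations with five parts -/
theorem gen5 {n q : ℕ} {P : SimpleGraph (Fin n) → Prop} (hP : GP n q P) (X p : ℕ)
    [Fact p.Prime] (hX : 0 < X) (hn : X + 4 * p = n) {m : ℕ} (M : Fin m → Fin 5 × Fin 5)
    (hM : ∀ j, (M j).1 < (M j).2) (hinj : Function.Injective M) (B : Finset ℕ)
    (hB : ∀ j, ix (M j).1 (M j).2 ∉ B)
    (hq : q < ∑ j, sz 4 X p (M j).1 * sz 4 X p (M j).2)
    (hix : ∀ a b : Fin 5, ∀ j, a ≠ b →
      (ix a b = ix (M j).1 (M j).2 ↔ ((a, b) = M j ∨ (b, a) = M j))) :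
    ∑ I : Finset (Fin m), (-1 : ℤ) ^ I.card *
      fM P X p (∑ k ∈ B, 2 ^ k + ∑ i ∈ I, 2 ^ (ix (M i).1 (M i).2)) = 0 := by
  have h0 := relId hP 4 X p hX hn (pM (∑ k ∈ B, 2 ^ k)) M hM hinj (by
    intro j
    have h1 := (hM j).ne
    have h2 : (∑ k ∈ B, 2 ^ k).testBit (ix (M j).1 (M j).2) = false := by
      by_contra h
      exact hB j ((tb B _).1 (by simpa using h))
    constructor
    · simp [pM, h1, h2]
    · rw [pM, ix_symm]
      simp [h1.symm, h2]) hq
  rw [← h0]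
  apply sum_congr rfl
  intro I _
  congr 1
  unfold fM
  apply hv_congr
  intro a b
  have hE : ∀ i j : Fin m, i ≠ j →
      Disjoint ({ix (M i).1 (M i).2} : Finset ℕ) {ix (M j).1 (M j).2} := by
    intro i j hij
    rw [disjoint_singleton]
    intro he
    have := (hix (M i).1 (M i).2 j (hM i).ne).1 he
    rcases this with h | h
    · exact hij (hinj h)
    · have h3 := hM j
      rw [← h] at h3
      exact absurd h3 (not_lt.2 (hM i).le)
  have key : ∀ k, (∑ k ∈ B, 2 ^ k + ∑ i ∈ I, 2 ^ (ix (M i).1 (M i).2)).testBit k = true ↔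
      k ∈ B ∨ ∃ i ∈ I, k = ix (M i).1 (M i).2 := by
    intro k
    have := tb_gen B (fun i => {ix (M i).1 (M i).2}) hE
      (fun i => by rw [disjoint_singleton_right]; exact hB i) I k
    simpa using this
  rw [pM_iff, pM_iff, addCls_iff, addCls_iff, pM_iff, pM_iff, key, key, tb, tb, ix_symm b a]
  by_cases hab : a = b
  · simp [hab]
  · have h1 : (∃ i ∈ I, ix a b = ix (M i).1 (M i).2) ↔
        (∃ i ∈ I, (a, b) = M i) ∨ (∃ i ∈ I, (b, a) = M i) := by
      constructor
      · rintro ⟨i, hi, h⟩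
        rcases (hix a b i hab).1 h with h | h
        · exact Or.inl ⟨i, hi, h⟩
        · exact Or.inr ⟨i, hi, h⟩
      · rintro (⟨i, hi, h⟩ | ⟨i, hi, h⟩)
        · exact ⟨i, hi, (hix a b i hab).2 (Or.inl h)⟩
        · exact ⟨i, hi, (hix a b i hab).2 (Or.inr h)⟩
    rw [h1]
    have hba : ¬ b = a := fun h => hab h.symm
    simp only [hab, hba, false_or]
    generalize (∃ i ∈ I, (a, b) = M i) = p1
    generalize (∃ i ∈ I, (b, a) = M i) = p2
    tauto

theorem sz_eq (k X p : ℕ) (i : Fin (k + 1)) : sz k X p i = if i = 0 then X else p := by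
  refine Fin.cases ?_ (fun j => ?_) i
  · simp [sz]
  · simp [sz, Fin.succ_ne_zero]

def M0 : Fin 9 → Fin 5 × Fin 5 :=
  ![(0, 2), (0, 3), (0, 4), (1, 2), (1, 3), (1, 4), (2, 3), (2, 4), (3, 4)]

def M9 : Fin 9 → Fin 5 × Fin 5 :=
  ![(0, 1), (0, 2), (0, 3), (0, 4), (1, 2), (1, 3), (1, 4), (2, 3), (2, 4)]

def MM : Fin 6 → Fin 4 × Fin 4 := ![(0, 1), (0, 2), (0, 3), (1, 2), (1, 3), (2, 3)]

def EM : Fin 6 → Finset ℕ := ![{1, 4}, {2, 5}, {3, 6}, {7}, {8}, {9}]

def ph : Fin 5 → Fin 4 := ![0, 0, 1, 2, 3]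

def base4 : Fin 4 → Fin 4 → Bool := fun a b => decide (a = b)

end TaskALT

open TaskALT

/-- Boolean sum over the subsets of `Fin m` as an iterated alternating sum -/
theorem alt_sum (f : ℕ → ℤ) {m : ℕ} (w : Fin m → ℕ) (g : ℕ) :
    ∑ I : Finset (Fin m), (-1 : ℤ) ^ I.card * f (g + ∑ i ∈ I, w i) = alt f (List.ofFn w) g := by
  have h := alt_list f w (List.finRange m) (List.nodup_finRange m) g
  have h1 : (List.finRange m).toFinset = univ := by ext i; simp
  rw [h1, powerset_univ] at h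
  rw [h]
  congr 1
  exact (List.ofFn_eq_map).symm

/-- drop the pair `(0,1)`: nine pairs of total weight `3 X p + 6 p^2` -/
theorem fM_rel0 {n q : ℕ} {P : SimpleGraph (Fin n) → Prop} (hP : GP n q P) (X p : ℕ)
    [Fact p.Prime] (hX : 0 < X) (hn : X + 4 * p = n) (hq : q < 3 * X * p + 6 * p * p) :
    ∀ b, b < 2 → alt (fM P X p) [2, 4, 8, 16, 32, 64, 128, 256, 512] b = 0 := by
  intro b hb
  obtain ⟨B, hB, hB'⟩ : ∃ B : Finset ℕ, ∑ k ∈ B, 2 ^ k = b ∧ B ⊆ {0} := by
    interval_cases b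
    · exact ⟨∅, by simp, by simp⟩
    · exact ⟨{0}, by simp, by simp⟩
  have h0 := gen5 hP X p hX hn M0 (by decide) (by decide) B (by
    intro j hj
    have key : ∀ j, ix (M0 j).1 (M0 j).2 ∉ ({0} : Finset ℕ) := by decide
    exact key j (hB' hj)) (by
    simp only [sz_eq]
    simp [Fin.sum_univ_succ, M0]
    convert hq using 1
    ring) (by decide)
  rw [hB] at h0
  have h1 := alt_sum (fM P X p) (fun i => 2 ^ (ix (M0 i).1 (M0 i).2)) b
  rw [h0] at h1
  rw [h1]
  rfl

/-- drop the pair `(3,4)`: nine pairs of total weight `4 X p + 5 p^2` -/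
theorem fM_rel9 {n q : ℕ} {P : SimpleGraph (Fin n) → Prop} (hP : GP n q P) (X p : ℕ)
    [Fact p.Prime] (hX : 0 < X) (hn : X + 4 * p = n) (hq : q < 4 * X * p + 5 * p * p) :
    ∀ b, b < 2 → alt (fM P X p) [1, 2, 4, 8, 16, 32, 64, 128, 256] (512 * b) = 0 := by
  intro b hb
  obtain ⟨B, hB, hB'⟩ : ∃ B : Finset ℕ, ∑ k ∈ B, 2 ^ k = 512 * b ∧ B ⊆ {9} := by
    interval_cases b
    · exact ⟨∅, by simp, by simp⟩
    · exact ⟨{9}, by simp, by simp⟩
  have h0 := gen5 hP X p hX hn M9 (by decide) (by decide) B (by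
    intro j hj
    have key : ∀ j, ix (M9 j).1 (M9 j).2 ∉ ({9} : Finset ℕ) := by decide
    exact key j (hB' hj)) (by
    simp only [sz_eq]
    simp [Fin.sum_univ_succ, M9]
    convert hq using 1
    ring) (by decide)
  rw [hB] at h0
  have h1 := alt_sum (fM P X p) (fun i => 2 ^ (ix (M9 i).1 (M9 i).2)) (512 * b)
  rw [h0] at h1
  rw [h1]
  rfl

/-- four parts of sizes `X + p, p, p, p`: six pairs of total weight `3 (X + p) p + 3 p^2` -/
theorem fM_relM {n q : ℕ} {P : SimpleGraph (Fin n) → Prop} (hP : GP n q P) (X p : ℕ)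
    [Fact p.Prime] (hX : 0 < X) (hn : X + 4 * p = n) (hq : q < 3 * X * p + 6 * p * p) :
    alt (fM P X p) [18, 36, 72, 128, 256, 512] 1 = 0 := by
  have h0 := relId hP 3 (X + p) p (by omega) (by omega) base4 MM (by decide) (by decide)
    (by decide) (by
    simp only [sz_eq]
    simp [Fin.sum_univ_succ, MM]
    convert hq using 1
    ring)
  have h1 := alt_sum (fM P X p) (fun i => ∑ k ∈ EM i, 2 ^ k) 1
  have h2 : ∀ I : Finset (Fin 6), fM P X p (1 + ∑ i ∈ I, ∑ k ∈ EM i, 2 ^ k) =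
      hv P (sz 3 (X + p) p) (addCls base4 (fun j => [MM j]) I) := by
    intro I
    unfold fM
    have key : ∀ k, (1 + ∑ i ∈ I, ∑ k ∈ EM i, 2 ^ k).testBit k = true ↔
        k = 0 ∨ ∃ i ∈ I, k ∈ EM i := by
      intro k
      have := tb_gen {0} EM (by decide) (by decide) I k
      simpa using this
    have hmain : ∀ a b : Fin 5,
        (pM (1 + ∑ i ∈ I, ∑ k ∈ EM i, 2 ^ k) a b = true ∨
          pM (1 + ∑ i ∈ I, ∑ k ∈ EM i, 2 ^ k) b a = true) ↔
        (addCls base4 (fun j => [MM j]) I (ph a) (ph b) = true ∨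
          addCls base4 (fun j => [MM j]) I (ph b) (ph a) = true) := by
      intro a b
      rw [pM_iff, pM_iff, addCls_iff, addCls_iff, key, key, ix_symm b a]
      have c1 : ∀ a b : Fin 5, (a = b ∨ ix a b = 0) ↔ base4 (ph a) (ph b) = true := by decide
      have c2 : ∀ a b : Fin 5, ∀ j, a ≠ b →
        (ix a b ∈ EM j ↔ ((ph a, ph b) = MM j ∨ (ph b, ph a) = MM j)) := by decide
      rw [← c1 a b, ← c1 b a, ix_symm b a]
      by_cases hab : a = b
      · simp [hab]
      · have h1 : (∃ i ∈ I, ix a b ∈ EM i) ↔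
            (∃ i ∈ I, (ph a, ph b) = MM i) ∨ (∃ i ∈ I, (ph b, ph a) = MM i) := by
          constructor
          · rintro ⟨i, hi, h⟩
            rcases (c2 a b i hab).1 h with h | h
            · exact Or.inl ⟨i, hi, h⟩
            · exact Or.inr ⟨i, hi, h⟩
          · rintro (⟨i, hi, h⟩ | ⟨i, hi, h⟩)
            · exact ⟨i, hi, (c2 a b i hab).2 (Or.inl h)⟩
            · exact ⟨i, hi, (c2 a b i hab).2 (Or.inr h)⟩
        rw [h1]
        have hba : ¬ b = a := fun h => hab h.symm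
        simp only [hab, hba, false_or]
        generalize (∃ i ∈ I, (ph a, ph b) = MM i) = p1
        generalize (∃ i ∈ I, (ph b, ph a) = MM i) = p2
        tauto
    have hrow : ∀ a : Fin 5, ∑ i : Fin 4, (if ph a = i then sz 4 X p a else 0) = sz 4 X p a := by
      intro a; simp
    have hcol : ∀ i : Fin 4, ∑ a : Fin 5, (if ph a = i then sz 4 X p a else 0) =
        sz 3 (X + p) p i := by
      intro i
      simp only [sz_eq]
      fin_cases i <;> simp [Fin.sum_univ_succ, ph]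
    apply le_antisymm
    · apply emb hP _ _ _ _ (fun a i => if ph a = i then sz 4 X p a else 0) hrow hcol
      intro a b i j h hi hj
      have hi' : ph a = i := by by_contra hc; simp [hc] at hi
      have hj' : ph b = j := by by_contra hc; simp [hc] at hj
      rw [← hi', ← hj']
      exact (hmain a b).1 h
    · apply emb hP _ _ _ _ (fun i a => if ph a = i then sz 4 X p a else 0) hcol hrow
      intro i j a b h hi hj
      have hi' : ph a = i := by by_contra hc; simp [hc] at hi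
      have hj' : ph b = j := by by_contra hc; simp [hc] at hj
      rw [← hi', ← hj'] at h
      exact (hmain a b).2 h
  have h3 : ∑ I : Finset (Fin 6), (-1 : ℤ) ^ I.card *
      fM P X p (1 + ∑ i ∈ I, ∑ k ∈ EM i, 2 ^ k) = 0 := by
    rw [← h0]; exact sum_congr rfl (fun I _ => by rw [h2 I])
  rw [h1] at h3
  rw [← h3]
  rfl

end Pool.Agent.H119R2.Kp
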