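import Mathlib
import Pool.Agent.H119R2.Kp.Defs
import Pool.Agent.H119R2.Kp.Rel

set_option autoImplicit false

/-!
MP_257582_lc: a non-trivial monotone isomorphism invariant graph property on a prime number `p`
of vertices has decision tree complexity at least `p (p - 1) / 2`.
-/

namespace Pool.Agent.H119R2.Kp

open Finset
open Pool.Agent.H98R2.Ev (EV toG NE)


namespace BaseAux

/-- translation by one -/
def tr (p : ℕ) : Equiv.Perm (ZMod p) := Equiv.addRight (1 : ZMod p)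

theorem tr_apply (p : ℕ) (u : ZMod p) : tr p u = u + 1 := rfl

theorem tr_pow_apply (p : ℕ) (t : ℕ) (u : ZMod p) : (tr p ^ t) u = u + t := by
  induction t generalizing u with
  | zero => simp
  | succ t ih =>
    rw [pow_succ, Equiv.Perm.mul_apply, ih, tr_apply]
    push_cast
    ring

theorem tr_pow_card (p : ℕ) : tr p ^ p = 1 := by
  ext u
  rw [tr_pow_apply]
  simp

theorem mul_pow_apply {p : ℕ} (ζ : (ZMod p)ˣ) (k : ℕ) (u : ZMod p) :
    (Units.mulLeft ζ ^ k) u = (ζ : ZMod p) ^ k * u := by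
  induction k generalizing u with
  | zero => simp
  | succ k ih =>
    rw [pow_succ, Equiv.Perm.mul_apply, ih, Units.mulLeft_apply, pow_succ]
    ring

theorem conj_mem (p : ℕ) [Fact p.Prime] (ζ : (ZMod p)ˣ) (i : Unit) :
    (Units.mulLeft ζ)⁻¹ * (fun _ : Unit => tr p) i * Units.mulLeft ζ ∈
      Subgroup.closure (Set.range (fun _ : Unit => tr p)) := by
  have h : (Units.mulLeft ζ)⁻¹ * tr p * Units.mulLeft ζ =
      tr p ^ ((ζ⁻¹ : (ZMod p)ˣ) : ZMod p).val := by
    ext u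
    have e1 : ((Units.mulLeft ζ)⁻¹ * tr p * Units.mulLeft ζ) u =
        ((ζ⁻¹ : (ZMod p)ˣ) : ZMod p) * ((ζ : ZMod p) * u + 1) := rfl
    rw [tr_pow_apply, ZMod.natCast_zmod_val, e1, mul_add, Units.inv_mul_cancel_left, mul_one]
  change (Units.mulLeft ζ)⁻¹ * tr p * Units.mulLeft ζ ∈ _
  rw [h]
  exact Subgroup.pow_mem _ (Subgroup.subset_closure (Set.mem_range_self ())) _

theorem trans2 (p : ℕ) [Fact p.Prime] (ζ : (ZMod p)ˣ) (hζ : ∀ x : (ZMod p)ˣ, x ∈ Submonoid.powers ζ)
    (u v u' v' : ZMod p) (h : u ≠ v) (h' : u' ≠ v') :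
    ∃ g ∈ Subgroup.closure (insert (Units.mulLeft ζ) (Set.range (fun _ : Unit => tr p))),
      g u = u' ∧ g v = v' := by
  have hd : u - v ≠ 0 := sub_ne_zero.2 h
  have hd' : u' - v' ≠ 0 := sub_ne_zero.2 h'
  obtain ⟨k, hk⟩ := hζ (Units.mk0 (u' - v') hd' / Units.mk0 (u - v) hd)
  have hk' : (ζ : ZMod p) ^ k * (u - v) = u' - v' := by
    have := congrArg (fun x : (ZMod p)ˣ => (x : ZMod p)) hk
    simp only [Units.val_pow_eq_pow_val, Units.val_div_eq_div_val, Units.val_mk0] at this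
    rw [this]
    field_simp
  refine ⟨tr p ^ (u' - (ζ : ZMod p) ^ k * u).val * Units.mulLeft ζ ^ k, ?_, ?_, ?_⟩
  · refine Subgroup.mul_mem _ (Subgroup.pow_mem _ ?_ _) (Subgroup.pow_mem _ ?_ _)
    · exact Subgroup.subset_closure (Set.mem_insert_of_mem _ (Set.mem_range_self ()))
    · exact Subgroup.subset_closure (Set.mem_insert _ _)
  · rw [Equiv.Perm.mul_apply, mul_pow_apply, tr_pow_apply, ZMod.natCast_zmod_val]
    ring
  · rw [Equiv.Perm.mul_apply, mul_pow_apply, tr_pow_apply, ZMod.natCast_zmod_val]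
    linear_combination -hk'

theorem map_bot' {n : ℕ} {V : Type} (e : V ≃ Fin n) :
    (⊥ : SimpleGraph V).map e.toEmbedding = ⊥ := by
  ext a b
  rw [SimpleGraph.map_adj]
  constructor
  · rintro ⟨u, v, huv, -, -⟩
    exact huv.elim
  · intro hh
    exact hh.elim

theorem map_top' {n : ℕ} {V : Type} (e : V ≃ Fin n) :
    (⊤ : SimpleGraph V).map e.toEmbedding = ⊤ := by
  ext a b
  constructor
  · intro h
    exact h.ne
  · intro h
    rw [SimpleGraph.map_adj]
    refine ⟨e.symm a, e.symm b, ?_, ?_, ?_⟩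
    · intro hc
      exact h.ne (e.symm.injective hc)
    · simp
    · simp

theorem card_top (p : ℕ) [NeZero p] :
    Nat.card (⊤ : SimpleGraph (ZMod p)).edgeSet = p * (p - 1) / 2 := by
  classical
  rw [Nat.card_eq_fintype_card, ← SimpleGraph.edgeFinset_card,
    SimpleGraph.card_edgeFinset_top_eq_card_choose_two, ZMod.card, Nat.choose_two_right]

end BaseAux

open BaseAux in
/-- prime number of vertices: evasiveness -/
theorem prime_base {p q : ℕ} [Fact p.Prime] (P : SimpleGraph (Fin p) → Prop) (h : GP p q P)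
    (h1 : ∃ G, P G) (h0 : ∃ G, ¬ P G) : p * (p - 1) / 2 ≤ q := by
  classical
  by_contra hlt
  rw [not_le] at hlt
  have hp : p.Prime := Fact.out
  have : NeZero p := ⟨hp.ne_zero⟩
  have : Fact (1 < p) := ⟨hp.one_lt⟩
  obtain ⟨ζ, hζ⟩ := IsCyclic.exists_monoid_generator (α := (ZMod p)ˣ)
  have hr := rel h (V := ZMod p) (ZMod.card p) p (ι := Unit) (fun _ => tr p) (Units.mulLeft ζ)
    (fun _ _ => rfl) (fun _ => tr_pow_card p) (fun i => conj_mem p ζ i)
    (m := 1) ⊥ (fun _ => ⊤)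
    (fun _ _ _ hh => hh.elim) (fun _ _ hh => hh.elim)
    (fun _ _ u v hh => fun hc => hh.ne ((tr p).injective hc))
    (fun _ u v hh => fun hc => hh.ne ((Units.mulLeft ζ).injective hc))
    (fun i j hij => (hij (Subsingleton.elim i j)).elim)
    (fun _ => disjoint_bot_left)
    (fun _ => ⟨0, 1, zero_ne_one⟩)
    (fun _ u v u' v' huv huv' => by
      obtain ⟨g, hg, hg1⟩ := trans2 p ζ hζ u v u' v' huv.ne huv'.ne
      exact ⟨g, hg, Or.inl hg1⟩)
    (by
      rw [Fin.sum_univ_one, card_top]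
      exact hlt)
  have hT : PV P (ZMod p) ⊤ := by
    obtain ⟨G, hG⟩ := h1
    obtain ⟨e⟩ : Nonempty (ZMod p ≃ Fin p) := Fintype.card_eq.1 (by rw [ZMod.card, Fintype.card_fin])
    refine ⟨e, ?_⟩
    rw [map_top']
    exact h.mono G ⊤ le_top hG
  have hB : ¬ PV P (ZMod p) ⊥ := by
    rintro ⟨e, he⟩
    rw [map_bot'] at he
    obtain ⟨G, hG⟩ := h0
    exact hG (h.mono ⊥ G bot_le he)
  have hu : (Finset.univ : Finset (Finset (Fin 1))) = {∅, {0}} := by decide
  rw [hu, Finset.sum_pair (by decide)] at hr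
  simp [hT, hB] at hr

end Pool.Agent.H119R2.Kp
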