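import Mathlib
import Pool.Agent.H98R2.Ev.T8
import Pool.Agent.H119R2.Kp.Defs

set_option autoImplicit false

/-! STUBS (never import this file in a finished file; import the finished files instead). -/

namespace Pool.Agent.H119R2.Kp

open Finset
open Pool.Agent.H98R2.Ev (EV toG NE)

/-! ### K1 : orbit sum (file K1.lean) -/

theorem orbit_sum {E : Type} [Fintype E] [DecidableEq E] (A : Finset E) (D : Finset E → Prop)
    [DecidablePred D]
    (hdown : ∀ S T, S ⊆ T → T ⊆ A → D T → D S) (hne : NE A D)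
    (p : ℕ) [Fact p.Prime] {ι : Type} [Fintype ι] (a : ι → Equiv.Perm E) (c : Equiv.Perm E)
    (hcomm : ∀ i j, a i * a j = a j * a i) (hap : ∀ i, a i ^ p = 1)
    (hAa : ∀ i, A.map (a i).toEmbedding = A) (hAc : A.map c.toEmbedding = A)
    (hDa : ∀ i S, S ⊆ A → D S → D (S.map (a i).toEmbedding))
    (hDc : ∀ S, S ⊆ A → D S → D (S.map c.toEmbedding))
    (hca : ∀ S : Finset E, (∀ i, S.map (a i).toEmbedding = S) →
      ∀ i, (S.map c.toEmbedding).map (a i).toEmbedding = S.map c.toEmbedding)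
    {m : ℕ} (O : Fin m → Finset E) (hO : ∀ j, (O j).Nonempty)
    (hdisj : ∀ i j, i ≠ j → Disjoint (O i) (O j)) (hOA : univ.biUnion O = A)
    (hinv : ∀ S, S ⊆ A → (∀ i, S.map (a i).toEmbedding = S) → S.map c.toEmbedding = S →
      ∃ I : Finset (Fin m), S = I.biUnion O)
    (hOa : ∀ j i, (O j).map (a i).toEmbedding = O j) (hOc : ∀ j, (O j).map c.toEmbedding = O j) :
    ∑ I : Finset (Fin m), (-1 : ℤ) ^ I.card * (if D (I.biUnion O) then 1 else 0) = 0 := by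
  sorry

/-! ### D1, D2, D3 : decision trees (file D.lean) -/

theorem dec_of_strategy {n : ℕ} (q : ℕ) (P : SimpleGraph (Fin n) → Prop)
    (s : Finset (Sym2 (Fin n)) → SimpleGraph (Fin n) → Sym2 (Fin n))
    (hs : ∀ (Q : Finset (Sym2 (Fin n))) (G H : SimpleGraph (Fin n)),
      (∀ e ∈ Q, (e ∈ G.edgeSet ↔ e ∈ H.edgeSet)) → s Q G = s Q H)
    (h : ∀ G H : SimpleGraph (Fin n),
      (∀ e ∈ (fun Q : Finset (Sym2 (Fin n)) => insert (s Q G) Q)^[q] (∅ : Finset (Sym2 (Fin n))),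
        (e ∈ G.edgeSet ↔ e ∈ H.edgeSet)) → P G → P H) :
    Dec q (fun S : Finset (EV (Fin n)) => P (toG S)) := by
  sorry

theorem Dec.comap {E E' : Type} [DecidableEq E] [DecidableEq E'] {q : ℕ} {D : Finset E → Prop}
    (h : Dec q D) (φ : Finset E' → Finset E)
    (hφ : ∀ e, (∀ S, e ∈ φ S) ∨ (∀ S, e ∉ φ S) ∨ (∃ e', ∀ S, e ∈ φ S ↔ e' ∈ S) ∨
      (∃ e', ∀ S, e ∈ φ S ↔ e' ∉ S)) : Dec q (fun S => D (φ S)) := by
  sorry

theorem Dec.ne {E : Type} [DecidableEq E] {q : ℕ} {D : Finset E → Prop} (h : Dec q D)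
    (A B : Finset E) (hAB : Disjoint A B) (hq : q < A.card) : NE A (fun S => ¬ D (B ∪ S)) := by
  sorry

/-! ### D4 : closure of the class `GP` (file D4.lean) -/

theorem GP.dual' {n q : ℕ} {P : SimpleGraph (Fin n) → Prop} (h : GP n q P) : GP n q (dual P) := by
  sorry

theorem Star.dual' {n : ℕ} {P : SimpleGraph (Fin n) → Prop} (h : Star n P) : Star n (dual P) := by
  sorry

/-- KSS reduction -/
theorem kss {n q : ℕ} (P : SimpleGraph (Fin n) → Prop) (h : GP n q P) (h1 : ∃ G, P G)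
    (h0 : ∃ G, ¬ P G) (m : ℕ) (hm : 1 ≤ m) (hmn : m ≤ n) :
    (∃ n', m < n' ∧ n' ≤ n ∧ ∃ P' : SimpleGraph (Fin n') → Prop, GP n' q P' ∧ Star n' P') ∨
    (∃ P' : SimpleGraph (Fin m) → Prop, GP m q P' ∧ (∃ G, P' G) ∧ (∃ G, ¬ P' G)) := by
  sorry

/-! ### PVE : transport and embeddings (file PVE.lean) -/

theorem PV.mono {n q : ℕ} {P : SimpleGraph (Fin n) → Prop} (h : GP n q P) {V W : Type}
    {G : SimpleGraph V} {H : SimpleGraph W} (e : V ≃ W) (he : ∀ u v, G.Adj u v → H.Adj (e u) (e v))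
    (hG : PV P V G) : PV P W H := by
  sorry

/-- `t i a` vertices of part `i` are sent to part `a` -/
theorem emb {n q : ℕ} {P : SimpleGraph (Fin n) → Prop} (h : GP n q P) {k l : ℕ} (s : Fin k → ℕ)
    (s' : Fin l → ℕ) (Γ : Fin k → Fin k → Bool) (Γ' : Fin l → Fin l → Bool)
    (t : Fin k → Fin l → ℕ) (hrow : ∀ i, ∑ a, t i a = s i) (hcol : ∀ a, ∑ i, t i a = s' a)
    (hΓ : ∀ i j a b, (Γ i j = true ∨ Γ j i = true) → t i a ≠ 0 → t j b ≠ 0 →
      (Γ' a b = true ∨ Γ' b a = true)) : hv P s Γ ≤ hv P s' Γ' := by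
  sorry

theorem hv01 {n : ℕ} (P : SimpleGraph (Fin n) → Prop) {k : ℕ} (s : Fin k → ℕ)
    (Γ : Fin k → Fin k → Bool) : hv P s Γ = 0 ∨ hv P s Γ = 1 := by
  sorry

/-- a non-empty part without any edge -/
theorem hv_isol {n q : ℕ} {P : SimpleGraph (Fin n) → Prop} (h : GP n q P) (hS : Star n P) {k : ℕ}
    (s : Fin k → ℕ) (Γ : Fin k → Fin k → Bool) (i : Fin k) (hi : s i ≠ 0)
    (hΓ : ∀ j, Γ i j = false ∧ Γ j i = false) : hv P s Γ = 0 := by
  sorry

/-- a non-empty clique part joined to everything -/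
theorem hv_univ {n q : ℕ} {P : SimpleGraph (Fin n) → Prop} (h : GP n q P) (hS : Star n P) {k : ℕ}
    (s : Fin k → ℕ) (hs : ∑ i, s i = n) (Γ : Fin k → Fin k → Bool) (i : Fin k) (hi : s i ≠ 0)
    (hΓ : ∀ j, Γ i j = true ∨ Γ j i = true) : hv P s Γ = 1 := by
  sorry

theorem PV_dual {n q : ℕ} {P : SimpleGraph (Fin n) → Prop} (h : GP n q P) (V : Type)
    (G : SimpleGraph V) (hV : Nonempty (V ≃ Fin n)) : PV (dual P) V G ↔ ¬ PV P V Gᶜ := by
  sorry

/-! ### REL : the relation on an arbitrary vertex set (file Rel.lean) -/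

open Classical in
theorem rel {n q : ℕ} {P : SimpleGraph (Fin n) → Prop} (hP : GP n q P) {V : Type} [Fintype V]
    [DecidableEq V] (hV : Fintype.card V = n) (p : ℕ) [Fact p.Prime] {ι : Type} [Fintype ι]
    (a : ι → Equiv.Perm V) (c : Equiv.Perm V)
    (hcomm : ∀ i j, a i * a j = a j * a i) (hap : ∀ i, a i ^ p = 1)
    (hca : ∀ i, c⁻¹ * a i * c ∈ Subgroup.closure (Set.range a))
    {m : ℕ} (B : SimpleGraph V) (R : Fin m → SimpleGraph V)
    (hBa : ∀ i u v, B.Adj u v → B.Adj (a i u) (a i v)) (hBc : ∀ u v, B.Adj u v → B.Adj (c u) (c v))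
    (hRa : ∀ j i u v, (R j).Adj u v → (R j).Adj (a i u) (a i v))
    (hRc : ∀ j u v, (R j).Adj u v → (R j).Adj (c u) (c v))
    (hd : ∀ i j, i ≠ j → Disjoint (R i) (R j)) (hd0 : ∀ i, Disjoint B (R i))
    (hne : ∀ j, ∃ u v, (R j).Adj u v)
    (htr : ∀ j u v u' v', (R j).Adj u v → (R j).Adj u' v' →
      ∃ g ∈ Subgroup.closure (insert c (Set.range a)), (g u = u' ∧ g v = v') ∨ (g u = v' ∧ g v = u'))
    (hq : q < ∑ j, Nat.card (R j).edgeSet) :
    ∑ I : Finset (Fin m), (-1 : ℤ) ^ I.card *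
      (if PV P V (B ⊔ ⨆ j ∈ I, R j) then 1 else 0) = 0 := by
  sorry

/-! ### BASE : prime `n` (file Base.lean) -/

theorem prime_base {p q : ℕ} [Fact p.Prime] (P : SimpleGraph (Fin p) → Prop) (h : GP p q P)
    (h1 : ∃ G, P G) (h0 : ∃ G, ¬ P G) : p * (p - 1) / 2 ≤ q := by
  sorry

/-! ### RID : relation with trivial block permutation (file RelId.lean) -/

theorem relId {n q : ℕ} {P : SimpleGraph (Fin n) → Prop} (hP : GP n q P) (k x p : ℕ)
    [Fact p.Prime] (hx : 0 < x) (hn : x + k * p = n) (Γ : Fin (k + 1) → Fin (k + 1) → Bool)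
    {m : ℕ} (M : Fin m → Fin (k + 1) × Fin (k + 1)) (hM : ∀ j, (M j).1 < (M j).2)
    (hinj : Function.Injective M)
    (hΓ : ∀ j, Γ (M j).1 (M j).2 = false ∧ Γ (M j).2 (M j).1 = false)
    (hq : q < ∑ j, sz k x p (M j).1 * sz k x p (M j).2) :
    ∑ I : Finset (Fin m), (-1 : ℤ) ^ I.card * hv P (sz k x p) (addCls Γ (fun j => [M j]) I) = 0 := by
  sorry

/-! ### RSW : relations with two blocks swapped (file RelSw.lean) -/

theorem relEven {n q : ℕ} {P : SimpleGraph (Fin n) → Prop} (hP : GP n q P) (x p : ℕ)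
    [Fact p.Prime] (hp : 2 < p) (hx : Odd x) (hn : x + 3 * p = n)
    (hq : q < 3 * p * x + 2 * p * p + p * (p - 1)) :
    ∑ I : Finset (Fin 4), (-1 : ℤ) ^ I.card *
      hv P (sz 3 x p) (addCls (pat evenBase) evenCls I) = 0 := by
  sorry

theorem relOdd {n q : ℕ} {P : SimpleGraph (Fin n) → Prop} (hP : GP n q P) (x p : ℕ)
    [Fact p.Prime] (hp : 2 < p) (hx : Odd x) (hn : x + 4 * p = n)
    (hq : q < 3 * p * x + 5 * p * p + p * (p - 1)) :
    ∑ I : Finset (Fin 6), (-1 : ℤ) ^ I.card *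
      hv P (sz 4 x p) (addCls (pat oddBase) oddCls I) = 0 := by
  sorry

/-! ### CHAIN : three blocks of size `p`, circulant patterns -/

/-- rotation of the six classes: `0→1→2→0`, `3→4→5→3` -/
def rho : Equiv.Perm (Fin 6) :=
  ⟨![1, 2, 0, 4, 5, 3], ![2, 0, 1, 5, 3, 4], by decide, by decide⟩

/-- (file Mod3.lean) -/
theorem sum_mod3 (f : Finset (Fin 6) → ℤ) (hrot : ∀ I, f (I.map rho.toEmbedding) = f I)
    (hsum : ∑ I, (-1 : ℤ) ^ I.card * f I = 0) (h01 : ∀ I, f I = 0 ∨ f I = 1)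
    (h1 : f {0, 1, 2} = 1) (h2 : f univ = 1) : f ∅ = f {3, 4, 5} := by
  sorry

/-- (file ChainA.lean; from `rel`, `sum_mod3`, `PV.mono`) -/
theorem chainA {n q : ℕ} {P : SimpleGraph (Fin n) → Prop} (hP : GP n q P) (p x r t : ℕ)
    [Fact p.Prime] (hx : 0 < x) (hn : 3 * p + x + r = n) (H : SimpleGraph (ZMod x))
    (hH : ∀ a b, H.Adj a b → H.Adj (a + 1) (b + 1))
    (hU : ∀ G : SimpleGraph (WC p x r),
      (∀ a b, H.Adj a b → G.Adj (Sum.inr (Sum.inl a)) (Sum.inr (Sum.inl b))) →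
      (∀ (u : Fin 3 × ZMod p) (v : ZMod x ⊕ Fin r), G.Adj (Sum.inl u) (Sum.inr v)) → PV P _ G)
    (hq : q < 3 * p * x + 3 * p * p) (hK : PV P _ (WG p x r H (CT p t true))) :
    PV P _ (WG p x r H (CT p t false)) := by
  sorry

/-- (file ChainB.lean) three disjoint copies of the circulant graph with differences `±1..±t`
embed into the join of three copies of the circulant graph with differences `±1..±(t-1)` -/
theorem chainB (p t : ℕ) [Fact p.Prime] (ht : 1 ≤ t) (htp : 2 * t < p) :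
    ∃ e : Fin 3 × ZMod p ≃ Fin 3 × ZMod p, ∀ u v, (CT p t false).Adj u v →
      (CT p (t - 1) true).Adj (e u) (e v) := by
  sorry

/-- (file Chain.lean; from `chainA`, `chainB`, `PV.mono`) -/
theorem chain {n q : ℕ} {P : SimpleGraph (Fin n) → Prop} (hP : GP n q P) (p x r : ℕ)
    [Fact p.Prime] (hp : 2 < p) (hx : 0 < x) (hn : 3 * p + x + r = n) (H : SimpleGraph (ZMod x))
    (hH : ∀ a b, H.Adj a b → H.Adj (a + 1) (b + 1))
    (hU : ∀ G : SimpleGraph (WC p x r),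
      (∀ a b, H.Adj a b → G.Adj (Sum.inr (Sum.inl a)) (Sum.inr (Sum.inl b))) →
      (∀ (u : Fin 3 × ZMod p) (v : ZMod x ⊕ Fin r), G.Adj (Sum.inl u) (Sum.inr v)) → PV P _ G)
    (hq : q < 3 * p * x + 3 * p * p) (hK : PV P _ (WG p x r H ⊤)) :
    PV P _ (WG p x r H ⊥) := by
  sorry

/-! ### FACTS : disc and codisc facts, hub facts (file Facts.lean, from `chain`) -/

theorem disc3 {n q : ℕ} {P : SimpleGraph (Fin n) → Prop} (hP : GP n q P) (hS : Star n P)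
    (p x : ℕ) [Fact p.Prime] (hp : 3 < p) (hx : 0 < x) (hn : x + 3 * p = n)
    (hq : q < 3 * p * x + 3 * p * p) :
    hv P ![x, 3 * p] (pat [(0, 0), (1, 1)]) = 0 := by
  sorry

theorem codisc3 {n q : ℕ} {P : SimpleGraph (Fin n) → Prop} (hP : GP n q P) (hS : Star n P)
    (p x : ℕ) [Fact p.Prime] (hp : 3 < p) (hx : 0 < x) (hn : x + 3 * p = n)
    (hq : q < 3 * p * x + 3 * p * p) :
    hv P ![x, 3 * p] (pat [(0, 1)]) = 1 := by
  sorry

theorem hub1 {n q : ℕ} {P : SimpleGraph (Fin n) → Prop} (hP : GP n q P) (hS : Star n P)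
    (p y r : ℕ) [Fact p.Prime] (hp : 3 < p) (hy : 0 < y) (hr : 0 < r) (hn : y + r + 3 * p = n)
    (hq : q < 3 * p * y + 3 * p * p)
    (h : hv P ![y, r + 3 * p] (pat [(0, 0), (1, 1)]) = 1) :
    hv P ![y, r, 3 * p] (pat [(0, 0), (1, 1), (1, 2)]) = 1 := by
  sorry

theorem hub2 {n q : ℕ} {P : SimpleGraph (Fin n) → Prop} (hP : GP n q P) (hS : Star n P)
    (p y r : ℕ) [Fact p.Prime] (hp : 3 < p) (hy : 0 < y) (hr : 0 < r) (hn : 2 * y + r + 3 * p = n)
    (hq : q < 3 * p * (2 * y) + 3 * p * p)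
    (h : hv P ![y, y, r + 3 * p] (pat [(0, 0), (1, 1), (2, 2)]) = 1) :
    hv P ![y, y, r, 3 * p] (pat [(0, 0), (1, 1), (2, 2), (2, 3)]) = 1 := by
  sorry

/-! ### NT : primes (file NT.lean) -/

theorem prime_between (δ : ℝ) (hδ : 0 < δ) :
    ∃ N : ℕ, ∀ x : ℝ, (N : ℝ) ≤ x → ∃ p : ℕ, p.Prime ∧ x < p ∧ (p : ℝ) < (1 + δ) * x := by
  sorry

end Pool.Agent.H119R2.Kp
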