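import Mathlib
import Pool.Agent.H119R2.Kp.Blueprint
import Pool.Agent.H119R2.Kp.Defs2

set_option autoImplicit false

/-! STUBS, part 2 (never import this file in a finished file; import the finished files). -/

namespace Pool.Agent.H119R2.Kp

open Finset
open Pool.Agent.H98R2.Ev (EV toG NE)

/-! ### ALT : alternating sums (file Alt.lean; from `relId`) -/

/-- Boolean sum over the subsets of `Fin m` as an iterated alternating sum -/
theorem alt_sum (f : ℕ → ℤ) {m : ℕ} (w : Fin m → ℕ) (g : ℕ) :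
    ∑ I : Finset (Fin m), (-1 : ℤ) ^ I.card * f (g + ∑ i ∈ I, w i) = alt f (List.ofFn w) g := by
  sorry

/-- drop the pair `(0,1)`: nine pairs of total weight `3 X p + 6 p^2` -/
theorem fM_rel0 {n q : ℕ} {P : SimpleGraph (Fin n) → Prop} (hP : GP n q P) (X p : ℕ)
    [Fact p.Prime] (hX : 0 < X) (hn : X + 4 * p = n) (hq : q < 3 * X * p + 6 * p * p) :
    ∀ b, b < 2 → alt (fM P X p) [2, 4, 8, 16, 32, 64, 128, 256, 512] b = 0 := by
  sorry

/-- drop the pair `(3,4)`: nine pairs of total weight `4 X p + 5 p^2` -/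
theorem fM_rel9 {n q : ℕ} {P : SimpleGraph (Fin n) → Prop} (hP : GP n q P) (X p : ℕ)
    [Fact p.Prime] (hX : 0 < X) (hn : X + 4 * p = n) (hq : q < 4 * X * p + 5 * p * p) :
    ∀ b, b < 2 → alt (fM P X p) [1, 2, 4, 8, 16, 32, 64, 128, 256] (512 * b) = 0 := by
  sorry

/-- four parts of sizes `X + p, p, p, p`: six pairs of total weight `3 (X + p) p + 3 p^2` -/
theorem fM_relM {n q : ℕ} {P : SimpleGraph (Fin n) → Prop} (hP : GP n q P) (X p : ℕ)
    [Fact p.Prime] (hX : 0 < X) (hn : X + 4 * p = n) (hq : q < 3 * X * p + 6 * p * p) :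
    alt (fM P X p) [18, 36, 72, 128, 256, 512] 1 = 0 := by
  sorry

/-! ### FDE : facts from `emb`, `disc3`, `codisc3`, `hv_univ`, `hub1` (file FDE.lean) -/

theorem fM_mono {n q : ℕ} {P : SimpleGraph (Fin n) → Prop} (hP : GP n q P) (X p : ℕ)
    (g g' : ℕ) (h : ∀ a b, pM g a b = true → pM g' a b = true) : fM P X p g ≤ fM P X p g' := by
  sorry

theorem fM_perm {n q : ℕ} {P : SimpleGraph (Fin n) → Prop} (hP : GP n q P) (X p : ℕ)
    (σ : Equiv.Perm (Fin 5)) (hσ : σ 0 = 0) (g g' : ℕ)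
    (h : ∀ a b, pM g' (σ a) (σ b) = pM g a b) : fM P X p g = fM P X p g' := by
  sorry

theorem fM_swap {n q : ℕ} {P : SimpleGraph (Fin n) → Prop} (hP : GP n q P) (X p : ℕ)
    (hXp : X ≤ p) (g g' : ℕ) (h : ∀ i j a b, pM g i j = true → sw i a = true → sw j b = true →
    pM g' a b = true) : fM P X p g ≤ fM P X p g' := by
  sorry

theorem fM_zero {n q : ℕ} {P : SimpleGraph (Fin n) → Prop} (hP : GP n q P) (hS : Star n P)
    (X p : ℕ) [Fact p.Prime] (hp : 3 < p) (hX : 0 < X) (hn : X + 4 * p = n)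
    (hq : q < 3 * X * p + 6 * p * p) (g : ℕ) (i : Fin 5) (hi : i ≠ 0)
    (h : ∀ a b, (a = 0 ∨ a = i) → ¬(b = 0 ∨ b = i) → pM g a b = false) : fM P X p g = 0 := by
  sorry

theorem fM_one {n q : ℕ} {P : SimpleGraph (Fin n) → Prop} (hP : GP n q P) (hS : Star n P)
    (X p : ℕ) [Fact p.Prime] (hp : 3 < p) (hX : 0 < X) (hn : X + 4 * p = n)
    (hq : q < 3 * X * p + 6 * p * p) (g : ℕ) (i : Fin 5) (hi : i ≠ 0)
    (h : ∀ a b, (a = 0 ∨ a = i) → ¬(b = 0 ∨ b = i) → pM g a b = true) : fM P X p g = 1 := by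
  sorry

theorem fM_univ {n q : ℕ} {P : SimpleGraph (Fin n) → Prop} (hP : GP n q P) (hS : Star n P)
    (X p : ℕ) (hp : 0 < p) (hX : 0 < X) (hn : X + 4 * p = n) (g : ℕ) (a : Fin 5)
    (h : ∀ b, pM g a b = true) : fM P X p g = 1 := by
  sorry

/-- `910` is the mask of `K_p` (part `1`) plus a clique on the other parts -/
theorem fM_hub {n q : ℕ} {P : SimpleGraph (Fin n) → Prop} (hP : GP n q P) (hS : Star n P)
    (X p : ℕ) (hX : 0 < X) (hXp : X < p) (hn : X + 4 * p = n)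
    (z r : ℕ) [Fact z.Prime] (hz : 3 < z) (hr : 0 < r) (hrX : r ≤ X) (hz' : p + r + 3 * z = n)
    (hq : q < 3 * z * p + 3 * z * z) (g : ℕ) (j i : Fin 5) (hij : j ≠ i)
    (h : ∀ a, a ≠ i → pM g j a = true)
    (h' : i ≠ 0 ∨ ∃ b, b ≠ j ∧ b ≠ 0 ∧ pM g 0 b = true) : fM P X p 910 ≤ fM P X p g := by
  sorry

/-! ### CERT : the finite computation (file Cert.lean) -/

theorem cert (f : ℕ → ℤ) (h : FD f) : f 19 = 1 := by
  sorry

/-! ### EV, OD : contradictions (files Even.lean, Odd.lean) -/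

/-- `19` is the mask of a clique on parts `0, 1, 2` plus two disjoint cliques `3, 4` -/
theorem even_contra {n q : ℕ} {P : SimpleGraph (Fin n) → Prop} (hP : GP n q P) (hS : Star n P)
    (X p : ℕ) [Fact p.Prime] (hp : 3 < p) (hX : 0 < X) (hY : Odd (X + p)) (hn : X + 4 * p = n)
    (hq : q + p < 3 * X * p + 6 * p * p) (he : fM P X p 19 = 1) : False := by
  sorry

theorem odd_contra {n q : ℕ} {P : SimpleGraph (Fin n) → Prop} (hP : GP n q P) (hS : Star n P)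
    (X p : ℕ) [Fact p.Prime] (hp : 3 < p) (hX : Odd X) (hXp : X < p) (hn : X + 4 * p = n)
    (hq : q + p < 3 * X * p + 6 * p * p)
    (z r : ℕ) [Fact z.Prime] (hz : 3 < z) (hr : 0 < r) (hrX : r ≤ X) (hz' : 2 * p + r + 3 * z = n)
    (hq' : q < 3 * z * (2 * p) + 3 * z * z) (he : fM P X p 19 = 1) : False := by
  sorry

/-! ### CORE : assembly (file Core.lean) -/

theorem core {n q : ℕ} {P : SimpleGraph (Fin n) → Prop} (hP : GP n q P) (hS : Star n P)
    (X p : ℕ) [Fact p.Prime] (hp : 3 < p) (hX : 0 < X) (hXp : X < p) (hn : X + 4 * p = n)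
    (hq : q + p < 3 * X * p + 6 * p * p) (hq9 : q < 4 * X * p + 5 * p * p)
    (z1 r1 : ℕ) [Fact z1.Prime] (hz1 : 3 < z1) (hr1 : 0 < r1) (hrX1 : r1 ≤ X)
    (hz1' : p + r1 + 3 * z1 = n) (hq1 : q < 3 * z1 * p + 3 * z1 * z1)
    (z2 r2 : ℕ) [Fact z2.Prime] (hz2 : 3 < z2) (hr2 : 0 < r2) (hrX2 : r2 ≤ X)
    (hz2' : 2 * p + r2 + 3 * z2 = n) (hq2 : q < 3 * z2 * (2 * p) + 3 * z2 * z2) : False := by
  sorry

/-! ### FIN : the theorem (file Final.lean; from `core`, `kss`, `prime_base`, `prime_between`,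
`dec_of_strategy`) -/

theorem final : ∀ ε : ℝ, 0 < ε → ∃ N : ℕ, ∀ n : ℕ, N ≤ n →
    ∀ P : SimpleGraph (Fin n) → Prop,
      (∀ (σ : Fin n ≃ Fin n) (G : SimpleGraph (Fin n)), P G → P (G.map σ.toEmbedding)) →
      (∀ G H : SimpleGraph (Fin n), G ≤ H → P G → P H) →
      (∃ G, P G) → (∃ G, ¬ P G) →
      ∀ s : Finset (Sym2 (Fin n)) → SimpleGraph (Fin n) → Sym2 (Fin n),
      (∀ (Q : Finset (Sym2 (Fin n))) (G H : SimpleGraph (Fin n)),
        (∀ e ∈ Q, (e ∈ G.edgeSet ↔ e ∈ H.edgeSet)) → s Q G = s Q H) →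
      ∀ q : ℕ, (q : ℝ) < (9 / 25 - ε) * (n : ℝ) ^ 2 →
        ∃ G H : SimpleGraph (Fin n),
          (∀ e ∈ (fun Q : Finset (Sym2 (Fin n)) => insert (s Q G) Q)^[q]
            (∅ : Finset (Sym2 (Fin n))), (e ∈ G.edgeSet ↔ e ∈ H.edgeSet)) ∧ P G ∧ ¬ P H := by
  sorry

end Pool.Agent.H119R2.Kp
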