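import Mathlib

set_option autoImplicit false

/-!
MP_257582_lc: the finite integer programming certificate.  (Generated by a program; the branch and
bound tree has 11 leaves, each is closed by `linarith`.)
-/

namespace Pool.Agent.H119R2.Kp

/-- the implications between the classes used in the certificate -/
def impL : List (ℕ × ℕ) :=
  [(0, 2), (0, 6), (1, 5), (1, 7), (1, 8), (2, 3), (2, 4), (2, 26), (3, 5), (3, 10), (3, 20),
   (3, 28), (4, 9), (4, 27), (5, 10), (5, 12), (5, 15), (5, 20), (5, 29), (6, 7), (6, 14), (6,
   26), (7, 15), (7, 16), (7, 29), (7, 31), (8, 10), (8, 12), (8, 13), (8, 20), (8, 31), (9, 11),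
   (9, 14), (10, 12), (10, 15), (10, 21), (10, 35), (11, 12), (11, 21), (12, 21), (12, 22), (12,
   36), (13, 15), (13, 18), (13, 23), (13, 34), (14, 15), (14, 16), (14, 19), (14, 23), (14, 33),
   (15, 24), (15, 32), (15, 38), (15, 40), (16, 24), (16, 38), (16, 45), (17, 18), (17, 39), (18,
   19), (18, 40), (18, 42), (19, 41), (19, 43), (20, 21), (20, 22), (20, 23), (20, 40), (21, 22),
   (21, 24), (21, 41), (22, 1), (22, 5), (22, 7), (22, 8), (22, 10), (22, 12), (22, 13), (22,
   20), (22, 21), (23, 24), (23, 42), (24, 50), (25, 26), (25, 30), (26, 27), (26, 28), (26, 31),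
   (26, 33), (27, 29), (27, 32), (27, 34), (27, 37), (28, 29), (29, 35), (30, 31), (30, 33), (30,
   39), (30, 44), (31, 32), (31, 34), (31, 35), (31, 40), (31, 45), (32, 36), (32, 47), (33, 34),
   (33, 35), (33, 37), (33, 40), (33, 42), (33, 45), (34, 36), (34, 38), (34, 43), (34, 46), (35,
   36), (35, 38), (36, 41), (36, 48), (37, 38), (37, 43), (38, 47), (39, 40), (39, 42), (39, 49),
   (40, 41), (40, 43), (40, 50), (42, 43), (42, 50), (43, 51), (44, 45), (44, 49), (45, 46), (45,
   47), (45, 50), (46, 48), (46, 51), (47, 48), (49, 50), (49, 52), (50, 51)]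

theorem leaf_cert (V : ℕ → ℤ) (h01 : ∀ k, V k = 0 ∨ V k = 1) (h53 : V 53 = 0) (h54 : V 54 = 1)
    (hI : ∀ t ∈ impL, V t.1 ≤ V t.2)
    (R0 : 3 * V 0 + (-1) * V 1 + 9 * V 2 + (-3) * V 3 + (-12) * V 4 + 3 * V 5 + (-3) * V 6 + 3
      * V 7 + (-9) * V 8 + (-18) * V 9 + 12 * V 10 + 6 * V 11 + (-3) * V 12 + 6 * V 13 + 12 * V
      14 + (-6) * V 15 + (-3) * V 16 + (-4) * V 17 + 9 * V 18 + (-6) * V 19 + 9 * V 20 + (-6) *
      V 21 + 1 * V 22 + (-6) * V 23 + 3 * V 24 + 3 * V 25 + (-9) * V 26 + 6 * V 27 + 3 * V 28 +
      (-3) * V 29 + (-12) * V 30 + 18 * V 31 + (-6) * V 32 + 18 * V 33 + (-12) * V 34 + (-12) *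
      V 35 + 6 * V 36 + (-6) * V 37 + 6 * V 38 + 12 * V 39 + (-18) * V 40 + 6 * V 41 + (-9) * V
      42 + 12 * V 43 + 3 * V 44 + (-9) * V 45 + 3 * V 46 + 6 * V 47 + (-3) * V 48 + (-6) * V 49
      + 9 * V 50 + (-3) * V 51 + 1 * V 52 + (-3) = 0)
    (R1 : (-3) * V 0 + 3 * V 1 + (-3) * V 2 + 3 * V 3 + 12 * V 4 + (-9) * V 5 + 3 * V 6 + (-9)
      * V 7 + 3 * V 8 + 6 * V 9 + (-12) * V 10 + (-6) * V 11 + 9 * V 12 + (-6) * V 13 + (-12) *
      V 14 + 18 * V 15 + 9 * V 16 + (-3) * V 18 + 6 * V 19 + (-3) * V 20 + 6 * V 21 + (-3) * V
      22 + 6 * V 23 + (-9) * V 24 + 3 * V 26 + (-6) * V 27 + (-3) * V 28 + 9 * V 29 + (-6) * V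
      31 + 6 * V 32 + (-6) * V 33 + 12 * V 34 + 12 * V 35 + (-18) * V 36 + 6 * V 37 + (-18) * V
      38 + 6 * V 40 + (-6) * V 41 + 3 * V 42 + (-12) * V 43 + 3 * V 45 + (-3) * V 46 + (-6) * V
      47 + 9 * V 48 + (-3) * V 50 + 3 * V 51 + (9) = 0)
    (R2 : 6 * V 0 + (-4) * V 1 + 10 * V 2 + (-5) * V 3 + (-20) * V 4 + 10 * V 5 + (-5) * V 6 +
      10 * V 7 + (-8) * V 8 + (-16) * V 9 + 16 * V 10 + 8 * V 11 + (-8) * V 12 + 8 * V 13 + 16 *
      V 14 + (-16) * V 15 + (-8) * V 16 + (-2) * V 17 + 6 * V 18 + (-6) * V 19 + 6 * V 20 + (-6)
      * V 21 + 2 * V 22 + (-6) * V 23 + 6 * V 24 + 2 * V 25 + (-8) * V 26 + 8 * V 27 + 4 * V 28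
      + (-8) * V 29 + (-6) * V 30 + 12 * V 31 + (-6) * V 32 + 12 * V 33 + (-12) * V 34 + (-12) *
      V 35 + 12 * V 36 + (-6) * V 37 + 12 * V 38 + 4 * V 39 + (-8) * V 40 + 4 * V 41 + (-4) * V
      42 + 8 * V 43 + 1 * V 44 + (-4) * V 45 + 2 * V 46 + 4 * V 47 + (-4) * V 48 + (-1) * V 49 +
      2 * V 50 + (-1) * V 51 + (-3) = 0)
    (R3 : (-2) * V 2 + 1 * V 3 + 4 * V 4 + (-2) * V 5 + 1 * V 6 + (-2) * V 7 + 4 * V 8 + 8 * V
      9 + (-8) * V 10 + (-4) * V 11 + 4 * V 12 + (-4) * V 13 + (-8) * V 14 + 8 * V 15 + 4 * V 16
      + 2 * V 17 + (-6) * V 18 + 6 * V 19 + (-6) * V 20 + 6 * V 21 + (-2) * V 22 + 6 * V 23 +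
      (-6) * V 24 + (-1) * V 25 + 4 * V 26 + (-4) * V 27 + (-2) * V 28 + 4 * V 29 + 6 * V 30 +
      (-12) * V 31 + 6 * V 32 + (-12) * V 33 + 12 * V 34 + 12 * V 35 + (-12) * V 36 + 6 * V 37 +
      (-12) * V 38 + (-8) * V 39 + 16 * V 40 + (-8) * V 41 + 8 * V 42 + (-16) * V 43 + (-2) * V
      44 + 8 * V 45 + (-4) * V 46 + (-8) * V 47 + 8 * V 48 + 5 * V 49 + (-10) * V 50 + 5 * V 51
      + (-1) * V 52 + (9) = 0)
    (R4 : (-3) * V 3 + 6 * V 10 + 3 * V 12 + (-3) * V 22 + 3 * V 28 + (-6) * V 35 + (-6) * V
      36 + 3 * V 48 + (3) = 0) : V 3 = 1 := by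
  have lo : ∀ k, 0 ≤ V k := fun k => by rcases h01 k with h | h <;> rw [h] <;> norm_num
  have hi : ∀ k, V k ≤ 1 := fun k => by rcases h01 k with h | h <;> rw [h] <;> norm_num
  have i : ∀ a b, (a, b) ∈ impL → V a ≤ V b := fun a b h => hI (a, b) h
  rcases h01 3 with hE | hE
  swap
  · exact hE
  exfalso
  rcases h01 9 with h9 | h9
  · rcases h01 14 with h14 | h14
    · rcases h01 11 with h11 | h11
      · rcases h01 7 with h7 | h7
        · rcases h01 29 with h29 | h29
          · rcases h01 33 with h33 | h33
            · rcases h01 13 with h13 | h13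
              · rcases h01 16 with h16 | h16
                · rcases h01 32 with h32 | h32
                  · rcases h01 35 with h35 | h35
                    · linarith only [(hi 50), (hi 52), (i 0 2 (by decide)), (i 0 6 (by
                        decide)), (i 1 5 (by decide)), (i 12 22 (by decide)), (i 13 18 (by
                        decide)), (i 14 23 (by decide)), (i 14 33 (by decide)), (i 15 32 (by
                        decide)), (i 19 43 (by decide)), (i 21 22 (by decide)), (i 22 1 (by
                        decide)), (i 23 24 (by decide)), (i 26 27 (by decide)), (i 26 28 (by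
                        decide)), (i 27 37 (by decide)), (i 34 38 (by decide)), (i 34 46 (by
                        decide)), (i 36 41 (by decide)), (i 36 48 (by decide)), (i 37 38 (by
                        decide)), (i 38 47 (by decide)), (i 39 49 (by decide)), (i 4 9 (by
                        decide)), (i 44 45 (by decide)), (i 45 47 (by decide)), (i 5 10 (by
                        decide)), (i 5 20 (by decide)), (i 6 14 (by decide)), (i 6 26 (by
                        decide)), (i 6 7 (by decide)), (i 7 31 (by decide)), (i 8 12 (by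
                        decide)), (i 9 11 (by decide)), (lo 0), (lo 25), (lo 8), R0, R1, R2,
                        R4, h13, h16, h29, h32, h35, h9, hE]
                    · linarith only [(hi 43), (hi 48), (hi 50), (hi 51), (hi 52), (i 0 2
                        (by decide)), (i 0 6 (by decide)), (i 1 5 (by decide)), (i 1 7 (by
                        decide)), (i 1 8 (by decide)), (i 10 12 (by decide)), (i 12 21 (by
                        decide)), (i 15 32 (by decide)), (i 16 24 (by decide)), (i 16 45 (by
                        decide)), (i 18 40 (by decide)), (i 18 42 (by decide)), (i 19 43 (by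
                        decide)), (i 2 26 (by decide)), (i 2 3 (by decide)), (i 20 22 (by
                        decide)), (i 21 22 (by decide)), (i 22 1 (by decide)), (i 23 24 (by
                        decide)), (i 25 30 (by decide)), (i 26 27 (by decide)), (i 28 29 (by
                        decide)), (i 31 32 (by decide)), (i 34 43 (by decide)), (i 34 46 (by
                        decide)), (i 35 36 (by decide)), (i 35 38 (by decide)), (i 36 41 (by
                        decide)), (i 37 38 (by decide)), (i 38 47 (by decide)), (i 39 40 (by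
                        decide)), (i 39 49 (by decide)), (i 4 9 (by decide)), (i 44 45 (by
                        decide)), (i 6 14 (by decide)), (i 8 13 (by decide)), (lo 0), (lo 17),
                        (lo 25), R0, R1, R3, R4, h11, h16, h29, h32, h33, h35]
                  · linarith only [(hi 48), (hi 51), (hi 52), (i 1 5 (by decide)), (i 1 7
                      (by decide)), (i 1 8 (by decide)), (i 10 12 (by decide)), (i 12 22 (by
                      decide)), (i 15 24 (by decide)), (i 15 38 (by decide)), (i 18 40 (by
                      decide)), (i 18 42 (by decide)), (i 19 43 (by decide)), (i 2 3 (by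
                      decide)), (i 20 22 (by decide)), (i 21 22 (by decide)), (i 22 1 (by
                      decide)), (i 23 24 (by decide)), (i 25 26 (by decide)), (i 25 30 (by
                      decide)), (i 26 27 (by decide)), (i 28 29 (by decide)), (i 30 31 (by
                      decide)), (i 31 35 (by decide)), (i 32 36 (by decide)), (i 32 47 (by
                      decide)), (i 34 38 (by decide)), (i 34 46 (by decide)), (i 36 41 (by
                      decide)), (i 37 38 (by decide)), (i 37 43 (by decide)), (i 39 40 (by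
                      decide)), (i 39 49 (by decide)), (i 4 9 (by decide)), (i 40 43 (by
                      decide)), (i 44 45 (by decide)), (i 45 46 (by decide)), (i 6 14 (by
                      decide)), (i 8 13 (by decide)), (i 9 11 (by decide)), (lo 0), (lo 17),
                      (lo 25), (lo 6), R0, R2, R3, R4, h16, h29, h32, h33, h9, hE]
                · linarith only [(hi 48), (hi 51), (i 0 2 (by decide)), (i 0 6 (by
                    decide)), (i 1 7 (by decide)), (i 1 8 (by decide)), (i 10 12 (by decide)),
                    (i 11 12 (by decide)), (i 12 22 (by decide)), (i 16 24 (by decide)), (i 16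
                    38 (by decide)), (i 16 45 (by decide)), (i 18 19 (by decide)), (i 19 41
                    (by decide)), (i 2 4 (by decide)), (i 20 22 (by decide)), (i 22 1 (by
                    decide)), (i 24 50 (by decide)), (i 25 26 (by decide)), (i 25 30 (by
                    decide)), (i 27 29 (by decide)), (i 28 29 (by decide)), (i 31 32 (by
                    decide)), (i 31 40 (by decide)), (i 32 36 (by decide)), (i 35 36 (by
                    decide)), (i 38 47 (by decide)), (i 39 40 (by decide)), (i 40 43 (by
                    decide)), (i 44 45 (by decide)), (i 44 49 (by decide)), (i 45 46 (by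
                    decide)), (i 49 52 (by decide)), (i 5 12 (by decide)), (lo 17), (lo 25),
                    (lo 6), R0, R1, R3, R4, h13, h14, h16, h29, h33, h7, h9, hE]
              · linarith only [(hi 47), (hi 48), (hi 51), (i 0 2 (by decide)), (i 0 6 (by
                  decide)), (i 1 7 (by decide)), (i 1 8 (by decide)), (i 10 12 (by decide)),
                  (i 11 21 (by decide)), (i 12 21 (by decide)), (i 13 15 (by decide)), (i 13
                  23 (by decide)), (i 13 34 (by decide)), (i 15 24 (by decide)), (i 15 32 (by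
                  decide)), (i 18 19 (by decide)), (i 19 41 (by decide)), (i 19 43 (by
                  decide)), (i 2 26 (by decide)), (i 2 4 (by decide)), (i 20 22 (by decide)),
                  (i 21 22 (by decide)), (i 22 1 (by decide)), (i 23 42 (by decide)), (i 24 50
                  (by decide)), (i 25 30 (by decide)), (i 27 29 (by decide)), (i 27 37 (by
                  decide)), (i 28 29 (by decide)), (i 31 35 (by decide)), (i 31 45 (by
                  decide)), (i 34 46 (by decide)), (i 38 47 (by decide)), (i 39 40 (by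
                  decide)), (i 39 42 (by decide)), (i 4 9 (by decide)), (i 44 45 (by decide)),
                  (i 49 50 (by decide)), (i 49 52 (by decide)), (i 5 12 (by decide)), (i 7 16
                  (by decide)), (lo 0), (lo 17), (lo 25), R0, R1, R2, R4, h13, h14, h29, h33,
                  h7, hE]
            · linarith only [(hi 48), (i 1 7 (by decide)), (i 10 21 (by decide)), (i 12 21
                (by decide)), (i 21 22 (by decide)), (i 22 1 (by decide)), (i 28 29 (by
                decide)), (i 33 35 (by decide)), (i 35 36 (by decide)), R4, h29, h33, h7, hE]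
          · linarith only [(hi 48), (i 1 7 (by decide)), (i 10 12 (by decide)), (i 12 22
              (by decide)), (i 22 1 (by decide)), (i 28 29 (by decide)), (i 29 35 (by
              decide)), (i 35 36 (by decide)), R4, h29, h7, hE]
        · linarith only [(hi 41), (hi 47), (hi 51), (hi 52), (i 0 2 (by decide)), (i 0 6
            (by decide)), (i 10 21 (by decide)), (i 13 18 (by decide)), (i 13 23 (by decide)),
            (i 17 18 (by decide)), (i 17 39 (by decide)), (i 18 19 (by decide)), (i 20 21 (by
            decide)), (i 20 23 (by decide)), (i 21 22 (by decide)), (i 22 1 (by decide)), (i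
            22 12 (by decide)), (i 24 50 (by decide)), (i 27 37 (by decide)), (i 28 29 (by
            decide)), (i 30 39 (by decide)), (i 30 44 (by decide)), (i 31 32 (by decide)), (i
            31 34 (by decide)), (i 31 35 (by decide)), (i 31 40 (by decide)), (i 31 45 (by
            decide)), (i 33 37 (by decide)), (i 33 42 (by decide)), (i 36 41 (by decide)), (i
            38 47 (by decide)), (i 39 42 (by decide)), (i 43 51 (by decide)), (i 46 51 (by
            decide)), (i 47 48 (by decide)), (i 5 20 (by decide)), (i 50 51 (by decide)), (i 7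
            15 (by decide)), (i 7 16 (by decide)), (i 7 29 (by decide)), (i 7 31 (by decide)),
            (lo 0), (lo 25), (lo 4), R0, R2, R3, R4, h11, h14, h7, hE]
      · linarith only [(hi 15), (hi 19), (hi 34), (hi 40), (hi 42), (hi 46), (hi 48), (hi
          52), (i 0 2 (by decide)), (i 1 5 (by decide)), (i 1 7 (by decide)), (i 11 21 (by
          decide)), (i 12 21 (by decide)), (i 13 18 (by decide)), (i 16 45 (by decide)), (i 17
          39 (by decide)), (i 21 22 (by decide)), (i 22 1 (by decide)), (i 22 13 (by decide)),
          (i 23 24 (by decide)), (i 23 42 (by decide)), (i 25 26 (by decide)), (i 26 27 (by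
          decide)), (i 26 28 (by decide)), (i 26 33 (by decide)), (i 29 35 (by decide)), (i 30
          33 (by decide)), (i 30 39 (by decide)), (i 30 44 (by decide)), (i 32 36 (by
          decide)), (i 35 36 (by decide)), (i 37 38 (by decide)), (i 4 9 (by decide)), (i 45
          46 (by decide)), (i 5 10 (by decide)), (i 5 20 (by decide)), (i 50 51 (by decide)),
          (i 6 14 (by decide)), (i 7 31 (by decide)), (i 8 13 (by decide)), (i 9 14 (by
          decide)), (lo 0), (lo 25), R0, R1, R3, R4, h11, h14, hE]
    · linarith only [(hi 24), (hi 38), (hi 41), (hi 43), (hi 46), (hi 48), (hi 50), (hi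
        52), (i 0 2 (by decide)), (i 1 5 (by decide)), (i 1 7 (by decide)), (i 10 21 (by
        decide)), (i 12 22 (by decide)), (i 13 18 (by decide)), (i 14 16 (by decide)), (i 14
        19 (by decide)), (i 14 23 (by decide)), (i 14 33 (by decide)), (i 15 32 (by decide)),
        (i 16 45 (by decide)), (i 17 18 (by decide)), (i 2 3 (by decide)), (i 20 21 (by
        decide)), (i 21 22 (by decide)), (i 22 1 (by decide)), (i 22 13 (by decide)), (i 23 42
        (by decide)), (i 26 27 (by decide)), (i 26 31 (by decide)), (i 28 29 (by decide)), (i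
        29 35 (by decide)), (i 30 31 (by decide)), (i 30 39 (by decide)), (i 30 44 (by
        decide)), (i 33 34 (by decide)), (i 33 35 (by decide)), (i 33 37 (by decide)), (i 33
        40 (by decide)), (i 35 36 (by decide)), (i 4 9 (by decide)), (i 44 49 (by decide)), (i
        47 48 (by decide)), (i 50 51 (by decide)), (i 6 7 (by decide)), (i 8 20 (by decide)),
        (lo 0), (lo 11), (lo 25), R0, R1, R2, R4, h14, h9]
  · linarith only [(hi 16), (hi 40), (hi 42), (hi 48), (hi 51), (i 0 2 (by decide)), (i 1
      5 (by decide)), (i 1 7 (by decide)), (i 1 8 (by decide)), (i 10 15 (by decide)), (i 11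
      21 (by decide)), (i 12 21 (by decide)), (i 13 18 (by decide)), (i 14 33 (by decide)), (i
      15 24 (by decide)), (i 15 38 (by decide)), (i 19 41 (by decide)), (i 19 43 (by decide)),
      (i 2 3 (by decide)), (i 21 22 (by decide)), (i 22 1 (by decide)), (i 22 13 (by decide)),
      (i 23 42 (by decide)), (i 25 30 (by decide)), (i 26 27 (by decide)), (i 26 28 (by
      decide)), (i 29 35 (by decide)), (i 32 36 (by decide)), (i 34 43 (by decide)), (i 34 46
      (by decide)), (i 35 36 (by decide)), (i 37 43 (by decide)), (i 38 47 (by decide)), (i 4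
      27 (by decide)), (i 40 41 (by decide)), (i 40 50 (by decide)), (i 45 50 (by decide)), (i
      49 50 (by decide)), (i 49 52 (by decide)), (i 5 10 (by decide)), (i 6 26 (by decide)),
      (i 7 31 (by decide)), (i 8 20 (by decide)), (i 9 11 (by decide)), (i 9 14 (by decide)),
      (lo 17), (lo 30), R0, R1, R2, R4, h9, hE]

end Pool.Agent.H119R2.Kp
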