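import Mathlib
import Pool.Agent.H119R2.Kp.Defs2
import Pool.Agent.H119R2.Kp.Leaf

set_option autoImplicit false

/-!
MP_257582_lc: from the facts `FD` about the masks to the integer program of `Leaf.lean`.  The
tables are checked by the kernel.
-/

namespace Pool.Agent.H119R2.Kp

open Finset

/-- class table, 6 bits per mask -/
def cT : ℕ :=
  2892987584694733815849529241801882650117226323945327441170588799909695567024063999202836547213106293956425377861349666953719086804413999359539312714916759411954206184296300244000181028516093925056549830268308504347335382950780734082915616511132601467836005469918949395713371765077924985934863145349339934322801920991733251869177080193206790275762931506434586814454748231385301602128574521532678896656795138572520600829696584481772486010367665791777210321539531427158965518839943851591186519169198347452108636523869899476505524474366424243850263354499398575364288406521631398768780919282991694153004237340764134256792419833701049579893657765237771813926033099704941558098862896788183887631783979075670786726449729833224820846105576357298660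1495620043304067634699598878324557695097891943707931549201184925988000766913694449759437617326372056359127425018014487247350944626349909888276471065681549499996787673306761793136777616923354996236760904802493780467753703462465367809285550096616313525183537953682213914558843304451817865626173024477167551256135505108562228787855754064148742227251423586018588227298048505559248749397808491537709305154768933197121135687680730819352753089234603630399745765711696192481237587179137546054513752792412926052563039039272480417088643624657046013011000672932884028326228388513737222519061006133781839051658917353383628626517154461405618662584098891141759497435742649122118861669365054992716548483297256037303709990241240817194735523396211902500295779910954159898111773785936370382284508843389914805782658253191158277646551282331531258445005678120415839197086741188918809927617385552698809800266294093237306735037050249880161391698276170790570978863738984835487380558564083506599934387904626563866047631392472194641872035279729915796160775432876761044012079761387067843210705745134224067727605599693436399642333417790837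

/-- permutation table, 5 bits per mask -/
def sT : ℕ :=
  70313522450244091006067167438554739527617480895887367441070998147655145103249425768214591462078952699895410865900065425604204328732324758219977183438235131720028731179882012654618868701775232966778672930845365536339459067735604874965243999921106078932696377420527863379534054087143280800232058392901643068127498759238954858838524484812610296091077559639873930245671439764329386546232657897162567820645907872492782292718246134362437506354301021856623036454563203224098006576649095898485998541884224428262853896813964441448914916552953816454601504170017919913762182484964477743739821524820844861380424588446155473500661564592724401706098388959806828610173282884728249423836092789808770815178923652148710535681974368557458998256986938140477307874958080067048410647601428649020435805351894736394700235465915691230939916536055518960535850057519954468750461296233898300300316683511976178458185943534582734137155655198543871318895679063370603758302231797875074507889857540940495702121030574822102576953287611059436018981177184375747569004960388013663499930679232232196447968563998856402663392772231592998730482912352249341102767395793108712065492449327466678505369195234311075994507618765582819045258623983172849289191122947870438904462371405534181145653743549953156778168803810604122536458901221940933829709810343254430775611361161384697686523398140288128684026969232113769433919492248556496396415512893317306031716453978256419978365920058938320910814221628784907066876558795207899418330013824825430114304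

/-- representatives of the classes, 10 bits each -/
def rT : ℕ :=
  3461562450595304301499056595501372207768949121126775725960614351377843412782518390069904228122844442942471584301218101471428666189337525300989591312269707320323

/-- the 24 permutations of the blocks, 3 bits per value -/
def pT : ℕ :=
  383033797031452859268144278513189284950510095162055940621756886638472677198715673688934504174937294953006728

/-- class of a mask (`53`: value `0`, `54`: value `1`) -/
def cl (g : ℕ) : ℕ := (cT >>> (6 * (g % 1024))) % 64

/-- index of a permutation which maps the mask to the representative of its class -/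
def si (g : ℕ) : ℕ := (sT >>> (5 * (g % 1024))) % 32

/-- representative of a class -/
def rp (k : ℕ) : ℕ := (rT >>> (10 * k)) % 1024

/-- the permutation with a given index -/
def pf (k : ℕ) (a : Fin 5) : Fin 5 :=
  ⟨(pT >>> (3 * (5 * k + a.val))) % 8 % 5, Nat.mod_lt _ (by norm_num)⟩

def zb (g : ℕ) : Bool :=
  decide (∃ i : Fin 5, i ≠ 0 ∧ ∀ a b, (a = 0 ∨ a = i) → ¬(b = 0 ∨ b = i) → pM g a b = false)

def ob (g : ℕ) : Bool :=
  decide (∃ i : Fin 5, i ≠ 0 ∧ ∀ a b, (a = 0 ∨ a = i) → ¬(b = 0 ∨ b = i) → pM g a b = true)

def ub (g : ℕ) : Bool := decide (∃ a : Fin 5, ∀ b, pM g a b = true)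

def chk (g : ℕ) : Bool :=
  (cl g == 53 && zb g) || (cl g == 54 && (ob g || ub g)) ||
    (decide (cl g < 53) && decide (si g < 24) &&
      decide (∀ a b, pM (rp (cl g)) (pf (si g) a) (pf (si g) b) = pM g a b))

theorem chk_all : ∀ g, g < 1024 → chk g = true := by decide +kernel

theorem pf_ok : ∀ k, k < 24 → pf k 0 = 0 ∧ ∀ a b, pf k a = pf k b → a = b := by decide +kernel

theorem ix_lt : ∀ a b, ix a b < 10 := by decide

/-- value of a class -/
def VV (f : ℕ → ℤ) (k : ℕ) : ℤ := if k = 53 then 0 else if k = 54 then 1 else f (rp k)

theorem pM_mod (g : ℕ) (a b : Fin 5) : pM (g % 1024) a b = pM g a b := by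
  have h := Nat.testBit_mod_two_pow g 10 (ix a b)
  have h2 : (2 : ℕ) ^ 10 = 1024 := by norm_num
  rw [h2] at h
  simp only [pM, h, ix_lt, decide_true, Bool.true_and]

theorem cl_mod (g : ℕ) : cl (g % 1024) = cl g := by simp [cl]

theorem f_eq_VV {f : ℕ → ℤ} (h : FD f) (g : ℕ) : f g = VV f (cl g) := by
  have h1 : f g = f (g % 1024) := h.perm 1 rfl _ _ (fun a b => by simpa using pM_mod g a b)
  rw [h1, ← cl_mod]
  have hlt : g % 1024 < 1024 := Nat.mod_lt _ (by norm_num)
  generalize g % 1024 = k at hlt
  have hc := chk_all k hlt
  simp only [chk, Bool.or_eq_true, Bool.and_eq_true, beq_iff_eq, decide_eq_true_eq] at hc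
  rcases hc with (⟨hc, hz⟩ | ⟨hc, hz⟩) | ⟨⟨hc, hs⟩, hz⟩
  · simp only [zb, decide_eq_true_eq] at hz
    obtain ⟨i, hi, hz⟩ := hz
    rw [h.zero k i hi hz, hc]; rfl
  · have : f k = 1 := by
      rcases hz with hz | hz
      · simp only [ob, decide_eq_true_eq] at hz
        obtain ⟨i, hi, hz⟩ := hz
        exact h.one k i hi hz
      · simp only [ub, decide_eq_true_eq] at hz
        obtain ⟨a, hz⟩ := hz
        exact h.univ k a hz
    rw [this, hc]; rfl
  · have h53 : cl k ≠ 53 := by omega
    have h54 : cl k ≠ 54 := by omega
    rw [VV, if_neg h53, if_neg h54]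
    obtain ⟨h0, hinj⟩ := pf_ok _ hs
    have hbij : Function.Bijective (pf (si k)) :=
      (Finite.injective_iff_bijective).1 (fun a b hab => hinj a b hab)
    exact h.perm (Equiv.ofBijective _ hbij) h0 _ _ hz

theorem VV01 {f : ℕ → ℤ} (h : FD f) (k : ℕ) : VV f k = 0 ∨ VV f k = 1 := by
  unfold VV
  split_ifs
  · exact Or.inl rfl
  · exact Or.inr rfl
  · exact h.h01 _

/-! ### the implications -/

def okm (t : ℕ × ℕ) : Bool := decide (∀ a b, pM t.1 a b = true → pM t.2 a b = true)

def oks (t : ℕ × ℕ) : Bool :=
  decide (∀ i j, pM t.1 i j = true → ∀ a, sw i a = true → ∀ b, sw j b = true → pM t.2 a b = true)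

def okh (t : ℕ × Fin 5 × Fin 5) : Bool :=
  decide (t.2.1 ≠ t.2.2) && decide (∀ a, a ≠ t.2.2 → pM t.1 t.2.1 a = true) &&
    decide (t.2.2 ≠ 0 ∨ ∃ b, b ≠ t.2.1 ∧ b ≠ 0 ∧ pM t.1 0 b = true)

def mL : List (ℕ × ℕ) :=
  [(3, 515), (7, 23), (7, 71), (17, 19), (17, 21), (17, 529), (19, 23), (19, 51), (19, 531),
   (21, 533), (23, 55), (23, 87), (23, 535), (28, 29), (28, 60), (29, 61), (29, 157), (29, 541),
   (49, 51), (49, 57), (49, 177), (49, 305), (50, 54), (50, 58), (51, 55), (51, 59), (51, 179),
   (51, 563), (54, 55), (54, 182), (55, 183), (55, 311), (57, 59), (57, 185), (57, 313), (58,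
   59), (58, 62), (58, 122), (58, 186), (59, 187), (59, 571), (62, 190), (62, 318), (112, 114),
   (112, 240), (114, 118), (114, 242), (114, 626), (118, 246), (118, 374), (177, 179), (177,
   185), (177, 433), (179, 183), (179, 187), (179, 691), (185, 187), (192, 193), (192, 208),
   (193, 195), (193, 201), (193, 209), (193, 449), (195, 199), (195, 211), (195, 227), (195,
   707), (198, 199), (208, 209), (208, 212), (208, 240), (208, 720), (209, 211), (209, 213),
   (209, 217), (209, 465), (209, 721), (211, 215), (211, 723), (212, 213), (212, 214), (212,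
   220), (212, 244), (212, 468), (212, 724), (213, 215), (213, 221), (213, 469), (213, 725),
   (214, 215), (214, 222), (215, 727), (220, 221), (220, 252), (240, 242), (240, 248), (240,
   496), (242, 246), (242, 250), (242, 754), (248, 250), (248, 504), (250, 762), (480, 481),
   (480, 496), (481, 483), (481, 485), (481, 993), (483, 487), (483, 995), (485, 487), (496,
   500), (496, 1008), (500, 508)]

def sL : List (ℕ × ℕ) :=
  [(3, 17), (7, 49), (134, 177), (131, 145), (23, 51), (135, 177), (137, 193), (139, 209), (49,
   55), (151, 179), (387, 401), (389, 417), (155, 211), (391, 433), (397, 481), (177, 183), (899,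
   913), (903, 945), (203, 217), (423, 437), (429, 485)]

def hL : List (ℕ × Fin 5 × Fin 5) :=
  [(7, 0, 4), (23, 0, 4), (29, 0, 2), (49, 1, 4), (51, 1, 4), (55, 0, 4), (57, 1, 4), (177, 1,
   4), (179, 1, 4)]

theorem mL_ok : ∀ t ∈ mL, okm t = true := by decide +kernel

theorem sL_ok : ∀ t ∈ sL, oks t = true := by decide +kernel

theorem hL_ok : ∀ t ∈ hL, okh t = true := by decide +kernel

theorem impL_ok : ∀ t ∈ impL, t ∈ mL.map (fun t => (cl t.1, cl t.2)) ∨
    t ∈ sL.map (fun t => (cl t.1, cl t.2)) ∨ t ∈ hL.map (fun t => (22, cl t.1)) := by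
  decide +kernel

theorem cl910 : cl 910 = 22 := by decide +kernel

theorem imp_all {f : ℕ → ℤ} (h : FD f) : ∀ t ∈ impL, VV f t.1 ≤ VV f t.2 := by
  intro t ht
  rcases impL_ok t ht with h1 | h1 | h1
  · obtain ⟨u, hu, rfl⟩ := List.mem_map.1 h1
    have := mL_ok u hu
    simp only [okm, decide_eq_true_eq] at this
    rw [← f_eq_VV h, ← f_eq_VV h]
    exact h.mono _ _ this
  · obtain ⟨u, hu, rfl⟩ := List.mem_map.1 h1
    have := sL_ok u hu
    simp only [oks, decide_eq_true_eq] at this
    rw [← f_eq_VV h, ← f_eq_VV h]
    exact h.swap _ _ (fun i j a b h1 h2 h3 => this i j h1 a h2 b h3)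
  · obtain ⟨u, hu, rfl⟩ := List.mem_map.1 h1
    have := hL_ok u hu
    simp only [okh, Bool.and_eq_true, decide_eq_true_eq] at this
    have h2 := h.hub u.1 u.2.1 u.2.2 this.1.1 this.1.2 this.2
    rw [f_eq_VV h, f_eq_VV h u.1, cl910] at h2
    exact h2

/-! ### the equations -/

theorem cl_lt (g : ℕ) : cl g < 55 := by
  rw [← cl_mod]
  have hlt : g % 1024 < 1024 := Nat.mod_lt _ (by norm_num)
  have key : ∀ g, g < 1024 → cl g < 55 := by decide +kernel
  exact key _ hlt

theorem alt_lin (F : ℕ → ℤ) (W : ℕ → ℤ) (hF : ∀ g, F g = W (cl g)) (ws : List ℕ) (b : ℕ) :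
    alt F ws b = ∑ k ∈ range 55, alt (fun g => if cl g = k then 1 else 0) ws b * W k := by
  induction ws generalizing b with
  | nil =>
    simp only [alt, ite_mul, one_mul, zero_mul]
    rw [Finset.sum_ite_eq, if_pos (Finset.mem_range.2 (cl_lt b)), hF]
  | cons w ws ih =>
    simp only [alt, sub_mul, Finset.sum_sub_distrib, ih]

def co0 : List ℤ :=
  [3, -1, 9, -3, -12, 3, -3, 3, -9, -18, 12, 6, -3, 6, 12, -6, -3, -4, 9, -6, 9, -6, 1, -6, 3,
   3, -9, 6, 3, -3, -12, 18, -6, 18, -12, -12, 6, -6, 6, 12, -18, 6, -9, 12, 3, -9, 3, 6, -3, -6,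
   9, -3, 1, 3, -3]

theorem co0_ok : ∀ k, k < 55 →
    alt (fun g => if cl g = k then 1 else 0) [2, 4, 8, 16, 32, 64, 128, 256, 512] 0 = co0.getD k 0 := by
  decide +kernel

def co1 : List ℤ :=
  [-3, 3, -3, 3, 12, -9, 3, -9, 3, 6, -12, -6, 9, -6, -12, 18, 9, 0, -3, 6, -3, 6, -3, 6, -9, 0,
   3, -6, -3, 9, 0, -6, 6, -6, 12, 12, -18, 6, -18, 0, 6, -6, 3, -12, 0, 3, -3, -6, 9, 0, -3, 3,
   0, 0, 9]

theorem co1_ok : ∀ k, k < 55 →
    alt (fun g => if cl g = k then 1 else 0) [2, 4, 8, 16, 32, 64, 128, 256, 512] 1 = co1.getD k 0 := by
  decide +kernel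

def co2 : List ℤ :=
  [6, -4, 10, -5, -20, 10, -5, 10, -8, -16, 16, 8, -8, 8, 16, -16, -8, -2, 6, -6, 6, -6, 2, -6,
   6, 2, -8, 8, 4, -8, -6, 12, -6, 12, -12, -12, 12, -6, 12, 4, -8, 4, -4, 8, 1, -4, 2, 4, -4,
   -1, 2, -1, 0, 2, -3]

theorem co2_ok : ∀ k, k < 55 →
    alt (fun g => if cl g = k then 1 else 0) [1, 2, 4, 8, 16, 32, 64, 128, 256] 0 = co2.getD k 0 := by
  decide +kernel

def co3 : List ℤ :=
  [0, 0, -2, 1, 4, -2, 1, -2, 4, 8, -8, -4, 4, -4, -8, 8, 4, 2, -6, 6, -6, 6, -2, 6, -6, -1, 4,
   -4, -2, 4, 6, -12, 6, -12, 12, 12, -12, 6, -12, -8, 16, -8, 8, -16, -2, 8, -4, -8, 8, 5, -10,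
   5, -1, -1, 9]

theorem co3_ok : ∀ k, k < 55 →
    alt (fun g => if cl g = k then 1 else 0) [1, 2, 4, 8, 16, 32, 64, 128, 256] 512 = co3.getD k 0 := by
  decide +kernel

def co4 : List ℤ :=
  [0, 0, 0, -3, 0, 0, 0, 0, 0, 0, 6, 0, 3, 0, 0, 0, 0, 0, 0, 0, 0, 0, -3, 0, 0, 0, 0, 0, 3, 0,
   0, 0, 0, 0, 0, -6, -6, 0, 0, 0, 0, 0, 0, 0, 0, 0, 0, 0, 3, 0, 0, 0, 0, 0, 3]

theorem co4_ok : ∀ k, k < 55 →
    alt (fun g => if cl g = k then 1 else 0) [18, 36, 72, 128, 256, 512] 1 = co4.getD k 0 := by
  decide +kernel


theorem cert (f : ℕ → ℤ) (h : FD f) : f 19 = 1 := by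
  have hV := f_eq_VV h
  have e3 : cl 19 = 3 := by decide +kernel
  rw [hV, e3]
  have r0 := h.rel0 0 (by norm_num)
  rw [alt_lin f (VV f) hV, Finset.sum_congr rfl (fun k hk => by
    rw [co0_ok k (Finset.mem_range.1 hk)])] at r0
  have r1 := h.rel0 1 (by norm_num)
  rw [alt_lin f (VV f) hV, Finset.sum_congr rfl (fun k hk => by
    rw [co1_ok k (Finset.mem_range.1 hk)])] at r1
  have r2 := h.rel9 0 (by norm_num)
  rw [alt_lin f (VV f) hV, Finset.sum_congr rfl (fun k hk => by
    rw [show (512 * 0 : ℕ) = 0 from rfl, co2_ok k (Finset.mem_range.1 hk)])] at r2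
  have r3 := h.rel9 1 (by norm_num)
  rw [alt_lin f (VV f) hV, Finset.sum_congr rfl (fun k hk => by
    rw [show (512 * 1 : ℕ) = 512 from rfl, co3_ok k (Finset.mem_range.1 hk)])] at r3
  have r4 := h.relM
  rw [alt_lin f (VV f) hV, Finset.sum_congr rfl (fun k hk => by
    rw [co4_ok k (Finset.mem_range.1 hk)])] at r4
  have h53 : VV f 53 = 0 := rfl
  have h54 : VV f 54 = 1 := rfl
  simp only [Finset.sum_range_succ, Finset.sum_range_zero, co0, co1, co2, co3, co4,
    List.getD_cons_zero, List.getD_cons_succ, h53, h54] at r0 r1 r2 r3 r4
  refine leaf_cert (VV f) (VV01 h) h53 h54 (imp_all h) ?_ ?_ ?_ ?_ ?_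
  · linarith
  · linarith
  · linarith
  · linarith
  · linarith

end Pool.Agent.H119R2.Kp
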