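import Mathlib
import Pool.Agent.H119R2.Kp.Defs

set_option autoImplicit false

namespace Pool.Agent.H119R2.Kp

open Finset

/-- rotation of the six classes: `0→1→2→0`, `3→4→5→3` -/
def rho : Equiv.Perm (Fin 6) :=
  ⟨![1, 2, 0, 4, 5, 3], ![2, 0, 1, 5, 3, 4], by decide, by decide⟩

namespace Mod3

/-- subsets of `Fin 6` by bits -/
def dec (b : Fin 64) : Finset (Fin 6) := univ.filter (fun i => b.val.testBit i.val = true)

/-- bits of a subset -/
def enc (I : Finset (Fin 6)) : Fin 64 :=
  ⟨(∑ i ∈ I, 2 ^ i.val) % 64, Nat.mod_lt _ (by norm_num)⟩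

theorem dec_enc : ∀ b : Fin 64, enc (dec b) = b := by decide +kernel

theorem dec_inj : Function.Injective dec := fun a b h => by
  rw [← dec_enc a, ← dec_enc b, h]

theorem dec_bij : Function.Bijective dec := by
  rw [Fintype.bijective_iff_injective_and_card]
  exact ⟨dec_inj, by simp⟩

/-- rotation on codes -/
def rot (b : Fin 64) : Fin 64 := enc ((dec b).map rho.toEmbedding)

theorem dec_rot : ∀ b : Fin 64, dec (rot b) = (dec b).map rho.toEmbedding := by decide +kernel

/-- sign -/
def sg (b : Fin 64) : ℤ := (-1) ^ (dec b).card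

end Mod3

open Mod3 in
theorem sum_mod3 (f : Finset (Fin 6) → ℤ) (hrot : ∀ I, f (I.map rho.toEmbedding) = f I)
    (hsum : ∑ I, (-1 : ℤ) ^ I.card * f I = 0) (h01 : ∀ I, f I = 0 ∨ f I = 1)
    (h1 : f {0, 1, 2} = 1) (h2 : f univ = 1) : f ∅ = f {3, 4, 5} := by
  -- representatives of the orbits of length 3
  set R : Finset (Fin 64) := univ.filter (fun b => b < rot b ∧ b < rot (rot b)) with hR
  have hu : (univ : Finset (Fin 64)) = {0, 7, 56, 63} ∪ (R ∪ (R.image rot ∪ R.image (fun b => rot (rot b)))) := by
    rw [hR]; decide +kernel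
  have hd1 : Disjoint ({0, 7, 56, 63} : Finset (Fin 64)) (R ∪ (R.image rot ∪ R.image (fun b => rot (rot b)))) := by
    rw [hR]; decide +kernel
  have hd2 : Disjoint R (R.image rot ∪ R.image (fun b => rot (rot b))) := by
    rw [hR]; decide +kernel
  have hd3 : Disjoint (R.image rot) (R.image (fun b => rot (rot b))) := by
    rw [hR]; decide +kernel
  have hri : Function.Injective rot := by decide +kernel
  have hsg : ∀ b, sg (rot b) = sg b := by decide +kernel
  set g : Fin 64 → ℤ := fun b => sg b * f (dec b) with hg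
  have hgr : ∀ b, g (rot b) = g b := by
    intro b
    simp only [hg]
    rw [hsg, dec_rot, hrot]
  have hs : ∑ b, g b = 0 := by
    rw [← hsum]
    exact Fintype.sum_bijective dec dec_bij _ _ (fun b => rfl)
  rw [hu, sum_union hd1, sum_union hd2, sum_union hd3, sum_image (fun a _ b _ h => hri h),
    sum_image (fun a _ b _ h => hri (hri h))] at hs
  simp only [hgr] at hs
  have e1 : ∑ b ∈ ({0, 7, 56, 63} : Finset (Fin 64)), g b = f ∅ - f {0, 1, 2} - f {3, 4, 5} + f univ := by
    have d0 : dec 0 = ∅ := by decide +kernel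
    have d7 : dec 7 = {0, 1, 2} := by decide +kernel
    have d56 : dec 56 = {3, 4, 5} := by decide +kernel
    have d63 : dec 63 = univ := by decide +kernel
    have s0 : sg 0 = 1 := by decide +kernel
    have s7 : sg 7 = -1 := by decide +kernel
    have s56 : sg 56 = -1 := by decide +kernel
    have s63 : sg 63 = 1 := by decide +kernel
    rw [sum_insert (by decide), sum_insert (by decide), sum_insert (by decide), sum_singleton]
    simp only [hg]
    rw [d0, d7, d56, d63, s0, s7, s56, s63]
    ring
  rw [e1, h1, h2] at hs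
  rcases h01 ∅ with h | h <;> rcases h01 {3, 4, 5} with h' | h' <;> rw [h, h'] at hs ⊢ <;> omega

end Pool.Agent.H119R2.Kp
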