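import Mathlib
import Pool.Agent.H119R2.Kp.Defs
import Pool.Agent.H119R2.Kp.PVE
import Pool.Agent.H119R2.Kp.Rel
import Pool.Agent.H119R2.Kp.Mod3

set_option autoImplicit false

/-! # Task CHA: chainA (helper911) -/

namespace Pool.Agent.H119R2.Kp

open Finset
open Pool.Agent.H98R2.Ev (EV toG NE)


namespace CA

variable {p x r : ℕ}

/-- translations of the blocks and of the cyclic part -/
def T (d : (Fin 3 → ZMod p) × ZMod x) : Equiv.Perm (WC p x r) :=
  Equiv.sumCongr (Equiv.prodShear (Equiv.refl _) (fun i => Equiv.addRight (d.1 i)))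
    (Equiv.sumCongr (Equiv.addRight d.2) (Equiv.refl _))

@[simp] lemma T_block (d : (Fin 3 → ZMod p) × ZMod x) (i : Fin 3) (a : ZMod p) :
    T (r := r) d (Sum.inl (i, a)) = Sum.inl (i, a + d.1 i) := rfl

@[simp] lemma T_cyc (d : (Fin 3 → ZMod p) × ZMod x) (a : ZMod x) :
    T (p := p) (r := r) d (Sum.inr (Sum.inl a)) = Sum.inr (Sum.inl (a + d.2)) := rfl

@[simp] lemma T_fix (d : (Fin 3 → ZMod p) × ZMod x) (a : Fin r) :
    T (p := p) d (Sum.inr (Sum.inr a)) = Sum.inr (Sum.inr a) := rfl

lemma T_add (d d' : (Fin 3 → ZMod p) × ZMod x) : T (r := r) (d + d') = T d * T d' := by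
  ext u
  rcases u with ⟨i, a⟩ | a | a
  · simp only [Equiv.Perm.coe_mul, Function.comp_apply, T_block, Prod.fst_add, Pi.add_apply]
    congr 2
    abel
  · simp only [Equiv.Perm.coe_mul, Function.comp_apply, T_cyc, Prod.snd_add]
    congr 2
    abel
  · simp

lemma T_zero : T (p := p) (x := x) (r := r) 0 = 1 := by
  ext u
  rcases u with ⟨i, a⟩ | a | a <;> simp

lemma T_nsmul (n : ℕ) (d : (Fin 3 → ZMod p) × ZMod x) : T (r := r) (n • d) = T d ^ n := by
  induction n with
  | zero => simp [T_zero]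
  | succ n ih => rw [succ_nsmul, T_add, ih, pow_succ]

/-- the generator translating block `i` -/
def ga (i : Fin 3) : Equiv.Perm (WC p x r) := T (Pi.single i 1, 0)

/-- the rotation of the cyclic part -/
def gc : Equiv.Perm (WC p x r) := T (0, 1)

lemma T_comm (d d' : (Fin 3 → ZMod p) × ZMod x) : T (r := r) d * T d' = T d' * T d := by
  rw [← T_add, ← T_add, add_comm]

lemma T_mem [NeZero p] [NeZero x] (d : (Fin 3 → ZMod p) × ZMod x) :
    T (r := r) d ∈ Subgroup.closure (insert gc (Set.range ga)) := by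
  have h1 : ∀ i : Fin 3, ∀ z : ZMod p, T (p := p) (x := x) (r := r) (Pi.single i z, 0) ∈
      Subgroup.closure (insert gc (Set.range ga)) := by
    intro i z
    have : ((Pi.single i z, 0) : (Fin 3 → ZMod p) × ZMod x) =
        z.val • ((Pi.single i 1, 0) : (Fin 3 → ZMod p) × ZMod x) := by
      ext j
      · simp only [Prod.smul_fst, Pi.smul_apply]
        by_cases hj : j = i
        · subst hj
          simp
        · simp [Pi.single_eq_of_ne hj]
      · simp
    rw [this, T_nsmul]
    have hm : ga i ∈ Subgroup.closure (insert (gc (p := p) (x := x) (r := r)) (Set.range ga)) :=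
      Subgroup.subset_closure (Set.mem_insert_of_mem _ ⟨i, rfl⟩)
    exact Subgroup.pow_mem _ hm _
  have h2 : ∀ z : ZMod x, T (p := p) (x := x) (r := r) (0, z) ∈
      Subgroup.closure (insert gc (Set.range ga)) := by
    intro z
    have : ((0, z) : (Fin 3 → ZMod p) × ZMod x) =
        z.val • ((0, 1) : (Fin 3 → ZMod p) × ZMod x) := by
      ext j
      · simp
      · simp
    rw [this, T_nsmul]
    have hm : gc ∈ Subgroup.closure (insert (gc (p := p) (x := x) (r := r)) (Set.range ga)) :=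
      Subgroup.subset_closure (Set.mem_insert _ _)
    exact Subgroup.pow_mem _ hm _
  have h3 : d = (Pi.single 0 (d.1 0), 0) + ((Pi.single 1 (d.1 1), 0) +
      ((Pi.single 2 (d.1 2), 0) + (0, d.2))) := by
    ext j
    · fin_cases j <;> simp
    · simp
  rw [h3, T_add, T_add, T_add]
  exact Subgroup.mul_mem _ (h1 _ _) (Subgroup.mul_mem _ (h1 _ _) (Subgroup.mul_mem _ (h1 _ _)
    (h2 _)))

/-- class of a pair of different blocks -/
def kk (b b' : Fin 3) : Fin 6 := (![4, 3, 5] : Fin 3 → Fin 6) (b + b')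

/-- class of a block with the cyclic part -/
def bb (b : Fin 3) : Fin 6 := (![0, 1, 2] : Fin 3 → Fin 6) b

/-- the class of a pair of vertices -/
def ty : WC p x r → WC p x r → Option (Fin 6)
  | .inl u, .inl v => if u.1 = v.1 then none else some (kk u.1 v.1)
  | .inl u, .inr (.inl _) => some (bb u.1)
  | .inr (.inl _), .inl u => some (bb u.1)
  | _, _ => none

lemma kk_comm (b b' : Fin 3) : kk b b' = kk b' b := by
  unfold kk; rw [add_comm]

lemma ty_comm (u v : WC p x r) : ty u v = ty v u := by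
  rcases u with ⟨i, a⟩ | a | a <;> rcases v with ⟨j, b⟩ | b | b <;> simp only [ty]
  by_cases h : i = j
  · simp [h]
  · simp [h, Ne.symm h, kk_comm]

/-- the classes -/
def R (j : Fin 6) : SimpleGraph (WC p x r) where
  Adj u v := ty u v = some j
  symm := ⟨fun u v h => by rw [ty_comm]; exact h⟩
  loopless := ⟨by
    rintro (⟨i, a⟩ | a | a) h <;> simp [ty] at h⟩

lemma R_adj (j : Fin 6) (u v : WC p x r) : (R j).Adj u v ↔ ty u v = some j := Iff.rfl

lemma ty_T (d : (Fin 3 → ZMod p) × ZMod x) (u v : WC p x r) : ty (T d u) (T d v) = ty u v := by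
  rcases u with ⟨i, a⟩ | a | a <;> rcases v with ⟨j, b⟩ | b | b <;> simp [ty]

/-- rotation of the blocks -/
def rt : Equiv.Perm (WC p x r) :=
  Equiv.sumCongr (Equiv.prodCongr (Equiv.addRight 1) (Equiv.refl _)) (Equiv.refl _)

lemma kk_rot : ∀ b b' : Fin 3, b ≠ b' → kk (b + 1) (b' + 1) = rho (kk b b') := by
  decide

lemma bb_rot : ∀ b : Fin 3, bb (b + 1) = rho (bb b) := by
  decide

lemma ty_rt (u v : WC p x r) : ty (rt u) (rt v) = (ty u v).map rho := by
  rcases u with ⟨i, a⟩ | a | a <;> rcases v with ⟨j, b⟩ | b | b <;>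
    simp [ty, rt, bb_rot]
  by_cases h : i = j
  · simp [h]
  · simp [h, kk_rot i j h]

lemma kk_inj : ∀ b b' c c' : Fin 3, b ≠ b' → c ≠ c' → kk b b' = kk c c' →
    (b = c ∧ b' = c') ∨ (b = c' ∧ b' = c) := by
  decide

lemma bb_inj : ∀ b b' : Fin 3, bb b = bb b' → b = b' := by
  decide

lemma kk_ne_bb : ∀ b b' c : Fin 3, b ≠ b' → kk b b' ≠ bb c := by
  decide

lemma exT_bb (i j : Fin 3) (hij : i ≠ j) (a a' b b' : ZMod p) :
    ∃ d : (Fin 3 → ZMod p) × ZMod x, T (r := r) d (Sum.inl (i, a)) = Sum.inl (i, a') ∧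
      T (r := r) d (Sum.inl (j, b)) = Sum.inl (j, b') := by
  refine ⟨(Pi.single i (a' - a) + Pi.single j (b' - b), 0), ?_, ?_⟩
  · simp [Pi.single_eq_of_ne hij]
  · simp [Pi.single_eq_of_ne hij.symm]

lemma exT_bx (i : Fin 3) (a a' : ZMod p) (b b' : ZMod x) :
    ∃ d : (Fin 3 → ZMod p) × ZMod x, T (r := r) d (Sum.inl (i, a)) = Sum.inl (i, a') ∧
      T (p := p) (r := r) d (Sum.inr (Sum.inl b)) = Sum.inr (Sum.inl b') := by
  refine ⟨(Pi.single i (a' - a), b' - b), ?_, ?_⟩
  · simp
  · simp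

lemma htr' (j : Fin 6) (u v u' v' : WC p x r) (h : ty u v = some j) (h' : ty u' v' = some j) :
    ∃ d, (T d u = u' ∧ T d v = v') ∨ (T d u = v' ∧ T d v = u') := by
  rcases u with ⟨i, a⟩ | a | a <;> rcases v with ⟨k, b⟩ | b | b <;>
    rcases u' with ⟨i', a'⟩ | a' | a' <;> rcases v' with ⟨k', b'⟩ | b' | b' <;>
    simp only [ty, reduceCtorEq] at h h'
  · split_ifs at h h' with h1 h2
    simp only [Option.some.injEq] at h h'
    rcases kk_inj i k i' k' h1 h2 (h.trans h'.symm) with ⟨h3, h4⟩ | ⟨h3, h4⟩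
    · subst h3 h4
      obtain ⟨d, hd1, hd2⟩ := exT_bb (x := x) (r := r) i k h1 a a' b b'
      exact ⟨d, Or.inl ⟨hd1, hd2⟩⟩
    · subst h3 h4
      obtain ⟨d, hd1, hd2⟩ := exT_bb (x := x) (r := r) i k h1 a b' b a'
      exact ⟨d, Or.inr ⟨hd1, hd2⟩⟩
  · split_ifs at h with h1
    simp only [Option.some.injEq] at h h'
    exact absurd (h.trans h'.symm) (kk_ne_bb i k i' h1)
  · split_ifs at h with h1
    simp only [Option.some.injEq] at h h'
    exact absurd (h.trans h'.symm) (kk_ne_bb i k k' h1)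
  · split_ifs at h' with h1
    simp only [Option.some.injEq] at h h'
    exact absurd (h'.trans h.symm) (kk_ne_bb i' k' i h1)
  · simp only [Option.some.injEq] at h h'
    obtain rfl := bb_inj _ _ (h.trans h'.symm)
    obtain ⟨d, hd1, hd2⟩ := exT_bx (r := r) i a a' b b'
    exact ⟨d, Or.inl ⟨hd1, hd2⟩⟩
  · simp only [Option.some.injEq] at h h'
    obtain rfl := bb_inj _ _ (h.trans h'.symm)
    obtain ⟨d, hd1, hd2⟩ := exT_bx (r := r) i a b' b a'
    exact ⟨d, Or.inr ⟨hd1, hd2⟩⟩
  · split_ifs at h' with h1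
    simp only [Option.some.injEq] at h h'
    exact absurd (h'.trans h.symm) (kk_ne_bb i' k' k h1)
  · simp only [Option.some.injEq] at h h'
    obtain rfl := bb_inj _ _ (h.trans h'.symm)
    obtain ⟨d, hd1, hd2⟩ := exT_bx (r := r) k b a' a b'
    exact ⟨d, Or.inr ⟨hd2, hd1⟩⟩
  · simp only [Option.some.injEq] at h h'
    obtain rfl := bb_inj _ _ (h.trans h'.symm)
    obtain ⟨d, hd1, hd2⟩ := exT_bx (r := r) k b b' a a'
    exact ⟨d, Or.inl ⟨hd2, hd1⟩⟩

lemma card_bb [NeZero p] [NeZero x] (b : Fin 3) :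
    x * p ≤ Nat.card (R (p := p) (x := x) (r := r) (bb b)).edgeSet := by
  have : x * p = Nat.card (ZMod x × ZMod p) := by
    rw [Nat.card_prod, Nat.card_zmod, Nat.card_zmod]
  rw [this]
  refine Nat.card_le_card_of_injective (fun w => ⟨s(Sum.inr (Sum.inl w.1), Sum.inl (b, w.2)), ?_⟩) ?_
  · rw [SimpleGraph.mem_edgeSet, R_adj]
    simp [ty]
  · rintro ⟨a, c⟩ ⟨a', c'⟩ h
    simp only [Subtype.mk.injEq, Sym2.eq_iff, Sum.inr.injEq, Sum.inl.injEq, Prod.mk.injEq,
      reduceCtorEq, false_and, or_false, true_and] at h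
    ext <;> simp [h]

lemma card_kk [NeZero p] [NeZero x] (b b' : Fin 3) (hb : b ≠ b') :
    p * p ≤ Nat.card (R (p := p) (x := x) (r := r) (kk b b')).edgeSet := by
  have : p * p = Nat.card (ZMod p × ZMod p) := by
    rw [Nat.card_prod, Nat.card_zmod]
  rw [this]
  refine Nat.card_le_card_of_injective (fun w => ⟨s(Sum.inl (b, w.1), Sum.inl (b', w.2)), ?_⟩) ?_
  · rw [SimpleGraph.mem_edgeSet, R_adj]
    simp [ty, hb]
  · rintro ⟨a, c⟩ ⟨a', c'⟩ h
    simp only [Subtype.mk.injEq, Sym2.eq_iff, Sum.inl.injEq, Prod.mk.injEq, hb, false_and,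
      or_false, true_and] at h
    ext <;> simp [h]

lemma card_R [NeZero p] [NeZero x] :
    3 * p * x + 3 * p * p ≤ ∑ j, Nat.card (R (p := p) (x := x) (r := r) j).edgeSet := by
  rw [Fin.sum_univ_six]
  have h0 := card_bb (p := p) (x := x) (r := r) 0
  have h1 := card_bb (p := p) (x := x) (r := r) 1
  have h2 := card_bb (p := p) (x := x) (r := r) 2
  have h3 := card_kk (p := p) (x := x) (r := r) 0 1 (by decide)
  have h4 := card_kk (p := p) (x := x) (r := r) 1 2 (by decide)
  have h5 := card_kk (p := p) (x := x) (r := r) 2 0 (by decide)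
  have e0 : bb 0 = 0 := rfl
  have e1 : bb 1 = 1 := rfl
  have e2 : bb 2 = 2 := rfl
  have e3 : kk 0 1 = 3 := rfl
  have e4 : kk 1 2 = 4 := rfl
  have e5 : kk 2 0 = 5 := rfl
  rw [e0] at h0
  rw [e1] at h1
  rw [e2] at h2
  rw [e3] at h3
  rw [e4] at h4
  rw [e5] at h5
  nlinarith

/-- the graph of a set of classes -/
def BI (H : SimpleGraph (ZMod x)) (t : ℕ) (I : Finset (Fin 6)) : SimpleGraph (WC p x r) :=
  WG p x r H (CT p t false) ⊔ ⨆ j ∈ I, R j

lemma BI_adj (H : SimpleGraph (ZMod x)) (t : ℕ) (I : Finset (Fin 6)) (u v : WC p x r) :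
    (BI H t I).Adj u v ↔ (WG p x r H (CT p t false)).Adj u v ∨ ∃ j ∈ I, ty u v = some j := by
  unfold BI
  simp only [SimpleGraph.sup_adj, SimpleGraph.iSup_adj, R_adj, exists_prop]

lemma CT_T (t : ℕ) (jj : Bool) (d : (Fin 3 → ZMod p) × ZMod x) (u v : Fin 3 × ZMod p)
    (h : (CT p t jj).Adj u v) :
    (CT p t jj).Adj (u.1, u.2 + d.1 u.1) (v.1, v.2 + d.1 v.1) := by
  obtain ⟨h1, h2⟩ := h
  refine ⟨?_, ?_⟩
  · intro hc
    apply h1
    simp only [Prod.mk.injEq] at hc
    ext
    · rw [hc.1]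
    · have := hc.2
      rw [hc.1] at this
      exact add_right_cancel this
  · rcases h2 with h2 | ⟨h2, e, h3, h4, h5⟩
    · exact Or.inl h2
    · refine Or.inr ⟨h2, e, h3, h4, ?_⟩
      simp only
      rw [h2]
      rcases h5 with h5 | h5
      · left; rw [h5]; ring
      · right; rw [h5]; ring

lemma CT_rt (t : ℕ) (jj : Bool) (u v : Fin 3 × ZMod p)
    (h : (CT p t jj).Adj u v) :
    (CT p t jj).Adj (u.1 + 1, u.2) (v.1 + 1, v.2) := by
  obtain ⟨h1, h2⟩ := h
  refine ⟨?_, ?_⟩
  · intro hc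
    apply h1
    simp only [Prod.mk.injEq, add_left_inj] at hc
    ext
    · rw [hc.1]
    · rw [hc.2]
  · rcases h2 with h2 | ⟨h2, e, h3, h4, h5⟩
    · refine Or.inl ⟨?_, h2.2⟩
      simpa using h2.1
    · exact Or.inr ⟨by simp [h2], e, h3, h4, h5⟩

lemma WG_T [NeZero x] (H : SimpleGraph (ZMod x)) (hH : ∀ a b, H.Adj a b → H.Adj (a + 1) (b + 1))
    (t : ℕ) (jj : Bool) (d : (Fin 3 → ZMod p) × ZMod x) (u v : WC p x r)
    (h : (WG p x r H (CT p t jj)).Adj u v) : (WG p x r H (CT p t jj)).Adj (T d u) (T d v) := by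
  have hH' : ∀ n : ℕ, ∀ a b, H.Adj a b → H.Adj (a + n) (b + n) := by
    intro n
    induction n with
    | zero => intro a b h; simpa using h
    | succ n ih =>
      intro a b h
      have := hH _ _ (ih a b h)
      push_cast
      rw [← add_assoc, ← add_assoc]
      exact this
  have hH2 : ∀ e a b, H.Adj a b → H.Adj (a + e) (b + e) := by
    intro e a b h
    have := hH' e.val a b h
    rwa [ZMod.natCast_zmod_val] at this
  rcases u with ⟨i, a⟩ | a | a <;> rcases v with ⟨j, b⟩ | b | b
  · exact CT_T t jj d (i, a) (j, b) h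
  · exact h
  · trivial
  · exact h
  · exact hH2 _ _ _ h
  · exact h
  · trivial
  · exact h
  · exact h

lemma WG_rt (H : SimpleGraph (ZMod x)) (t : ℕ) (jj : Bool) (u v : WC p x r)
    (h : (WG p x r H (CT p t jj)).Adj u v) : (WG p x r H (CT p t jj)).Adj (rt u) (rt v) := by
  rcases u with ⟨i, a⟩ | a | a <;> rcases v with ⟨j, b⟩ | b | b
  · exact CT_rt t jj (i, a) (j, b) h
  · exact h
  · trivial
  · exact h
  · exact h
  · exact h
  · trivial
  · exact h
  · exact h

end CA

open CA in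
theorem chainA {n q : ℕ} {P : SimpleGraph (Fin n) → Prop} (hP : GP n q P) (p x r t : ℕ)
    [Fact p.Prime] (hx : 0 < x) (hn : 3 * p + x + r = n) (H : SimpleGraph (ZMod x))
    (hH : ∀ a b, H.Adj a b → H.Adj (a + 1) (b + 1))
    (hU : ∀ G : SimpleGraph (WC p x r),
      (∀ a b, H.Adj a b → G.Adj (Sum.inr (Sum.inl a)) (Sum.inr (Sum.inl b))) →
      (∀ (u : Fin 3 × ZMod p) (v : ZMod x ⊕ Fin r), G.Adj (Sum.inl u) (Sum.inr v)) → PV P _ G)
    (hq : q < 3 * p * x + 3 * p * p) (hK : PV P _ (WG p x r H (CT p t true))) :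
    PV P _ (WG p x r H (CT p t false)) := by
  classical
  haveI : NeZero x := ⟨hx.ne'⟩
  haveI : NeZero p := ⟨(Fact.out : p.Prime).ne_zero⟩
  have hV : Fintype.card (WC p x r) = n := by
    simp only [WC, Fintype.card_sum, Fintype.card_prod, ZMod.card, Fintype.card_fin]
    omega
  have hsum := rel hP hV p (ga (p := p) (x := x) (r := r)) gc
    (by intro i j; exact T_comm _ _)
    (by
      intro i
      rw [ga, ← T_nsmul]
      have : p • ((Pi.single i 1, 0) : (Fin 3 → ZMod p) × ZMod x) = 0 := by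
        ext j
        · simp
        · simp
      rw [this, T_zero])
    (by
      intro i
      have : (gc (p := p) (x := x) (r := r))⁻¹ * ga i * gc = ga i := by
        rw [mul_assoc, ga, gc, T_comm, ← mul_assoc, inv_mul_cancel, one_mul]
      rw [this]
      exact Subgroup.subset_closure ⟨i, rfl⟩)
    (WG p x r H (CT p t false)) (R (p := p) (x := x) (r := r))
    (by intro i u v h; exact WG_T H hH t false _ u v h)
    (by intro u v h; exact WG_T H hH t false _ u v h)
    (by intro j i u v h; rw [R_adj] at h ⊢; rw [ga, ty_T]; exact h)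
    (by intro j u v h; rw [R_adj] at h ⊢; rw [gc, ty_T]; exact h)
    (by
      intro i j hij
      rw [disjoint_iff_inf_le]
      intro u v h
      simp only [SimpleGraph.inf_adj, R_adj] at h
      rw [h.1] at h
      exact absurd (Option.some.inj h.2) hij)
    (by
      intro i
      rw [disjoint_iff_inf_le]
      intro u v h
      simp only [SimpleGraph.inf_adj, R_adj] at h
      obtain ⟨h1, h2⟩ := h
      rcases u with ⟨k, a⟩ | a | a <;> rcases v with ⟨j, b⟩ | b | b <;> simp only [ty, reduceCtorEq] at h2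
      · split_ifs at h2 with h3
        obtain ⟨_, h4 | h4⟩ := h1
        · exact absurd h4.2 (by simp)
        · exact absurd h4.1 h3
      · exact absurd h1 (by simp [WG])
      · exact absurd h1 (by simp [WG]))
    (by
      intro j
      have : (∃ b, j = bb b) ∨ ∃ b, j = kk b (b + 1) := by
        revert j; decide
      rcases this with ⟨b, rfl⟩ | ⟨b, rfl⟩
      · exact ⟨Sum.inl (b, 0), Sum.inr (Sum.inl 0), by simp [R_adj, ty]⟩
      · refine ⟨Sum.inl (b, 0), Sum.inl (b + 1, 0), ?_⟩
        have : b ≠ b + 1 := by revert b; decide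
        simp [R_adj, ty, this])
    (by
      intro j u v u' v' h h'
      obtain ⟨d, hd⟩ := htr' j u v u' v' h h'
      exact ⟨T d, T_mem d, hd⟩)
    (lt_of_lt_of_le hq card_R)
  set f : Finset (Fin 6) → ℤ := fun I => if PV P (WC p x r) (BI H t I) then 1 else 0 with hf
  have hrot1 : ∀ I : Finset (Fin 6), PV P (WC p x r) (BI H t I) →
      PV P (WC p x r) (BI H t (I.map rho.toEmbedding)) := by
    intro I h
    refine PV.mono hP rt ?_ h
    intro u v huv
    rw [BI_adj] at huv ⊢
    rcases huv with huv | ⟨j, hj, huv⟩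
    · exact Or.inl (WG_rt H t false u v huv)
    · right
      refine ⟨rho j, ?_, ?_⟩
      · simpa using hj
      · rw [ty_rt, huv]; rfl
  have hrho3 : ∀ I : Finset (Fin 6), ((I.map rho.toEmbedding).map rho.toEmbedding).map
      rho.toEmbedding = I := by
    intro I
    rw [Finset.map_map, Finset.map_map]
    have : rho.toEmbedding.trans (rho.toEmbedding.trans rho.toEmbedding) =
        Function.Embedding.refl _ := by
      ext j
      revert j
      decide
    rw [this, Finset.map_refl]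
  have hrot : ∀ I, f (I.map rho.toEmbedding) = f I := by
    intro I
    simp only [hf]
    have : PV P (WC p x r) (BI H t (I.map rho.toEmbedding)) ↔ PV P (WC p x r) (BI H t I) := by
      constructor
      · intro h
        have := hrot1 _ (hrot1 _ h)
        rwa [hrho3] at this
      · exact hrot1 I
    simp only [this]
  have h01 : ∀ I, f I = 0 ∨ f I = 1 := by
    intro I
    simp only [hf]
    split_ifs
    · right; rfl
    · left; rfl
  have hone : ∀ I : Finset (Fin 6), {0, 1, 2} ⊆ I → f I = 1 := by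
    intro I hI
    simp only [hf]
    rw [if_pos]
    apply hU
    · intro a b hab
      rw [BI_adj]
      left
      exact hab
    · rintro ⟨i, a⟩ (b | b)
      · rw [BI_adj]
        right
        refine ⟨bb i, hI ?_, by simp [ty]⟩
        revert i; decide
      · rw [BI_adj]
        left
        trivial
  have h1 : f {0, 1, 2} = 1 := hone _ (Finset.Subset.refl _)
  have h2 : f univ = 1 := hone _ (Finset.subset_univ _)
  have h3 := sum_mod3 f hrot hsum h01 h1 h2
  have h4 : f {3, 4, 5} = 1 := by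
    simp only [hf]
    rw [if_pos]
    refine PV.mono hP (Equiv.refl _) ?_ hK
    intro u v huv
    rw [BI_adj]
    simp only [Equiv.refl_apply]
    rcases u with ⟨i, a⟩ | a | a <;> rcases v with ⟨j, b⟩ | b | b
    · by_cases hij : i = j
      · left
        obtain ⟨h5, h6⟩ := huv
        refine ⟨h5, Or.inr ?_⟩
        rcases h6 with h6 | h6
        · exact absurd hij h6.1
        · exact h6
      · right
        refine ⟨kk i j, ?_, by simp [ty, hij]⟩
        clear huv
        revert i j; decide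
    · exact Or.inl huv
    · exact Or.inl huv
    · exact Or.inl huv
    · exact Or.inl huv
    · exact Or.inl huv
    · exact Or.inl huv
    · exact Or.inl huv
    · exact Or.inl huv
  have h5 : f ∅ = 1 := h3.trans h4
  have h6 : PV P (WC p x r) (BI H t ∅) := by
    by_contra hc
    simp only [hf, if_neg hc] at h5
    exact absurd h5 (by norm_num)
  have h7 : BI (p := p) (r := r) H t ∅ = WG p x r H (CT p t false) := by
    unfold BI
    simp
  rwa [h7] at h6

end Pool.Agent.H119R2.Kp
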