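import Mathlib
import Pool.Agent.H119R2.Kp.Defs
import Pool.Agent.H119R2.Kp.ChainB
import Pool.Agent.H119R2.Kp.ChainA
import Pool.Agent.H119R2.Kp.PVE

set_option autoImplicit false

/-! # The chain: from the join of three cliques to three empty blocks -/

namespace Pool.Agent.H119R2.Kp



/-- monotonicity in the graph on the blocks, up to a permutation of the block vertices -/
theorem PV_WG_mono {n q : ℕ} {P : SimpleGraph (Fin n) → Prop} (hP : GP n q P) {p x r : ℕ}
    (H : SimpleGraph (ZMod x)) {C C' : SimpleGraph (Fin 3 × ZMod p)}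
    (e : Fin 3 × ZMod p ≃ Fin 3 × ZMod p) (he : ∀ u v, C.Adj u v → C'.Adj (e u) (e v))
    (h : PV P _ (WG p x r H C)) : PV P _ (WG p x r H C') := by
  refine PV.mono hP (Equiv.sumCongr e (Equiv.refl _)) ?_ h
  rintro (u | u | u) (v | v | v) huv
  · exact he u v huv
  · exact huv
  · exact huv
  · exact huv
  · exact huv
  · exact huv
  · exact huv
  · exact huv
  · exact huv

theorem CT_top (p : ℕ) [Fact p.Prime] (hp : 2 < p) (u v : Fin 3 × ZMod p) (h : u ≠ v) :
    (CT p ((p - 1) / 2) true).Adj u v := by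
  refine ⟨h, ?_⟩
  by_cases h1 : u.1 = v.1
  · right
    refine ⟨h1, ?_⟩
    have h2 : v.2 - u.2 ≠ 0 := by
      intro h3
      exact h (Prod.ext h1 (sub_eq_zero.mp h3).symm)
    have hodd : p % 2 = 1 := by
      rcases (Fact.out : p.Prime).eq_two_or_odd with h3 | h3
      · omega
      · exact h3
    have hval : (v.2 - u.2).val ≠ 0 := by
      rw [ne_eq, ZMod.val_eq_zero]
      exact h2
    have hlt := ZMod.val_lt (v.2 - u.2)
    by_cases h3 : (v.2 - u.2).val ≤ (p - 1) / 2
    · refine ⟨(v.2 - u.2).val, by omega, h3, Or.inl ?_⟩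
      rw [ZMod.natCast_zmod_val]
      ring
    · refine ⟨p - (v.2 - u.2).val, by omega, by omega, Or.inr ?_⟩
      rw [Nat.cast_sub hlt.le, ZMod.natCast_zmod_val, ZMod.natCast_self]
      ring
  · left
    exact ⟨h1, rfl⟩

theorem CT_bot (p : ℕ) (u v : Fin 3 × ZMod p) : ¬ (CT p 0 false).Adj u v := by
  rintro ⟨_, ⟨_, h⟩ | ⟨_, d, h1, h2, _⟩⟩
  · exact Bool.noConfusion h
  · omega

/-- the chain -/
theorem chain {n q : ℕ} {P : SimpleGraph (Fin n) → Prop} (hP : GP n q P) (p x r : ℕ)
    [Fact p.Prime] (hp : 2 < p) (hx : 0 < x) (hn : 3 * p + x + r = n) (H : SimpleGraph (ZMod x))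
    (hH : ∀ a b, H.Adj a b → H.Adj (a + 1) (b + 1))
    (hU : ∀ G : SimpleGraph (WC p x r),
      (∀ a b, H.Adj a b → G.Adj (Sum.inr (Sum.inl a)) (Sum.inr (Sum.inl b))) →
      (∀ (u : Fin 3 × ZMod p) (v : ZMod x ⊕ Fin r), G.Adj (Sum.inl u) (Sum.inr v)) → PV P _ G)
    (hq : q < 3 * p * x + 3 * p * p) (hK : PV P _ (WG p x r H ⊤)) :
    PV P _ (WG p x r H ⊥) := by
  have hodd : p % 2 = 1 := by
    rcases (Fact.out : p.Prime).eq_two_or_odd with h3 | h3
    · omega
    · exact h3
  have h1 : ∀ t : ℕ, 2 * t < p → PV P _ (WG p x r H (CT p t true)) →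
      PV P _ (WG p x r H (CT p 0 false)) := by
    intro t
    induction t with
    | zero =>
      intro _ h
      exact chainA hP p x r 0 hx hn H hH hU hq h
    | succ t ih =>
      intro ht h
      have h2 := chainA hP p x r (t + 1) hx hn H hH hU hq h
      obtain ⟨e, he⟩ := chainB p (t + 1) (by omega) ht
      rw [Nat.add_sub_cancel] at he
      exact ih (by omega) (PV_WG_mono hP H e he h2)
  have h2 : PV P _ (WG p x r H (CT p ((p - 1) / 2) true)) :=
    PV_WG_mono hP H (Equiv.refl _) (fun u v huv => CT_top p hp u v huv) hK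
  have h3 := h1 ((p - 1) / 2) (by omega) h2
  exact PV_WG_mono hP H (Equiv.refl _) (fun u v huv => absurd huv (CT_bot p u v)) h3

end Pool.Agent.H119R2.Kp
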