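import Mathlib
import Pool.Agent.H119R2.Kp.Defs
import Pool.Agent.H119R2.Kp.D

set_option autoImplicit false

/-! MP_257582_lc: duality and the KSS reduction to the star case. -/

namespace Pool.Agent.H119R2.Kp

open Finset
open Pool.Agent.H98R2.Ev (EV toG NE)

theorem Dec.neg' {E : Type} [DecidableEq E] {q : ℕ} {D : Finset E → Prop}
    (h : Dec q D) : Dec q (fun S => ¬ D S) := by
  induction h with
  | const q D h =>
    refine Dec.const q _ ?_
    rcases h with h | h
    · exact Or.inr (fun S => not_not.mpr (h S))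
    · exact Or.inl h
  | node q D e h0 h1 ih0 ih1 => exact Dec.node q _ e ih0 ih1

theorem toG_adj' {V : Type} [DecidableEq V] (S : Finset (EV V)) (u v : V) :
    (toG S).Adj u v ↔ ∃ h : ¬ (s(u, v) : Sym2 V).IsDiag, (⟨s(u, v), h⟩ : EV V) ∈ S := by
  unfold toG
  rw [SimpleGraph.fromEdgeSet_adj]
  constructor
  · rintro ⟨h, _⟩
    exact h
  · rintro ⟨h, h'⟩
    exact ⟨⟨h, h'⟩, fun hh => h (by simpa using hh)⟩

theorem toG_compl' {V : Type} [Fintype V] [DecidableEq V] (S : Finset (EV V)) :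
    (toG S)ᶜ = toG (univ \ S) := by
  ext u v
  rw [SimpleGraph.compl_adj, toG_adj', toG_adj']
  constructor
  · rintro ⟨h1, h2⟩
    have hd : ¬ (s(u, v) : Sym2 V).IsDiag := by simpa using h1
    refine ⟨hd, ?_⟩
    rw [mem_sdiff]
    exact ⟨mem_univ _, fun h => h2 ⟨hd, h⟩⟩
  · rintro ⟨hd, h⟩
    rw [mem_sdiff] at h
    exact ⟨by simpa using hd, fun ⟨_, h'⟩ => h.2 h'⟩

theorem map_compl' {V W : Type} (e : V ≃ W) (G : SimpleGraph V) :
    (G.map e.toEmbedding)ᶜ = Gᶜ.map e.toEmbedding := by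
  ext u v
  rw [SimpleGraph.compl_adj, SimpleGraph.map_adj, SimpleGraph.map_adj]
  constructor
  · rintro ⟨h1, h2⟩
    refine ⟨e.symm u, e.symm v, ?_, by simp, by simp⟩
    rw [SimpleGraph.compl_adj]
    refine ⟨fun h => h1 (e.symm.injective h), fun h => h2 ⟨_, _, h, by simp, by simp⟩⟩
  · rintro ⟨a, b, h, rfl, rfl⟩
    rw [SimpleGraph.compl_adj] at h
    refine ⟨fun hh => h.1 (e.injective hh), ?_⟩
    rintro ⟨a', b', h', ha, hb⟩
    have ha' := e.injective ha
    have hb' := e.injective hb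
    subst ha' hb'
    exact h.2 h'

theorem GP.dual' {n q : ℕ} {P : SimpleGraph (Fin n) → Prop} (h : GP n q P) : GP n q (dual P) where
  mono := by
    intro G H hGH hG hH
    exact hG (h.mono _ _ (compl_le_compl hGH) hH)
  iso := by
    intro σ G hG hH
    apply hG
    rw [map_compl'] at hH
    have h2 := h.iso σ.symm _ hH
    rw [SimpleGraph.map_map] at h2
    have e1 : (⇑σ.symm.toEmbedding ∘ ⇑σ.toEmbedding) = id := by
      funext x
      simp
    rw [e1] at h2
    rwa [SimpleGraph.map_id] at h2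
  dec := by
    have h1 : Dec q (fun S : Finset (EV (Fin n)) => P (toG (univ \ S))) := by
      refine Dec.comap h.dec (fun S => univ \ S) ?_
      intro e
      refine Or.inr (Or.inr (Or.inr ⟨e, fun S => ?_⟩))
      simp
    have h2 := h1.neg'
    have h3 : (fun S : Finset (EV (Fin n)) => dual P (toG S)) =
        (fun S : Finset (EV (Fin n)) => ¬ P (toG (univ \ S))) := by
      funext S
      unfold dual
      rw [toG_compl']
    rw [h3]
    exact h2

theorem Star.dual' {n : ℕ} {P : SimpleGraph (Fin n) → Prop} (h : Star n P) : Star n (dual P) where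
  isol := by
    rintro G ⟨v, hv⟩ hG
    refine hG (h.univ _ ⟨v, fun w hw => ?_⟩)
    rw [SimpleGraph.compl_adj]
    exact ⟨hw.symm, hv w⟩
  univ := by
    rintro G ⟨v, hv⟩ hG
    refine h.isol _ ⟨v, fun w hw => ?_⟩ hG
    rw [SimpleGraph.compl_adj] at hw
    exact hw.2 (hv w hw.1.symm)

/-- the embedding of the edges -/
def eemb (k : ℕ) (e : EV (Fin k)) : EV (Fin (k + 1)) :=
  ⟨Sym2.map Fin.castSucc e.1, by
    intro h
    apply e.2
    revert h
    refine Sym2.ind (fun a b => ?_) e.1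
    simp [Sym2.map_mk]⟩

theorem eemb_inj (k : ℕ) : Function.Injective (eemb k) := by
  intro a b h
  apply Subtype.ext
  have h1 := congrArg Subtype.val h
  exact Sym2.map.injective (Fin.castSucc_injective k) h1

theorem toG_eemb {k : ℕ} (S : Finset (EV (Fin k))) :
    (toG S).map (Fin.castSuccEmb (n := k)) = toG (S.image (eemb k)) := by
  ext u v
  rw [SimpleGraph.map_adj, toG_adj']
  constructor
  · rintro ⟨a, b, hab, rfl, rfl⟩
    rw [toG_adj'] at hab
    obtain ⟨hd, hS⟩ := hab
    have hd' : ¬ (s(a.castSucc, b.castSucc) : Sym2 (Fin (k + 1))).IsDiag := by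
      intro h
      apply hd
      simpa using h
    refine ⟨hd', ?_⟩
    rw [mem_image]
    exact ⟨_, hS, Subtype.ext rfl⟩
  · rintro ⟨hd, hS⟩
    rw [mem_image] at hS
    obtain ⟨⟨e, he⟩, heS, hee⟩ := hS
    have h1 : Sym2.map Fin.castSucc e = s(u, v) := congrArg Subtype.val hee
    revert h1 he
    refine Sym2.ind (fun a b => ?_) e
    intro he heS _ h1
    rw [Sym2.map_mk, Sym2.eq_iff] at h1
    rcases h1 with ⟨h1, h2⟩ | ⟨h1, h2⟩
    · exact ⟨a, b, (toG_adj' _ _ _).2 ⟨he, heS⟩, h1, h2⟩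
    · exact ⟨b, a, ((toG_adj' _ _ _).2 ⟨he, heS⟩).symm, h2, h1⟩

/-- one step of the reduction -/
theorem kss_step {k q : ℕ} (P : SimpleGraph (Fin (k + 1)) → Prop) (h : GP (k + 1) q P)
    (hv : ∃ (G : SimpleGraph (Fin (k + 1))) (v : Fin (k + 1)), (∀ w, ¬ G.Adj v w) ∧ P G)
    (h0 : ∃ G, ¬ P G) :
    ∃ P' : SimpleGraph (Fin k) → Prop, GP k q P' ∧ (∃ G, P' G) ∧ (∃ G, ¬ P' G) := by
  refine ⟨fun G => P (G.map (Fin.castSuccEmb (n := k))), ?_, ?_, ?_⟩
  · refine ⟨?_, ?_, ?_⟩
    · intro G H hGH hG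
      exact h.mono _ _ (SimpleGraph.map_monotone _ hGH) hG
    · intro σ G hG
      have h1 := h.iso (Equiv.Perm.viaEmbedding σ (Fin.castSuccEmb (n := k))) _ hG
      rw [SimpleGraph.map_map] at h1 ⊢
      have e1 : (⇑(Equiv.Perm.viaEmbedding σ (Fin.castSuccEmb (n := k))).toEmbedding ∘
          ⇑(Fin.castSuccEmb (n := k))) = (⇑(Fin.castSuccEmb (n := k)) ∘ ⇑σ.toEmbedding) := by
        funext x
        exact Equiv.Perm.viaEmbedding_apply σ (Fin.castSuccEmb (n := k)) x
      rwa [e1] at h1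
    · have h1 : Dec q (fun S : Finset (EV (Fin k)) => P (toG (S.image (eemb k)))) := by
        refine Dec.comap h.dec (fun S => S.image (eemb k)) ?_
        intro e
        by_cases he : ∃ e', eemb k e' = e
        · obtain ⟨e', rfl⟩ := he
          refine Or.inr (Or.inr (Or.inl ⟨e', fun S => ?_⟩))
          rw [mem_image]
          constructor
          · rintro ⟨a, ha, hae⟩
            rwa [← eemb_inj k hae]
          · intro h
            exact ⟨e', h, rfl⟩
        · refine Or.inr (Or.inl (fun S hS => ?_))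
          rw [mem_image] at hS
          obtain ⟨a, _, ha⟩ := hS
          exact he ⟨a, ha⟩
      have h3 : (fun S : Finset (EV (Fin k)) => P ((toG S).map (Fin.castSuccEmb (n := k)))) =
          (fun S : Finset (EV (Fin k)) => P (toG (S.image (eemb k)))) := by
        funext S
        rw [toG_eemb]
      change Dec q (fun S : Finset (EV (Fin k)) => P ((toG S).map (Fin.castSuccEmb (n := k))))
      rw [h3]
      exact h1
  · obtain ⟨G, v, hv1, hv2⟩ := hv
    refine ⟨⊤, ?_⟩
    refine h.mono _ _ ?_ (h.iso (Equiv.swap v (Fin.last k)) G hv2)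
    intro a b hab
    rw [SimpleGraph.map_adj] at hab ⊢
    obtain ⟨x, y, hxy, rfl, rfl⟩ := hab
    have hx : x ≠ v := by
      rintro rfl
      exact hv1 _ hxy
    have hy : y ≠ v := by
      rintro rfl
      exact hv1 _ hxy.symm
    have key : ∀ z, z ≠ v → Equiv.swap v (Fin.last k) z ≠ Fin.last k := by
      intro z hz h
      apply hz
      apply (Equiv.swap v (Fin.last k)).injective
      rw [h, Equiv.swap_apply_left]
    refine ⟨(Equiv.swap v (Fin.last k) x).castPred (key x hx),
      (Equiv.swap v (Fin.last k) y).castPred (key y hy), ?_, by simp, by simp⟩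
    rw [SimpleGraph.top_adj]
    intro h
    have h2 := congrArg Fin.castSucc h
    rw [Fin.castSucc_castPred, Fin.castSucc_castPred] at h2
    exact hxy.ne ((Equiv.swap v (Fin.last k)).injective h2)
  · obtain ⟨G, hG⟩ := h0
    refine ⟨⊥, fun hb => hG (h.mono _ _ ?_ hb)⟩
    intro a b hab
    rw [SimpleGraph.map_adj] at hab
    obtain ⟨x, y, hxy, _⟩ := hab
    exact absurd hxy (by simp)

/-- KSS reduction -/
theorem kss {n q : ℕ} (P : SimpleGraph (Fin n) → Prop) (h : GP n q P) (h1 : ∃ G, P G)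
    (h0 : ∃ G, ¬ P G) (m : ℕ) (hm : 1 ≤ m) (hmn : m ≤ n) :
    (∃ n', m < n' ∧ n' ≤ n ∧ ∃ P' : SimpleGraph (Fin n') → Prop, GP n' q P' ∧ Star n' P') ∨
    (∃ P' : SimpleGraph (Fin m) → Prop, GP m q P' ∧ (∃ G, P' G) ∧ (∃ G, ¬ P' G)) := by
  induction n, hmn using Nat.le_induction with
  | base => exact Or.inr ⟨P, h, h1, h0⟩
  | succ k hk ih =>
    by_cases hS : Star (k + 1) P
    · exact Or.inl ⟨k + 1, by omega, le_rfl, P, h, hS⟩
    · have hex : ∃ P' : SimpleGraph (Fin k) → Prop, GP k q P' ∧ (∃ G, P' G) ∧ (∃ G, ¬ P' G) := by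
        by_cases ha : ∃ (G : SimpleGraph (Fin (k + 1))) (v : Fin (k + 1)),
            (∀ w, ¬ G.Adj v w) ∧ P G
        · exact kss_step P h ha h0
        · have hb : ∃ (G : SimpleGraph (Fin (k + 1))) (v : Fin (k + 1)),
              (∀ w, w ≠ v → G.Adj v w) ∧ ¬ P G := by
            by_contra hcon
            apply hS
            refine ⟨?_, ?_⟩
            · rintro G ⟨v, hv⟩ hG
              exact ha ⟨G, v, hv, hG⟩
            · rintro G ⟨v, hv⟩
              by_contra hG
              exact hcon ⟨G, v, hv, hG⟩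
          obtain ⟨G, v, hv, hG⟩ := hb
          refine kss_step (dual P) h.dual' ⟨Gᶜ, v, ?_, ?_⟩ ?_
          · intro w hw
            rw [SimpleGraph.compl_adj] at hw
            exact hw.2 (hv w hw.1.symm)
          · unfold dual
            rwa [compl_compl]
          · obtain ⟨G', hG'⟩ := h1
            refine ⟨G'ᶜ, ?_⟩
            unfold dual
            rw [compl_compl]
            exact not_not.mpr hG'
      obtain ⟨P', hP', h1', h0'⟩ := hex
      rcases ih P' hP' h1' h0' with ⟨n', hn1, hn2, P'', hP''⟩ | h3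
      · exact Or.inl ⟨n', hn1, by omega, P'', hP''⟩
      · exact Or.inr h3

end Pool.Agent.H119R2.Kp
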