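import Mathlib
import Pool.Agent.H119R2.Kp.Defs
import Pool.Agent.H119R2.Kp.D4
import Pool.Agent.H119R2.Kp.PVE
import Pool.Agent.H119R2.Kp.Chain

set_option autoImplicit false

/-! # Task FA: disc3, codisc3, hub1, hub2 (helper911) -/

namespace Pool.Agent.H119R2.Kp

open Finset
open Pool.Agent.H98R2.Ev (EV toG NE)


namespace FA

lemma map_adj {V W : Type} (G : SimpleGraph V) (e : V ≃ W) (a b : W) :
    (G.map e.toEmbedding).Adj a b ↔ G.Adj (e.symm a) (e.symm b) := by
  rw [SimpleGraph.map_adj]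
  constructor
  · rintro ⟨u, v, h, hu, hv⟩
    have hu' : e u = a := hu
    have hv' : e v = b := hv
    rw [← hu', ← hv', Equiv.symm_apply_apply, Equiv.symm_apply_apply]
    exact h
  · intro h
    exact ⟨e.symm a, e.symm b, h, e.apply_symm_apply a, e.apply_symm_apply b⟩

/-- a colouring with prescribed class sizes gives a bijection with the standard vertex set -/
lemma exists_equiv {V : Type} [Fintype V] {k : ℕ} (s : Fin k → ℕ) (f : V → Fin k)
    (hf : ∀ i, ∑ v, (if f v = i then 1 else 0) = s i) :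
    ∃ e : V ≃ Σ i, Fin (s i), ∀ v, (e v).1 = f v := by
  classical
  have h : ∀ i : Fin k, Nonempty ({v // f v = i} ≃ {w : Σ i, Fin (s i) // w.1 = i}) := by
    intro i
    refine ⟨Fintype.equivOfCardEq ?_⟩
    rw [Fintype.card_congr (Equiv.sigmaSubtype i), Fintype.card_fin, Fintype.card_subtype,
      Finset.card_filter]
    exact hf i
  exact ⟨Equiv.ofFiberEquiv (g := fun w : Σ i, Fin (s i) => w.1) (fun i => (h i).some),
    fun v => Equiv.ofFiberEquiv_map (g := fun w : Σ i, Fin (s i) => w.1)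
      (fun i => (h i).some) v⟩

lemma hv_eq_one_iff {n : ℕ} (P : SimpleGraph (Fin n) → Prop) {k : ℕ} (s : Fin k → ℕ)
    (Γ : Fin k → Fin k → Bool) : hv P s Γ = 1 ↔ PV P _ (BU s Γ) := by
  unfold hv
  split_ifs with h <;> simp [h]

lemma hv_eq_zero_iff {n : ℕ} (P : SimpleGraph (Fin n) → Prop) {k : ℕ} (s : Fin k → ℕ)
    (Γ : Fin k → Fin k → Bool) : hv P s Γ = 0 ↔ ¬ PV P _ (BU s Γ) := by
  unfold hv
  split_ifs with h <;> simp [h]

lemma to_hv {n q : ℕ} {P : SimpleGraph (Fin n) → Prop} (hP : GP n q P) {V : Type} [Fintype V]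
    {k : ℕ} (s : Fin k → ℕ) (Γ : Fin k → Fin k → Bool) (f : V → Fin k)
    (hf : ∀ i, ∑ v, (if f v = i then 1 else 0) = s i) (G : SimpleGraph V)
    (hG : ∀ u v, G.Adj u v → (Γ (f u) (f v) = true ∨ Γ (f v) (f u) = true))
    (h : PV P V G) : hv P s Γ = 1 := by
  obtain ⟨e, he⟩ := exists_equiv s f hf
  rw [hv_eq_one_iff]
  refine PV.mono hP e ?_ h
  intro u v huv
  refine ⟨fun hc => huv.ne (e.injective hc), ?_⟩
  rw [he, he]
  exact hG u v huv

lemma of_hv {n q : ℕ} {P : SimpleGraph (Fin n) → Prop} (hP : GP n q P) {V : Type} [Fintype V]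
    {k : ℕ} (s : Fin k → ℕ) (Γ : Fin k → Fin k → Bool) (f : V → Fin k)
    (hf : ∀ i, ∑ v, (if f v = i then 1 else 0) = s i) (G : SimpleGraph V)
    (hG : ∀ u v, u ≠ v → (Γ (f u) (f v) = true ∨ Γ (f v) (f u) = true) → G.Adj u v)
    (h : hv P s Γ = 1) : PV P V G := by
  obtain ⟨e, he⟩ := exists_equiv s f hf
  rw [hv_eq_one_iff] at h
  refine PV.mono hP e.symm ?_ h
  intro u v huv
  obtain ⟨h1, h2⟩ := huv
  apply hG
  · exact fun hc => h1 (e.symm.injective hc)
  · rw [← he, ← he, Equiv.apply_symm_apply, Equiv.apply_symm_apply]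
    exact h2

lemma PV_univ {n : ℕ} {P : SimpleGraph (Fin n) → Prop} (hS : Star n P) {V : Type} [Fintype V]
    (hV : Fintype.card V = n) (G : SimpleGraph V) (v : V) (hv : ∀ w, w ≠ v → G.Adj v w) :
    PV P V G := by
  refine ⟨Fintype.equivFinOfCardEq hV, hS.univ _ ⟨Fintype.equivFinOfCardEq hV v, ?_⟩⟩
  intro w hw
  rw [map_adj, Equiv.symm_apply_apply]
  apply hv
  intro hc
  apply hw
  rw [← hc, Equiv.apply_symm_apply]

lemma not_PV_isol {n : ℕ} {P : SimpleGraph (Fin n) → Prop} (hS : Star n P) {V : Type}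
    (G : SimpleGraph V) (v : V) (hv : ∀ w, ¬ G.Adj v w) : ¬ PV P V G := by
  rintro ⟨e, he⟩
  refine hS.isol _ ⟨e v, ?_⟩ he
  intro w hw
  rw [map_adj, Equiv.symm_apply_apply] at hw
  exact hv _ hw

lemma sum_zmod (m : ℕ) [NeZero m] (g : ℕ → ℕ) : ∑ a : ZMod m, g a.val = ∑ j ∈ range m, g j := by
  cases m with
  | zero => exact absurd rfl (NeZero.ne 0)
  | succ m => exact Fin.sum_univ_eq_sum_range g (m + 1)

lemma sum_even (y : ℕ) : ∑ j ∈ range (2 * y), (if Even j then 1 else 0) = y := by
  induction y with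
  | zero => simp
  | succ y ih =>
    rw [mul_add, mul_one, Finset.sum_range_succ, Finset.sum_range_succ, ih]
    have h1 : Even (2 * y) := ⟨y, by ring⟩
    have h2 : ¬ Even (2 * y + 1) := by
      rw [Nat.not_even_iff_odd]
      exact ⟨y, rfl⟩
    simp [h1, h2]

lemma sum_odd (y : ℕ) : ∑ j ∈ range (2 * y), (if Even j then 0 else 1) = y := by
  induction y with
  | zero => simp
  | succ y ih =>
    rw [mul_add, mul_one, Finset.sum_range_succ, Finset.sum_range_succ, ih]
    have h1 : Even (2 * y) := ⟨y, by ring⟩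
    have h2 : ¬ Even (2 * y + 1) := by
      rw [Nat.not_even_iff_odd]
      exact ⟨y, rfl⟩
    simp [h1, h2]

lemma sum_par {k : ℕ} (y : ℕ) [NeZero (2 * y)] (c0 c1 i : Fin k) :
    ∑ a : ZMod (2 * y), (if (if Even a.val then c0 else c1) = i then 1 else 0) =
      (if c0 = i then y else 0) + (if c1 = i then y else 0) := by
  have hev : ∑ a : ZMod (2 * y), (if Even a.val then 1 else 0) = y :=
    (sum_zmod (2 * y) (fun j => if Even j then 1 else 0)).trans (sum_even y)
  have hod : ∑ a : ZMod (2 * y), (if Even a.val then 0 else 1) = y :=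
    (sum_zmod (2 * y) (fun j => if Even j then 0 else 1)).trans (sum_odd y)
  have h1 : ∀ a : ZMod (2 * y), (if (if Even a.val then c0 else c1) = i then 1 else 0) =
      (if c0 = i then (if Even a.val then 1 else 0) else 0) +
        (if c1 = i then (if Even a.val then 0 else 1) else 0 : ℕ) := by
    intro a
    by_cases ha : Even a.val
    · simp [ha]
    · simp [ha]
  rw [Finset.sum_congr rfl (fun a _ => h1 a), Finset.sum_add_distrib]
  congr 1
  · split_ifs with h
    · exact hev
    · simp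
  · split_ifs with h
    · exact hod
    · simp

/-- colouring of the vertices by three colours -/
def col {p x r k : ℕ} (c : Fin k) (g : ZMod x → Fin k) (d : Fin k) : WC p x r → Fin k
  | .inl _ => c
  | .inr (.inl a) => g a
  | .inr (.inr _) => d

lemma sum_col {p x r k : ℕ} [NeZero p] [NeZero x] (c : Fin k) (g : ZMod x → Fin k) (d : Fin k)
    (i : Fin k) : ∑ v : WC p x r, (if col c g d v = i then 1 else 0) =
      (if c = i then 3 * p else 0) + ((∑ a : ZMod x, if g a = i then 1 else 0) +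
        (if d = i then r else 0)) := by
  rw [Fintype.sum_sum_type, Fintype.sum_sum_type]
  congr 1
  · have h0 : ∀ u : Fin 3 × ZMod p, (if col (r := r) c g d (Sum.inl u) = i then 1 else 0) =
        (if c = i then 1 else 0 : ℕ) := fun _ => rfl
    rw [Finset.sum_congr rfl (fun u _ => h0 u), Finset.sum_const]
    split_ifs with h
    · simp
    · simp
  · congr 1
    have h0 : ∀ u : Fin r, (if col (p := p) c g d (Sum.inr (Sum.inr u)) = i then 1 else 0) =
        (if d = i then 1 else 0 : ℕ) := fun _ => rfl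
    rw [Finset.sum_congr rfl (fun u _ => h0 u), Finset.sum_const]
    split_ifs with h
    · simp
    · simp

lemma card_WC {p x r : ℕ} [NeZero p] [NeZero x] : Fintype.card (WC p x r) = 3 * p + (x + r) := by
  simp only [WC, Fintype.card_sum, Fintype.card_prod, ZMod.card, Fintype.card_fin]

/-- two cliques on a cyclic group of even order -/
def HH (m : ℕ) : SimpleGraph (ZMod m) where
  Adj a b := a ≠ b ∧ (Even a.val ↔ Even b.val)
  symm := ⟨fun _ _ h => ⟨h.1.symm, h.2.symm⟩⟩
  loopless := ⟨fun _ h => h.1 rfl⟩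

lemma even_succ (y : ℕ) [NeZero (2 * y)] (a : ZMod (2 * y)) : Even (a + 1).val ↔ ¬ Even a.val := by
  have h1 : (a + 1).val = (a.val + 1) % (2 * y) := by
    have h2 : 1 < 2 * y := by
      have := NeZero.ne (2 * y)
      omega
    haveI : Fact (1 < 2 * y) := ⟨h2⟩
    rw [ZMod.val_add, ZMod.val_one]
  rw [h1, Nat.even_iff, Nat.mod_mod_of_dvd _ (Dvd.intro _ rfl), Nat.even_iff]
  omega

end FA

open FA in
theorem disc3 {n q : ℕ} {P : SimpleGraph (Fin n) → Prop} (hP : GP n q P) (hS : Star n P)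
    (p x : ℕ) [Fact p.Prime] (hp : 3 < p) (hx : 0 < x) (hn : x + 3 * p = n)
    (hq : q < 3 * p * x + 3 * p * p) :
    hv P ![x, 3 * p] (pat [(0, 0), (1, 1)]) = 0 := by
  haveI : NeZero x := ⟨hx.ne'⟩
  haveI : NeZero p := ⟨(Fact.out : p.Prime).ne_zero⟩
  rcases hv01 P ![x, 3 * p] (pat [(0, 0), (1, 1)]) with h | h
  · exact h
  exfalso
  have hK : PV P _ (WG p x 0 ⊤ ⊤) := by
    refine of_hv hP _ _ (col 1 (fun _ => 0) 1) ?_ _ ?_ h
    · intro i
      rw [sum_col]
      fin_cases i <;> simp
    · rintro (u | u | u) (v | v | v) huv h1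
      · exact fun hc => huv (by rw [hc])
      · simp [col, pat] at h1
      · exact v.elim0
      · simp [col, pat] at h1
      · exact fun hc => huv (by rw [hc])
      · exact v.elim0
      · exact u.elim0
      · exact u.elim0
      · exact u.elim0
  have h2 := chain hP p x 0 (by omega) hx (by omega) ⊤ (fun a b h => by simpa using h) (by
    intro G h3 h4
    refine PV_univ hS (by rw [card_WC]; omega) G (Sum.inr (Sum.inl 0)) ?_
    rintro (w | w | w) hw
    · exact (h4 w (Sum.inl 0)).symm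
    · exact h3 _ _ (fun hc => hw (by rw [hc]))
    · exact w.elim0) hq hK
  refine not_PV_isol hS _ (Sum.inl (0, 0)) ?_ h2
  rintro (w | w | w) hw
  · exact hw
  · exact hw
  · exact w.elim0

open FA in
theorem codisc3 {n q : ℕ} {P : SimpleGraph (Fin n) → Prop} (hP : GP n q P) (hS : Star n P)
    (p x : ℕ) [Fact p.Prime] (hp : 3 < p) (hx : 0 < x) (hn : x + 3 * p = n)
    (hq : q < 3 * p * x + 3 * p * p) :
    hv P ![x, 3 * p] (pat [(0, 1)]) = 1 := by
  have h := disc3 hP.dual' hS.dual' p x hp hx hn hq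
  rw [hv_eq_zero_iff, PV_dual hP, not_not] at h
  · rw [hv_eq_one_iff]
    refine PV.mono hP (Equiv.refl _) ?_ h
    intro u v huv
    rw [SimpleGraph.compl_adj] at huv
    obtain ⟨h1, h2⟩ := huv
    refine ⟨h1, ?_⟩
    simp only [Equiv.refl_apply]
    obtain ⟨i, a⟩ := u
    obtain ⟨j, b⟩ := v
    by_contra h3
    apply h2
    refine ⟨h1, ?_⟩
    revert h3
    simp only [pat]
    fin_cases i <;> fin_cases j <;> simp
  · refine ⟨Fintype.equivFinOfCardEq ?_⟩
    rw [Fintype.card_sigma]
    simp [Fin.sum_univ_succ]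
    exact hn

open FA in
lemma FA.hubU {n q : ℕ} {P : SimpleGraph (Fin n) → Prop} (hP : GP n q P) (hS : Star n P)
    (p x r : ℕ) [Fact p.Prime] (hp : 3 < p) (hx : 0 < x) (hn : x + r + 3 * p = n)
    (hq : q < 3 * p * x + 3 * p * p) (G : SimpleGraph (WC p x r))
    (h4 : ∀ (u : Fin 3 × ZMod p) (v : ZMod x ⊕ Fin r), G.Adj (Sum.inl u) (Sum.inr v)) :
    PV P _ G := by
  haveI : NeZero x := ⟨hx.ne'⟩
  haveI : NeZero p := ⟨(Fact.out : p.Prime).ne_zero⟩
  have h := codisc3 hP hS p (x + r) hp (by omega) hn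
    (lt_of_lt_of_le hq (by nlinarith [Nat.zero_le (3 * p * r)]))
  refine of_hv hP _ _ (col 1 (fun _ => 0) 0) ?_ _ ?_ h
  · intro i
    rw [sum_col]
    fin_cases i <;> simp
  · rintro (u | u | u) (v | v | v) huv h1
    · simp [col, pat] at h1
    · exact h4 _ _
    · exact h4 _ _
    · exact (h4 _ _).symm
    · simp [col, pat] at h1
    · simp [col, pat] at h1
    · exact (h4 _ _).symm
    · simp [col, pat] at h1
    · simp [col, pat] at h1

open FA in
theorem hub1 {n q : ℕ} {P : SimpleGraph (Fin n) → Prop} (hP : GP n q P) (hS : Star n P)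
    (p y r : ℕ) [Fact p.Prime] (hp : 3 < p) (hy : 0 < y) (hr : 0 < r) (hn : y + r + 3 * p = n)
    (hq : q < 3 * p * y + 3 * p * p)
    (h : hv P ![y, r + 3 * p] (pat [(0, 0), (1, 1)]) = 1) :
    hv P ![y, r, 3 * p] (pat [(0, 0), (1, 1), (1, 2)]) = 1 := by
  haveI : NeZero y := ⟨hy.ne'⟩
  haveI : NeZero p := ⟨(Fact.out : p.Prime).ne_zero⟩
  have hK : PV P _ (WG p y r ⊤ ⊤) := by
    refine of_hv hP _ _ (col 1 (fun _ => 0) 1) ?_ _ ?_ h
    · intro i
      rw [sum_col]
      fin_cases i <;> simp [add_comm]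
    · rintro (u | u | u) (v | v | v) huv h1
      · exact fun hc => huv (by rw [hc])
      · simp [col, pat] at h1
      · trivial
      · simp [col, pat] at h1
      · exact fun hc => huv (by rw [hc])
      · simp [col, pat] at h1
      · trivial
      · simp [col, pat] at h1
      · exact fun hc => huv (by rw [hc])
  have h2 := chain hP p y r (by omega) hy (by omega) ⊤ (fun a b h => by simpa using h)
    (fun G _ h4 => FA.hubU hP hS p y r hp hy hn hq G h4) hq hK
  refine to_hv hP _ _ (col 2 (fun _ => 0) 1) ?_ _ ?_ h2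
  · intro i
    rw [sum_col]
    fin_cases i <;> simp
  · rintro (u | u | u) (v | v | v) huv
    · exact absurd huv (by simp [WG])
    · exact absurd huv (by simp [WG])
    · simp [col, pat]
    · exact absurd huv (by simp [WG])
    · simp [col, pat]
    · exact absurd huv (by simp [WG])
    · simp [col, pat]
    · exact absurd huv (by simp [WG])
    · simp [col, pat]

open FA in
theorem hub2 {n q : ℕ} {P : SimpleGraph (Fin n) → Prop} (hP : GP n q P) (hS : Star n P)
    (p y r : ℕ) [Fact p.Prime] (hp : 3 < p) (hy : 0 < y) (hr : 0 < r) (hn : 2 * y + r + 3 * p = n)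
    (hq : q < 3 * p * (2 * y) + 3 * p * p)
    (h : hv P ![y, y, r + 3 * p] (pat [(0, 0), (1, 1), (2, 2)]) = 1) :
    hv P ![y, y, r, 3 * p] (pat [(0, 0), (1, 1), (2, 2), (2, 3)]) = 1 := by
  haveI : NeZero (2 * y) := ⟨by omega⟩
  haveI : NeZero p := ⟨(Fact.out : p.Prime).ne_zero⟩
  have hK : PV P _ (WG p (2 * y) r (HH (2 * y)) ⊤) := by
    refine of_hv hP _ _ (col 2 (fun a => if Even a.val then 0 else 1) 2) ?_ _ ?_ h
    · intro i
      rw [sum_col, sum_par]
      fin_cases i <;> simp [add_comm]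
    · rintro (u | u | u) (v | v | v) huv h1
      · exact fun hc => huv (by rw [hc])
      · simp only [col, pat] at h1
        split_ifs at h1 <;> simp at h1
      · trivial
      · simp only [col, pat] at h1
        split_ifs at h1 <;> simp at h1
      · refine ⟨fun hc => huv (by rw [hc]), ?_⟩
        simp only [col, pat] at h1
        by_cases hu : Even u.val <;> by_cases hv : Even v.val <;> simp [hu, hv] at h1 ⊢
      · simp only [col, pat] at h1
        split_ifs at h1 <;> simp at h1
      · trivial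
      · simp only [col, pat] at h1
        split_ifs at h1 <;> simp at h1
      · exact fun hc => huv (by rw [hc])
  have h2 := chain hP p (2 * y) r (by omega) (by omega) (by omega) (HH (2 * y)) (by
    intro a b hab
    refine ⟨fun hc => hab.1 (add_right_cancel hc), ?_⟩
    rw [even_succ, even_succ, hab.2])
    (fun G _ h4 => FA.hubU hP hS p (2 * y) r hp (by omega) hn hq G h4) hq hK
  refine to_hv hP _ _ (col 3 (fun a => if Even a.val then 0 else 1) 2) ?_ _ ?_ h2
  · intro i
    rw [sum_col, sum_par]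
    fin_cases i <;> simp
  · rintro (u | u | u) (v | v | v) huv
    · exact absurd huv (by simp [WG])
    · exact absurd huv (by simp [WG])
    · simp [col, pat]
    · exact absurd huv (by simp [WG])
    · obtain ⟨_, h3⟩ := huv
      simp only [col, pat]
      by_cases hu : Even u.val
      · simp [hu, h3.mp hu]
      · have hv : ¬ Even v.val := fun hc => hu (h3.mpr hc)
        simp [hu, hv]
    · exact absurd huv (by simp [WG])
    · simp [col, pat]
    · exact absurd huv (by simp [WG])
    · simp [col, pat]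

end Pool.Agent.H119R2.Kp
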