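import Mathlib
import Pool.Agent.H119R2.Kp.Defs
import Pool.Agent.H119R2.Kp.PVE
import Pool.Agent.H119R2.Kp.Rel

set_option autoImplicit false

namespace Pool.Agent.H119R2.Kp

open Finset
open Pool.Agent.H98R2.Ev (EV toG NE)


namespace Sw

/-- vertices: a cyclic part, `l` blocks and two blocks which are swapped -/
abbrev W (l x p : ℕ) : Type := ZMod x ⊕ ((Fin l ⊕ Bool) × ZMod p)

/-- block number -/
def bn {l : ℕ} : Fin l ⊕ Bool → Fin (l + 2)
  | Sum.inl i => i.castSucc.castSucc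
  | Sum.inr false => (Fin.last l).castSucc
  | Sum.inr true => Fin.last (l + 1)

theorem bn_inj {l : ℕ} : Function.Injective (bn (l := l)) := by
  rintro (i | (_ | _)) (j | (_ | _)) h <;> simp [bn, Fin.ext_iff] at h ⊢
  · exact h
  · have := i.isLt; omega
  · have := i.isLt; omega
  · have := j.isLt; omega
  · have := j.isLt; omega

/-- the part of a vertex -/
def prt {l x p : ℕ} : W l x p → Fin (l + 3)
  | Sum.inl _ => 0
  | Sum.inr (b, _) => (bn b).succ

/-- the swap of the last two parts -/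
def sw (l : ℕ) : Equiv.Perm (Fin (l + 3)) :=
  Equiv.swap (Fin.last l).castSucc.succ (Fin.last (l + 2))

/-- translation of block `b` -/
def tr {l x p : ℕ} (b : Fin l ⊕ Bool) (t : ZMod p) : Equiv.Perm (W l x p) :=
  Equiv.sumCongr (Equiv.refl _)
    (Equiv.prodShear (Equiv.refl _) (fun b' => Equiv.addRight (if b' = b then t else 0)))

@[simp] theorem tr_inl {l x p : ℕ} (b : Fin l ⊕ Bool) (t : ZMod p) (a : ZMod x) :
    tr b t (Sum.inl a : W l x p) = Sum.inl a := rfl

@[simp] theorem tr_inr {l x p : ℕ} (b b' : Fin l ⊕ Bool) (t u : ZMod p) :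
    tr b t (Sum.inr (b', u) : W l x p) = Sum.inr (b', u + if b' = b then t else 0) := rfl

/-- rotation and swap -/
def rc {l x p : ℕ} (μ : (ZMod p)ˣ) : Equiv.Perm (W l x p) :=
  Equiv.sumCongr (Equiv.addRight 1)
    (Equiv.prodShear (Equiv.sumCongr (Equiv.refl _) Equiv.boolNot)
      (fun b => if b = Sum.inr true then Units.mulLeft μ else Equiv.refl _))

@[simp] theorem rc_inl {l x p : ℕ} (μ : (ZMod p)ˣ) (a : ZMod x) :
    rc μ (Sum.inl a : W l x p) = Sum.inl (a + 1) := rfl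

@[simp] theorem rc_blk {l x p : ℕ} (μ : (ZMod p)ˣ) (i : Fin l) (u : ZMod p) :
    rc μ (Sum.inr (Sum.inl i, u) : W l x p) = Sum.inr (Sum.inl i, u) := by
  simp [rc]

@[simp] theorem rc_false {l x p : ℕ} (μ : (ZMod p)ˣ) (u : ZMod p) :
    rc μ (Sum.inr (Sum.inr false, u) : W l x p) = Sum.inr (Sum.inr true, u) := by
  simp [rc]

@[simp] theorem rc_true {l x p : ℕ} (μ : (ZMod p)ˣ) (u : ZMod p) :
    rc μ (Sum.inr (Sum.inr true, u) : W l x p) = Sum.inr (Sum.inr false, μ * u) := by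
  simp [rc]

theorem prt_tr {l x p : ℕ} (b : Fin l ⊕ Bool) (t : ZMod p) (w : W l x p) :
    prt (tr b t w) = prt w := by
  rcases w with a | ⟨b', u⟩ <;> rfl

theorem prt_rc {l x p : ℕ} (μ : (ZMod p)ˣ) (w : W l x p) :
    prt (rc μ w) = sw l (prt w) := by
  rcases w with a | ⟨i | (_ | _), u⟩
  · simp only [rc_inl, prt, sw]
    rw [Equiv.swap_apply_of_ne_of_ne]
    · simp [Fin.ext_iff]
    · simp [Fin.ext_iff]
  · simp only [rc_blk, prt, sw, bn]
    rw [Equiv.swap_apply_of_ne_of_ne]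
    · have := i.isLt; simp [Fin.ext_iff]; omega
    · have := i.isLt; simp [Fin.ext_iff]; omega
  · simp only [rc_false, prt, sw, bn]
    rw [Equiv.swap_apply_left]
    simp [Fin.ext_iff]
  · simp only [rc_true, prt, sw, bn]
    have : (Fin.last (l+1)).succ = Fin.last (l + 2) := by simp [Fin.ext_iff]
    rw [this, Equiv.swap_apply_right]

theorem tr_add {l x p : ℕ} (b : Fin l ⊕ Bool) (t t' : ZMod p) :
    (tr b t * tr b t' : Equiv.Perm (W l x p)) = tr b (t + t') := by
  ext w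
  rcases w with a | ⟨b', u⟩
  · simp
  · simp only [Equiv.Perm.mul_apply, tr_inr]
    split_ifs
    · rw [add_assoc, add_comm t']
    · simp

theorem tr_zero {l x p : ℕ} (b : Fin l ⊕ Bool) : (tr b 0 : Equiv.Perm (W l x p)) = 1 := by
  ext w
  rcases w with a | ⟨b', u⟩
  · simp
  · simp

theorem tr_pow {l x p : ℕ} (b : Fin l ⊕ Bool) (k : ℕ) :
    (tr b 1 : Equiv.Perm (W l x p)) ^ k = tr b (k : ZMod p) := by
  induction k with
  | zero => simp [tr_zero]
  | succ k ih => rw [pow_succ, ih, tr_add]; simp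

theorem tr_comm {l x p : ℕ} (b b' : Fin l ⊕ Bool) (t t' : ZMod p) :
    (tr b t * tr b' t' : Equiv.Perm (W l x p)) = tr b' t' * tr b t := by
  ext w
  rcases w with a | ⟨b'', u⟩
  · simp
  · simp only [Equiv.Perm.mul_apply, tr_inr]
    rw [add_assoc, add_assoc, add_comm (if b'' = b' then t' else 0)]

theorem conj_blk {l x p : ℕ} (μ : (ZMod p)ˣ) (i : Fin l) :
    ((rc μ)⁻¹ * tr (Sum.inl i) 1 * rc μ : Equiv.Perm (W l x p)) = tr (Sum.inl i) 1 := by
  rw [mul_assoc, inv_mul_eq_iff_eq_mul]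
  ext w
  rcases w with a | ⟨j | (_ | _), u⟩ <;> simp

theorem conj_false {l x p : ℕ} (μ : (ZMod p)ˣ) :
    ((rc μ)⁻¹ * tr (Sum.inr false) 1 * rc μ : Equiv.Perm (W l x p)) =
      tr (Sum.inr true) ((μ⁻¹ : (ZMod p)ˣ) : ZMod p) := by
  rw [mul_assoc, inv_mul_eq_iff_eq_mul]
  ext w
  rcases w with a | ⟨j | (_ | _), u⟩ <;> simp [mul_add]

theorem conj_true {l x p : ℕ} (μ : (ZMod p)ˣ) :
    ((rc μ)⁻¹ * tr (Sum.inr true) 1 * rc μ : Equiv.Perm (W l x p)) = tr (Sum.inr false) 1 := by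
  rw [mul_assoc, inv_mul_eq_iff_eq_mul]
  ext w
  rcases w with a | ⟨j | (_ | _), u⟩ <;> simp

theorem tr_mem {l x p : ℕ} [NeZero p] (b : Fin l ⊕ Bool) (t : ZMod p) :
    (tr b t : Equiv.Perm (W l x p)) ∈
      Subgroup.closure (Set.range (fun b : Fin l ⊕ Bool => (tr b 1 : Equiv.Perm (W l x p)))) := by
  have h : (tr b t : Equiv.Perm (W l x p)) = (tr b 1) ^ t.val := by
    rw [tr_pow, ZMod.natCast_zmod_val]
  rw [h]
  exact Subgroup.pow_mem _ (Subgroup.subset_closure (Set.mem_range_self (f := fun b : Fin l ⊕ Bool =>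
    (tr b 1 : Equiv.Perm (W l x p))) b)) _

/-- the big group -/
def GG (l x p : ℕ) (μ : (ZMod p)ˣ) : Subgroup (Equiv.Perm (W l x p)) :=
  Subgroup.closure (insert (rc μ) (Set.range (fun b : Fin l ⊕ Bool => tr b 1)))

theorem tr_memG {l x p : ℕ} [NeZero p] (μ : (ZMod p)ˣ) (b : Fin l ⊕ Bool) (t : ZMod p) :
    (tr b t : Equiv.Perm (W l x p)) ∈ GG l x p μ :=
  Subgroup.closure_mono (Set.subset_insert _ _) (tr_mem b t)

theorem rc_memG {l x p : ℕ} (μ : (ZMod p)ˣ) (k : ℕ) :
    (rc μ ^ k : Equiv.Perm (W l x p)) ∈ GG l x p μ :=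
  Subgroup.pow_mem _ (Subgroup.subset_closure (Set.mem_insert _ _)) _

theorem rc_pow_inl {l x p : ℕ} (μ : (ZMod p)ˣ) (k : ℕ) (a : ZMod x) :
    (rc μ ^ k : Equiv.Perm (W l x p)) (Sum.inl a) = Sum.inl (a + k) := by
  induction k with
  | zero => simp
  | succ k ih =>
    rw [pow_succ', Equiv.Perm.mul_apply, ih, rc_inl]
    push_cast
    rw [add_assoc]

theorem rc_pow_blk {l x p : ℕ} (μ : (ZMod p)ˣ) (k : ℕ) (i : Fin l) (u : ZMod p) :
    (rc μ ^ k : Equiv.Perm (W l x p)) (Sum.inr (Sum.inl i, u)) = Sum.inr (Sum.inl i, u) := by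
  induction k with
  | zero => simp
  | succ k ih => rw [pow_succ', Equiv.Perm.mul_apply, ih, rc_blk]

theorem rc_pow_even {l x p : ℕ} (μ : (ZMod p)ˣ) (k : ℕ) (b : Bool) (u : ZMod p) :
    (rc μ ^ (2 * k) : Equiv.Perm (W l x p)) (Sum.inr (Sum.inr b, u)) =
      Sum.inr (Sum.inr b, (μ : ZMod p) ^ k * u) := by
  induction k with
  | zero => simp
  | succ k ih =>
    have : 2 * (k + 1) = (2 * k) + 1 + 1 := by ring
    rw [this, pow_succ', pow_succ', Equiv.Perm.mul_apply, Equiv.Perm.mul_apply, ih]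
    cases b
    · simp [pow_succ', mul_assoc]
    · simp [pow_succ', mul_assoc]

/-- parity version -/
theorem rc_pow_sw {l x p : ℕ} (μ : (ZMod p)ˣ) (k : ℕ) (b : Bool) (u : ZMod p) :
    ∃ v : ZMod p, (rc μ ^ k : Equiv.Perm (W l x p)) (Sum.inr (Sum.inr b, u)) =
      Sum.inr (Sum.inr (xor b (decide (k % 2 = 1))), v) := by
  rcases Nat.even_or_odd' k with ⟨j, rfl | rfl⟩
  · refine ⟨(μ : ZMod p) ^ j * u, ?_⟩
    rw [rc_pow_even]
    have : (2 * j) % 2 = 0 := by omega
    simp [this]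
  · have h1 : (2 * j + 1) % 2 = 1 := by omega
    rw [pow_succ', Equiv.Perm.mul_apply, rc_pow_even]
    cases b
    · exact ⟨_, by simp [h1]; rfl⟩
    · exact ⟨_, by simp [h1]; rfl⟩

theorem crt {x : ℕ} (hx : Odd x) (a : ZMod x) (b : Bool) :
    ∃ k : ℕ, (k : ZMod x) = a ∧ decide (k % 2 = 1) = b := by
  have hx0 : NeZero x := ⟨by rintro rfl; simp at hx⟩
  have h2 : x % 2 = 1 := Nat.odd_iff.mp hx
  by_cases h : decide (a.val % 2 = 1) = b
  · exact ⟨a.val, ZMod.natCast_zmod_val a, h⟩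
  · refine ⟨a.val + x, by simp, ?_⟩
    cases b
    · simp at h ⊢; omega
    · simp at h ⊢; omega

/-- orbits of the parts -/
def ob (l : ℕ) (A : Fin (l + 3)) : ℕ := min A.val (l + 1)

theorem ob_bn {l : ℕ} (b : Fin l ⊕ Bool) : ob l (bn b).succ = Sum.elim (fun i => i.val + 1) (fun _ => l + 1) b := by
  rcases b with i | (_ | _)
  · have := i.isLt; simp [ob, bn]
  · simp [ob, bn]
  · simp [ob, bn]

/-- move to the same block -/
theorem trans1 {l x p : ℕ} [NeZero p] (hx : Odd x) (μ : (ZMod p)ˣ) (a : ZMod x) (b : Bool) :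
    ∃ g ∈ GG l x p μ, (∀ a' : ZMod x, g (Sum.inl a') = Sum.inl (a' + a)) ∧
      (∀ i u, g (Sum.inr (Sum.inl i, u)) = Sum.inr (Sum.inl i, u)) ∧
      (∀ b' u, ∃ v, g (Sum.inr (Sum.inr b', u)) = Sum.inr (Sum.inr (xor b' b), v)) := by
  obtain ⟨k, hk1, hk2⟩ := crt hx a b
  refine ⟨rc μ ^ k, rc_memG μ k, ?_, ?_, ?_⟩
  · intro a'; rw [rc_pow_inl, hk1]
  · intro i u; rw [rc_pow_blk]
  · intro b' u
    obtain ⟨v, hv⟩ := rc_pow_sw (l := l) (x := x) μ k b' u
    exact ⟨v, by rw [hv, hk2]⟩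

/-- `g` maps `w` into the block (or to the point) of `w'` -/
def Near {l x p : ℕ} (w w' : W l x p) : Prop :=
  w = w' ∨ ∃ b u u', w = Sum.inr (b, u) ∧ w' = Sum.inr (b, u')

theorem near_prt {l x p : ℕ} {w w' : W l x p} (h : Near w w') : prt w = prt w' := by
  rcases h with rfl | ⟨b, u, u', rfl, rfl⟩ <;> rfl

/-- two vertices in different parts can be moved independently -/
theorem near_move {l x p : ℕ} [NeZero p] (μ : (ZMod p)ˣ) {w w' z z' : W l x p}
    (h1 : Near w w') (h2 : Near z z') (h : prt w ≠ prt z) :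
    ∃ g ∈ GG l x p μ, g w = w' ∧ g z = z' := by
  rcases h1 with rfl | ⟨b, u, u', rfl, rfl⟩
  · rcases h2 with rfl | ⟨b, u, u', rfl, rfl⟩
    · exact ⟨1, Subgroup.one_mem _, rfl, rfl⟩
    · refine ⟨tr b (u' - u), tr_memG μ _ _, ?_, by simp⟩
      rcases w with a | ⟨b', v⟩
      · rfl
      · have hb : b' ≠ b := by rintro rfl; exact h rfl
        simp [hb]
  · rcases h2 with rfl | ⟨b', v, v', rfl, rfl⟩
    · refine ⟨tr b (u' - u), tr_memG μ _ _, by simp, ?_⟩
      rcases z with a | ⟨b', v⟩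
      · rfl
      · have hb : b' ≠ b := by rintro rfl; exact h rfl
        simp [hb]
    · have hb : b' ≠ b := by rintro rfl; exact h rfl
      refine ⟨tr b (u' - u) * tr b' (v' - v), Subgroup.mul_mem _ (tr_memG μ _ _) (tr_memG μ _ _), ?_, ?_⟩
      · simp [hb.symm]
      · simp [hb]

theorem trans2 {l x p : ℕ} [NeZero p] (hx : Odd x) (μ : (ZMod p)ˣ) {w w' z z' : W l x p}
    (h1 : ob l (prt w) = ob l (prt w')) (h2 : ob l (prt z) = ob l (prt z'))
    (h : ob l (prt w) ≠ ob l (prt z)) :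
    ∃ g ∈ GG l x p μ, g w = w' ∧ g z = z' := by
  -- choose the rotation
  have key : ∃ g ∈ GG l x p μ, Near (g w) w' ∧ Near (g z) z' ∧ prt (g w) ≠ prt (g z) := by
    have key0 : ∀ (a : ZMod x) (b : Bool),
      (∀ a1 a2, w = Sum.inl a1 → w' = Sum.inl a2 → a1 + a = a2) →
      (∀ a1 a2, z = Sum.inl a1 → z' = Sum.inl a2 → a1 + a = a2) →
      (∀ b1 b2 u1 u2, w = Sum.inr (Sum.inr b1, u1) → w' = Sum.inr (Sum.inr b2, u2) → xor b1 b = b2) →
      (∀ b1 b2 u1 u2, z = Sum.inr (Sum.inr b1, u1) → z' = Sum.inr (Sum.inr b2, u2) → xor b1 b = b2) →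
      ∃ g ∈ GG l x p μ, Near (g w) w' ∧ Near (g z) z' ∧ prt (g w) ≠ prt (g z) := by
      intro a b k1 k2 k3 k4
      obtain ⟨g, hg, g1, g2, g3⟩ := trans1 (l := l) (p := p) hx μ a b
      have hN : ∀ y y' : W l x p, ob l (prt y) = ob l (prt y') →
        (∀ a1 a2, y = Sum.inl a1 → y' = Sum.inl a2 → a1 + a = a2) →
        (∀ b1 b2 u1 u2, y = Sum.inr (Sum.inr b1, u1) → y' = Sum.inr (Sum.inr b2, u2) →
          xor b1 b = b2) → Near (g y) y' := by
        intro y y' hy hy1 hy2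
        rcases y with a1 | ⟨i | b1, u⟩
        · rcases y' with a2 | ⟨j | b2, v⟩
          · left; rw [g1, hy1 a1 a2 rfl rfl]
          · simp [prt, ob, bn] at hy
          · simp only [prt] at hy; rw [ob_bn] at hy; simp [ob] at hy
        · rcases y' with a2 | ⟨j | b2, v⟩
          · simp only [prt] at hy; rw [ob_bn] at hy; simp [ob] at hy
          · simp only [prt] at hy; rw [ob_bn, ob_bn] at hy; simp [Fin.val_inj] at hy
            subst hy
            right
            exact ⟨Sum.inl i, u, v, g2 i u, rfl⟩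
          · simp only [prt] at hy; rw [ob_bn, ob_bn] at hy; simp at hy
            have := i.isLt; omega
        · rcases y' with a2 | ⟨j | b2, v⟩
          · simp only [prt] at hy; rw [ob_bn] at hy; simp [ob] at hy
          · simp only [prt] at hy; rw [ob_bn, ob_bn] at hy; simp at hy
            have := j.isLt; omega
          · right
            obtain ⟨u', hu'⟩ := g3 b1 u
            rw [hy2 b1 b2 u v rfl rfl] at hu'
            exact ⟨Sum.inr b2, u', v, hu', rfl⟩
      have hw := hN w w' h1 k1 k3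
      have hz := hN z z' h2 k2 k4
      refine ⟨g, hg, hw, hz, ?_⟩
      rw [near_prt hw, near_prt hz]
      intro h'
      apply h
      rw [h1, h2, h']
    -- the x-shift
    have ha : ∃ a : ZMod x, (∀ a1 a2, w = Sum.inl a1 → w' = Sum.inl a2 → a1 + a = a2) ∧
      (∀ a1 a2, z = Sum.inl a1 → z' = Sum.inl a2 → a1 + a = a2) := by
      rcases w with a1 | y
      · rcases w' with a2 | y'
        · refine ⟨a2 - a1, ?_, ?_⟩
          · intro a1' a2' h h'
            cases h; cases h'; ring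
          · rintro a3 a4 rfl rfl
            exact absurd rfl h
        · rcases z with a3 | y3
          · exact absurd rfl h
          · exact ⟨0, by simp, by simp⟩
      · rcases z with a3 | y3
        · rcases z' with a4 | y4
          · refine ⟨a4 - a3, by simp, ?_⟩
            intro a1' a2' h h'
            cases h; cases h'; ring
          · exact ⟨0, by simp, by simp⟩
        · exact ⟨0, by simp, by simp⟩
    have hb : ∃ b : Bool, (∀ b1 b2 u1 u2, w = Sum.inr (Sum.inr b1, u1) →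
        w' = Sum.inr (Sum.inr b2, u2) → xor b1 b = b2) ∧
      (∀ b1 b2 u1 u2, z = Sum.inr (Sum.inr b1, u1) → z' = Sum.inr (Sum.inr b2, u2) →
        xor b1 b = b2) := by
      by_cases hw : ∃ b1 u1 b2 u2, w = Sum.inr (Sum.inr b1, u1) ∧ w' = Sum.inr (Sum.inr b2, u2)
      · obtain ⟨b1, u1, b2, u2, rfl, rfl⟩ := hw
        refine ⟨xor b1 b2, ?_, ?_⟩
        · intro b1' b2' u1' u2' h h'
          cases h; cases h'
          cases b1 <;> cases b2 <;> rfl
        · rintro b1' b2' u1' u2' rfl h'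
          exfalso
          apply h
          simp only [prt]
          rw [ob_bn, ob_bn]
          rfl
      · by_cases hz : ∃ b1 u1 b2 u2, z = Sum.inr (Sum.inr b1, u1) ∧ z' = Sum.inr (Sum.inr b2, u2)
        · obtain ⟨b1, u1, b2, u2, rfl, rfl⟩ := hz
          refine ⟨xor b1 b2, ?_, ?_⟩
          · intro b1' b2' u1' u2' h h'
            exact absurd ⟨_, _, _, _, h, h'⟩ hw
          · intro b1' b2' u1' u2' h h'
            cases h; cases h'
            cases b1 <;> cases b2 <;> rfl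
        · refine ⟨false, ?_, ?_⟩
          · intro b1' b2' u1' u2' h h'
            exact absurd ⟨_, _, _, _, h, h'⟩ hw
          · intro b1' b2' u1' u2' h h'
            exact absurd ⟨_, _, _, _, h, h'⟩ hz
    obtain ⟨a, ha1, ha2⟩ := ha
    obtain ⟨b, hb1, hb2⟩ := hb
    exact key0 a b ha1 ha2 hb1 hb2
  obtain ⟨g, hg, hw, hz, hne⟩ := key
  obtain ⟨g', hg', h1', h2'⟩ := near_move μ hw hz hne
  exact ⟨g' * g, Subgroup.mul_mem _ hg' hg, h1', h2'⟩

/-- transitivity inside the swapped blocks -/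
theorem trans3 {l x p : ℕ} [Fact p.Prime] (hx : Odd x) (μ : (ZMod p)ˣ)
    (hμ : ∀ ν : (ZMod p)ˣ, ν ∈ Subgroup.zpowers μ) (b b' : Bool) (u v u' v' : ZMod p)
    (h : u ≠ v) (h' : u' ≠ v') :
    ∃ g ∈ GG l x p μ, g (Sum.inr (Sum.inr b, u)) = Sum.inr (Sum.inr b', u') ∧
      g (Sum.inr (Sum.inr b, v)) = Sum.inr (Sum.inr b', v') := by
  -- change the block
  have h1 : ∃ g ∈ GG l x p μ, ∃ u1 v1 : ZMod p, u1 ≠ v1 ∧
      g (Sum.inr (Sum.inr b, u)) = Sum.inr (Sum.inr b', u1) ∧
      g (Sum.inr (Sum.inr b, v)) = Sum.inr (Sum.inr b', v1) := by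
    obtain ⟨g, hg, -, -, g3⟩ := trans1 (l := l) (p := p) hx μ 0 (xor b b')
    obtain ⟨u1, hu1⟩ := g3 b u
    obtain ⟨v1, hv1⟩ := g3 b v
    have hb : xor b (xor b b') = b' := by cases b <;> cases b' <;> rfl
    rw [hb] at hu1 hv1
    refine ⟨g, hg, u1, v1, ?_, hu1, hv1⟩
    rintro rfl
    rw [← hv1] at hu1
    have := g.injective hu1
    simp at this
    exact h this
  obtain ⟨g, hg, u1, v1, h1, hgu, hgv⟩ := h1
  -- the multiplier
  have hν : ∃ k : ℕ, (μ : ZMod p) ^ k * (u1 - v1) = u' - v' := by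
    have h2 : u1 - v1 ≠ 0 := sub_ne_zero.mpr h1
    have h3 : u' - v' ≠ 0 := sub_ne_zero.mpr h'
    have h4 := hμ ((Units.mk0 _ h3) * (Units.mk0 _ h2)⁻¹)
    rw [← mem_powers_iff_mem_zpowers] at h4
    obtain ⟨k, hk⟩ := h4
    refine ⟨k, ?_⟩
    have h5 : ((μ ^ k : (ZMod p)ˣ) : ZMod p) = (u' - v') * (u1 - v1)⁻¹ := by
      simp only at hk
      rw [hk]
      simp
    rw [Units.val_pow_eq_pow_val] at h5
    rw [h5, mul_assoc, inv_mul_cancel₀ h2, mul_one]
  obtain ⟨k, hk⟩ := hν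
  refine ⟨tr (Sum.inr b') (u' - (μ : ZMod p) ^ k * u1) * (rc μ ^ (2 * k)) * g,
    Subgroup.mul_mem _ (Subgroup.mul_mem _ (tr_memG μ _ _) (rc_memG μ _)) hg, ?_, ?_⟩
  · rw [Equiv.Perm.mul_apply, Equiv.Perm.mul_apply, hgu, rc_pow_even, tr_inr]
    simp
  · rw [Equiv.Perm.mul_apply, Equiv.Perm.mul_apply, hgv, rc_pow_even, tr_inr]
    simp
    linear_combination -hk

/-- adjacency of parts -/
def ad {k : ℕ} (Γ : Fin k → Fin k → Bool) (A B : Fin k) : Bool := Γ A B || Γ B A

theorem ad_comm {k : ℕ} (Γ : Fin k → Fin k → Bool) (A B : Fin k) : ad Γ A B = ad Γ B A := by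
  simp [ad, Bool.or_comm]

/-- pattern graph -/
def PG {l x p : ℕ} (Γ : Fin (l + 3) → Fin (l + 3) → Bool) : SimpleGraph (W l x p) where
  Adj u v := u ≠ v ∧ ad Γ (prt u) (prt v) = true
  symm := ⟨fun u v h => ⟨h.1.symm, by rw [ad_comm]; exact h.2⟩⟩
  loopless := ⟨fun _ h => h.1 rfl⟩

theorem PG_adj {l x p : ℕ} (Γ : Fin (l + 3) → Fin (l + 3) → Bool) (u v : W l x p) :
    (PG Γ : SimpleGraph (W l x p)).Adj u v ↔ u ≠ v ∧ ad Γ (prt u) (prt v) = true := Iff.rfl

theorem fib {l x p : ℕ} [NeZero x] [NeZero p] (A : Fin (l + 3)) :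
    Fintype.card {w : W l x p // prt w = A} = sz (l + 2) x p A := by
  by_cases hA : A = 0
  · subst hA
    have e : {w : W l x p // prt w = 0} ≃ ZMod x :=
      { toFun := fun w => match w with
          | ⟨Sum.inl a, _⟩ => a
          | ⟨Sum.inr _, _⟩ => 0
        invFun := fun a => ⟨Sum.inl a, rfl⟩
        left_inv := by
          rintro ⟨a | ⟨b, u⟩, h⟩
          · rfl
          · simp [prt] at h
        right_inv := fun a => rfl }
    rw [Fintype.card_congr e, ZMod.card]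
    rfl
  · obtain ⟨B, rfl⟩ := Fin.exists_succ_eq.mpr hA
    have hB : ∃ b : Fin l ⊕ Bool, bn b = B := by
      by_cases h1 : B.val < l
      · exact ⟨Sum.inl ⟨B.val, h1⟩, by ext; simp [bn]⟩
      · by_cases h2 : B.val = l
        · exact ⟨Sum.inr false, by ext; simp [bn, h2]⟩
        · refine ⟨Sum.inr true, ?_⟩
          have := B.isLt
          ext; simp [bn]; omega
    obtain ⟨b, rfl⟩ := hB
    have e : {w : W l x p // prt w = (bn b).succ} ≃ ZMod p :=
      { toFun := fun w => match w with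
          | ⟨Sum.inl a, _⟩ => 0
          | ⟨Sum.inr (_, u), _⟩ => u
        invFun := fun u => ⟨Sum.inr (b, u), rfl⟩
        left_inv := by
          rintro ⟨a | ⟨b', u⟩, h⟩
          · simp [prt] at h
            exact absurd h.symm (Fin.succ_ne_zero _)
          · simp only [prt] at h
            have := bn_inj (Fin.succ_injective _ h)
            subst this
            rfl
        right_inv := fun a => rfl }
    rw [Fintype.card_congr e, ZMod.card]
    simp [sz]

theorem exists_equiv (l x p : ℕ) [NeZero x] [NeZero p] :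
    ∃ e : W l x p ≃ Σ i : Fin (l + 3), Fin (sz (l + 2) x p i), ∀ w, (e w).1 = prt w := by
  classical
  refine ⟨(Equiv.sigmaFiberEquiv prt).symm.trans
    (Equiv.sigmaCongrRight (fun A => Fintype.equivFinOfCardEq (fib A))), ?_⟩
  intro w
  rfl

theorem PV_PG {n q : ℕ} {P : SimpleGraph (Fin n) → Prop} (hP : GP n q P) (l x p : ℕ) [NeZero x]
    [NeZero p] (Γ : Fin (l + 3) → Fin (l + 3) → Bool) :
    PV P (W l x p) (PG Γ) ↔ PV P _ (BU (sz (l + 2) x p) Γ) := by
  obtain ⟨e, he⟩ := exists_equiv l x p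
  constructor
  · apply PV.mono hP e
    intro u v h
    refine ⟨fun h' => h.1 (e.injective h'), ?_⟩
    rw [he, he]
    simpa [ad] using h.2
  · apply PV.mono hP e.symm
    intro u v h
    refine ⟨fun h' => h.1 (e.symm.injective h'), ?_⟩
    rw [← he, ← he, e.apply_symm_apply, e.apply_symm_apply]
    simpa [ad] using h.2

theorem PG_sup {l x p m : ℕ} (Γ : Fin (l + 3) → Fin (l + 3) → Bool)
    (O : Fin m → List (Fin (l + 3) × Fin (l + 3))) (I : Finset (Fin m)) :
    (PG Γ ⊔ ⨆ j ∈ I, PG (pat (O j)) : SimpleGraph (W l x p)) = PG (addCls Γ O I) := by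
  ext u v
  simp only [SimpleGraph.sup_adj, SimpleGraph.iSup_adj, PG_adj, ad, addCls, pat]
  simp only [Bool.or_eq_true, decide_eq_true_eq]
  constructor
  · rintro (⟨h1, h2⟩ | ⟨j, hj, h1, h2⟩)
    · exact ⟨h1, h2.imp Or.inl Or.inl⟩
    · exact ⟨h1, h2.imp (fun h => Or.inr ⟨j, hj, h⟩) (fun h => Or.inr ⟨j, hj, h⟩)⟩
  · rintro ⟨h1, (h2 | ⟨j, hj, h2⟩) | (h2 | ⟨j, hj, h2⟩)⟩
    · exact Or.inl ⟨h1, Or.inl h2⟩
    · exact Or.inr ⟨j, hj, h1, Or.inl h2⟩
    · exact Or.inl ⟨h1, Or.inr h2⟩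
    · exact Or.inr ⟨j, hj, h1, Or.inr h2⟩

/-- number of ordered adjacent pairs -/
def cnt {k : ℕ} (s : Fin k → ℕ) (Γ : Fin k → Fin k → Bool) : ℕ :=
  ∑ A, ∑ B, if ad Γ A B = true then (if A = B then s A * (s A - 1) else s A * s B) else 0

theorem card_PG (l x p : ℕ) [NeZero x] [NeZero p] (Γ : Fin (l + 3) → Fin (l + 3) → Bool) :
    2 * Nat.card (PG Γ : SimpleGraph (W l x p)).edgeSet = cnt (sz (l + 2) x p) Γ := by
  classical
  set G : SimpleGraph (W l x p) := PG Γ with hG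
  have h1 : Nat.card G.edgeSet = G.edgeFinset.card := by
    rw [Nat.card_eq_fintype_card, SimpleGraph.edgeFinset_card]
  rw [h1, ← SimpleGraph.sum_degrees_eq_twice_card_edges]
  have h2 : ∀ v : W l x p, G.degree v =
      ∑ B, if ad Γ (prt v) B = true then (if prt v = B then sz (l + 2) x p B - 1 else
        sz (l + 2) x p B) else 0 := by
    intro v
    rw [← SimpleGraph.card_neighborFinset_eq_degree]
    rw [Finset.card_eq_sum_card_fiberwise (f := prt) (t := univ) (fun _ _ => Finset.mem_coe.mpr (mem_univ _))]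
    apply Finset.sum_congr rfl
    intro B _
    have hfib : (univ.filter (fun w : W l x p => prt w = B)).card = sz (l + 2) x p B := by
      rw [← fib B, Fintype.card_subtype]
    split_ifs with h3 h4
    · have : (G.neighborFinset v).filter (fun w => prt w = B) =
          (univ.filter (fun w : W l x p => prt w = B)).erase v := by
        ext w
        simp only [mem_filter, SimpleGraph.mem_neighborFinset, mem_erase, mem_univ, true_and]
        constructor
        · rintro ⟨h, rfl⟩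
          exact ⟨h.1.symm, rfl⟩
        · rintro ⟨h, rfl⟩
          exact ⟨⟨h.symm, h3⟩, rfl⟩
      rw [this, Finset.card_erase_of_mem (by simp [h4]), hfib]
    · have : (G.neighborFinset v).filter (fun w => prt w = B) =
          (univ.filter (fun w : W l x p => prt w = B)) := by
        ext w
        simp only [mem_filter, SimpleGraph.mem_neighborFinset, mem_univ, true_and]
        constructor
        · rintro ⟨h, rfl⟩
          rfl
        · rintro rfl
          exact ⟨⟨fun h => h4 (by rw [h]), h3⟩, rfl⟩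
      rw [this, hfib]
    · rw [Finset.card_eq_zero, Finset.filter_eq_empty_iff]
      intro w hw hB
      rw [SimpleGraph.mem_neighborFinset] at hw
      apply h3
      rw [← hB]
      exact hw.2
  rw [Finset.sum_congr rfl (fun v _ => h2 v)]
  rw [← Finset.sum_fiberwise (s := univ) (g := prt)]
  unfold cnt
  apply Finset.sum_congr rfl
  intro A _
  have h3 : ∀ v ∈ univ.filter (fun w : W l x p => prt w = A),
      (∑ B, if ad Γ (prt v) B = true then (if prt v = B then sz (l + 2) x p B - 1 else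
        sz (l + 2) x p B) else 0) = ∑ B, if ad Γ A B = true then (if A = B then
          sz (l + 2) x p B - 1 else sz (l + 2) x p B) else 0 := by
    intro v hv
    simp only [mem_filter, mem_univ, true_and] at hv
    rw [hv]
  rw [Finset.sum_congr rfl h3, Finset.sum_const, ← Fintype.card_subtype, fib, smul_eq_mul,
    Finset.mul_sum]
  apply Finset.sum_congr rfl
  intro B _
  split_ifs with h4 h5
  · rw [h5]
  · rfl
  · simp

theorem relSw {n q : ℕ} {P : SimpleGraph (Fin n) → Prop} (hP : GP n q P) (l x p : ℕ)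
    [hpf : Fact p.Prime] (hp : 2 < p) (hx : Odd x) (hn : x + (l + 2) * p = n) {m : ℕ}
    (Γ : Fin (l + 3) → Fin (l + 3) → Bool) (O : Fin m → List (Fin (l + 3) × Fin (l + 3)))
    (hΓs : ∀ A B, ad Γ A B = true → ad Γ (sw l A) (sw l B) = true)
    (hOs : ∀ j A B, ad (pat (O j)) A B = true → ad (pat (O j)) (sw l A) (sw l B) = true)
    (hd : ∀ i j, i ≠ j → ∀ A B, ad (pat (O i)) A B = true → ad (pat (O j)) A B = true → False)
    (hd0 : ∀ i A B, ad Γ A B = true → ad (pat (O i)) A B = true → False)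
    (hO : ∀ j, ∃ A B, ad (pat (O j)) A B = true ∧ ¬ (A = 0 ∧ B = 0))
    (htr : ∀ j A B A' B', ad (pat (O j)) A B = true → ad (pat (O j)) A' B' = true →
      (ob l A = ob l A' ∧ ob l B = ob l B' ∧ ob l A ≠ ob l B) ∨
      (ob l A = ob l B' ∧ ob l B = ob l A' ∧ ob l A ≠ ob l B) ∨
      (A = B ∧ A' = B' ∧ ob l A = l + 1 ∧ ob l A' = l + 1))
    (hq : 2 * q < ∑ j, cnt (sz (l + 2) x p) (pat (O j))) :
    ∑ I : Finset (Fin m), (-1 : ℤ) ^ I.card *
      hv P (sz (l + 2) x p) (addCls Γ O I) = 0 := by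
  classical
  have hx0 : NeZero x := ⟨by rintro rfl; simp at hx⟩
  have hp0 : NeZero p := ⟨by omega⟩
  obtain ⟨μ, hμ⟩ := IsCyclic.exists_generator (α := (ZMod p)ˣ)
  have hcard : Fintype.card (W l x p) = n := by
    rw [Fintype.card_sum, Fintype.card_prod, Fintype.card_sum, ZMod.card, ZMod.card,
      Fintype.card_fin, Fintype.card_bool, hn]
  have hcardj : ∀ j, 2 * Nat.card (PG (pat (O j)) : SimpleGraph (W l x p)).edgeSet =
      cnt (sz (l + 2) x p) (pat (O j)) := fun j => card_PG l x p _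
  have hmain := rel hP (V := W l x p) hcard p (fun b : Fin l ⊕ Bool => tr b 1) (rc μ)
    (fun i j => tr_comm i j 1 1) ?_ ?_ (PG Γ) (fun j => PG (pat (O j))) ?_ ?_ ?_ ?_ ?_ ?_ ?_ ?_ ?_
  · rw [← hmain]
    apply Finset.sum_congr rfl
    intro I _
    congr 1
    unfold hv
    rw [PG_sup]
    exact if_congr (PV_PG hP l x p _).symm rfl rfl
  · intro b
    rw [tr_pow]
    simp [tr_zero]
  · rintro (i | (_ | _))
    · show _ * tr (Sum.inl i) 1 * _ ∈ _
      rw [conj_blk]
      exact tr_mem _ _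
    · show _ * tr (Sum.inr false) 1 * _ ∈ _
      rw [conj_false]
      exact tr_mem _ _
    · show _ * tr (Sum.inr true) 1 * _ ∈ _
      rw [conj_true]
      exact tr_mem _ _
  · intro b u v h
    refine ⟨fun h' => h.1 ((tr b 1).injective h'), ?_⟩
    rw [prt_tr, prt_tr]
    exact h.2
  · intro u v h
    refine ⟨fun h' => h.1 ((rc μ).injective h'), ?_⟩
    rw [prt_rc, prt_rc]
    exact hΓs _ _ h.2
  · intro j b u v h
    refine ⟨fun h' => h.1 ((tr b 1).injective h'), ?_⟩
    rw [prt_tr, prt_tr]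
    exact h.2
  · intro j u v h
    refine ⟨fun h' => h.1 ((rc μ).injective h'), ?_⟩
    rw [prt_rc, prt_rc]
    exact hOs j _ _ h.2
  · intro i j hij
    rw [disjoint_iff]
    ext u v
    simp only [SimpleGraph.inf_adj, SimpleGraph.bot_adj, iff_false, not_and]
    intro h1 h2
    exact hd i j hij _ _ h1.2 h2.2
  · intro i
    rw [disjoint_iff]
    ext u v
    simp only [SimpleGraph.inf_adj, SimpleGraph.bot_adj, iff_false, not_and]
    intro h1 h2
    exact hd0 i _ _ h1.2 h2.2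
  · intro j
    obtain ⟨A, B, hAB, hAB0⟩ := hO j
    have hex : ∀ C : Fin (l + 3), ∃ w : W l x p, prt w = C := by
      intro C
      have h1 : 0 < Fintype.card {w : W l x p // prt w = C} := by
        rw [fib]
        refine Fin.cases ?_ (fun i => ?_) C
        · exact Nat.pos_of_ne_zero hx0.out
        · exact Nat.pos_of_ne_zero hp0.out
      obtain ⟨⟨w, hw⟩⟩ := Fintype.card_pos_iff.mp h1
      exact ⟨w, hw⟩
    by_cases hA : A = B
    · subst hA
      have hA0 : A ≠ 0 := fun h => hAB0 ⟨h, h⟩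
      have h1 : 1 < Fintype.card {w : W l x p // prt w = A} := by
        rw [fib]
        obtain ⟨B, rfl⟩ := Fin.exists_succ_eq.mpr hA0
        simp [sz]; omega
      obtain ⟨⟨u, hu⟩, ⟨v, hv⟩, huv⟩ := Fintype.exists_pair_of_one_lt_card h1
      refine ⟨u, v, fun h => huv (by simp [h]), ?_⟩
      rw [hu, hv]
      exact hAB
    · obtain ⟨u, hu⟩ := hex A
      obtain ⟨v, hv⟩ := hex B
      refine ⟨u, v, fun h => hA (by rw [← hu, ← hv, h]), ?_⟩
      rw [hu, hv]
      exact hAB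
  · intro j u v u' v' h h'
    rcases htr j _ _ _ _ h.2 h'.2 with ⟨h1, h2, h3⟩ | ⟨h1, h2, h3⟩ | ⟨h1, h2, h3, h4⟩
    · obtain ⟨g, hg, g1, g2⟩ := trans2 hx μ h1 h2 h3
      exact ⟨g, hg, Or.inl ⟨g1, g2⟩⟩
    · obtain ⟨g, hg, g1, g2⟩ := trans2 hx μ h1 h2 h3
      exact ⟨g, hg, Or.inr ⟨g1, g2⟩⟩
    · have hform : ∀ w w' : W l x p, prt w = prt w' → ob l (prt w) = l + 1 →
          ∃ (b : Bool) (a a' : ZMod p), w = Sum.inr (Sum.inr b, a) ∧ w' = Sum.inr (Sum.inr b, a') := by
        intro w w' hw hw1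
        rcases w with a | ⟨i | b, a⟩
        · simp [prt, ob] at hw1
        · simp only [prt] at hw1
          rw [ob_bn] at hw1
          simp at hw1
          have := i.isLt
          omega
        · rcases w' with a' | ⟨i' | b', a'⟩
          · simp only [prt] at hw
            exact absurd hw (Fin.succ_ne_zero _)
          · simp only [prt] at hw
            have := bn_inj (Fin.succ_injective _ hw)
            simp at this
          · simp only [prt] at hw
            have := bn_inj (Fin.succ_injective _ hw)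
            simp only [Sum.inr.injEq] at this
            subst this
            exact ⟨b, a, a', rfl, rfl⟩
      obtain ⟨b, a, a1, rfl, rfl⟩ := hform u v h1 h3
      obtain ⟨b', a', a1', rfl, rfl⟩ := hform u' v' h2 h4
      obtain ⟨g, hg, g1, g2⟩ := trans3 (l := l) hx μ hμ b b' a a1 a' a1'
        (fun h' => h.1 (by rw [h'])) (fun h'' => h'.1 (by rw [h'']))
      exact ⟨g, hg, Or.inl ⟨g1, g2⟩⟩
  · have h3 : ∑ j, cnt (sz (l + 2) x p) (pat (O j)) =
      2 * ∑ j, Nat.card (PG (pat (O j)) : SimpleGraph (W l x p)).edgeSet := by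
      rw [Finset.mul_sum]
      exact Finset.sum_congr rfl (fun j _ => (hcardj j).symm)
    rw [h3] at hq
    exact Nat.lt_of_mul_lt_mul_left hq

end Sw

open Sw in
theorem relEven {n q : ℕ} {P : SimpleGraph (Fin n) → Prop} (hP : GP n q P) (x p : ℕ)
    [Fact p.Prime] (hp : 2 < p) (hx : Odd x) (hn : x + 3 * p = n)
    (hq : q < 3 * p * x + 2 * p * p + p * (p - 1)) :
    ∑ I : Finset (Fin 4), (-1 : ℤ) ^ I.card *
      hv P (sz 3 x p) (addCls (pat evenBase) evenCls I) = 0 := by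
  refine relSw hP 1 x p hp hx (by omega) (pat evenBase) evenCls (by decide) (by decide)
    (by decide) (by decide) (by decide) (by decide) ?_
  have e0 : sz 3 x p 0 = x := rfl
  have e1 : sz 3 x p 1 = p := rfl
  have e2 : sz 3 x p 2 = p := rfl
  have e3 : sz 3 x p 3 = p := rfl
  have c0 : cnt (sz 3 x p) (pat (evenCls 0)) = 2 * (x * p) := by
    simp [cnt, Fin.sum_univ_succ, ad, pat, evenCls, sz]
    ring
  have c1 : cnt (sz 3 x p) (pat (evenCls 1)) = 4 * (x * p) := by
    simp [cnt, Fin.sum_univ_succ, ad, pat, evenCls, sz]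
    ring
  have c2 : cnt (sz 3 x p) (pat (evenCls 2)) = 4 * (p * p) := by
    simp [cnt, Fin.sum_univ_succ, ad, pat, evenCls, sz]
    ring
  have c3 : cnt (sz 3 x p) (pat (evenCls 3)) = 2 * (p * (p - 1)) := by
    simp [cnt, Fin.sum_univ_succ, ad, pat, evenCls, sz]
    ring
  rw [Fin.sum_univ_four]
  show _ < cnt (sz 3 x p) _ + cnt (sz 3 x p) _ + cnt (sz 3 x p) _ + cnt (sz 3 x p) _
  rw [c0, c1, c2, c3]
  nlinarith [hq]

open Sw in
theorem relOdd {n q : ℕ} {P : SimpleGraph (Fin n) → Prop} (hP : GP n q P) (x p : ℕ)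
    [Fact p.Prime] (hp : 2 < p) (hx : Odd x) (hn : x + 4 * p = n)
    (hq : q < 3 * p * x + 5 * p * p + p * (p - 1)) :
    ∑ I : Finset (Fin 6), (-1 : ℤ) ^ I.card *
      hv P (sz 4 x p) (addCls (pat oddBase) oddCls I) = 0 := by
  refine relSw hP 2 x p hp hx (by omega) (pat oddBase) oddCls (by decide) (by decide)
    (by decide) (by decide) (by decide) (by decide) ?_
  have c0 : cnt (sz 4 x p) (pat (oddCls 0)) = 2 * (x * p) := by
    simp [cnt, Fin.sum_univ_succ, ad, pat, oddCls, sz]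
    ring
  have c1 : cnt (sz 4 x p) (pat (oddCls 1)) = 4 * (x * p) := by
    simp [cnt, Fin.sum_univ_succ, ad, pat, oddCls, sz]
    ring
  have c2 : cnt (sz 4 x p) (pat (oddCls 2)) = 2 * (p * p) := by
    simp [cnt, Fin.sum_univ_succ, ad, pat, oddCls, sz]
    ring
  have c3 : cnt (sz 4 x p) (pat (oddCls 3)) = 4 * (p * p) := by
    simp [cnt, Fin.sum_univ_succ, ad, pat, oddCls, sz]
    ring
  have c4 : cnt (sz 4 x p) (pat (oddCls 4)) = 4 * (p * p) := by
    simp [cnt, Fin.sum_univ_succ, ad, pat, oddCls, sz]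
    ring
  have c5 : cnt (sz 4 x p) (pat (oddCls 5)) = 2 * (p * (p - 1)) := by
    simp [cnt, Fin.sum_univ_succ, ad, pat, oddCls, sz]
    ring
  rw [Fin.sum_univ_six]
  show _ < cnt (sz 4 x p) _ + cnt (sz 4 x p) _ + cnt (sz 4 x p) _ + cnt (sz 4 x p) _ +
    cnt (sz 4 x p) _ + cnt (sz 4 x p) _
  rw [c0, c1, c2, c3, c4, c5]
  nlinarith [hq]

end Pool.Agent.H119R2.Kp
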