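import Mathlib
import Pool.Agent.H119R2.Kp.Defs2
import Pool.Agent.H119R2.Kp.PVE
import Pool.Agent.H119R2.Kp.Facts
import Pool.Agent.H119R2.Kp.RelSw

set_option autoImplicit false

/-! Task EV of helper119 (Karp / evasiveness): the even case (helper747). -/

namespace Pool.Agent.H119R2.Kp

open Finset
open Pool.Agent.H98R2.Ev (EV toG NE)

/-- `emb` with a decidable support -/
theorem ev_emb {n q : ℕ} {P : SimpleGraph (Fin n) → Prop} (h : GP n q P) {k l : ℕ}
    (s : Fin k → ℕ) (s' : Fin l → ℕ) (Γ : Fin k → Fin k → Bool) (Γ' : Fin l → Fin l → Bool)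
    (t : Fin k → Fin l → ℕ) (S : Fin k → Fin l → Bool) (hrow : ∀ i, ∑ a, t i a = s i)
    (hcol : ∀ a, ∑ i, t i a = s' a) (hS : ∀ i a, S i a = false → t i a = 0)
    (hΓ : ∀ i j a b, S i a = true → S j b = true → Γ i j = true → (Γ' a b || Γ' b a) = true) :
    hv P s Γ ≤ hv P s' Γ' := by
  refine emb h s s' Γ Γ' t hrow hcol ?_
  intro i j a b hij hia hjb
  have h1 : S i a = true := by
    by_contra hc
    exact hia (hS i a (by simpa using hc))
  have h2 : S j b = true := by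
    by_contra hc
    exact hjb (hS j b (by simpa using hc))
  rcases hij with hij | hij
  · have := hΓ i j a b h1 h2 hij
    rw [Bool.or_eq_true] at this
    exact this
  · have := hΓ j i b a h2 h1 hij
    rw [Bool.or_eq_true] at this
    exact this.symm

theorem ev_subsets (f : Finset (Fin 4) → ℤ) : ∑ I : Finset (Fin 4), f I =
    f ∅ + f {0} + f {1} + f {2} + f {3} + f {0, 1} + f {0, 2} + f {0, 3} + f {1, 2} + f {1, 3} +
      f {2, 3} + f {0, 1, 2} + f {0, 1, 3} + f {0, 2, 3} + f {1, 2, 3} + f {0, 1, 2, 3} := by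
  have h : (Finset.univ : Finset (Finset (Fin 4))) =
      {∅, {0}, {1}, {2}, {3}, {0, 1}, {0, 2}, {0, 3}, {1, 2}, {1, 3}, {2, 3}, {0, 1, 2},
        {0, 1, 3}, {0, 2, 3}, {1, 2, 3}, {0, 1, 2, 3}} := by decide
  rw [h]
  repeat rw [Finset.sum_insert (by decide)]
  rw [Finset.sum_singleton]
  ring

/-- the value of the subset `I` -/
noncomputable def ev_v {n : ℕ} (P : SimpleGraph (Fin n) → Prop) (Y p : ℕ)
    (I : Finset (Fin 4)) : ℤ := hv P (sz 3 Y p) (addCls (pat evenBase) evenCls I)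

/-- support of the map of the parts onto two parts -/
def ev_S (i : Fin 4) (a : Fin 2) : Bool := decide (a = 0) == decide (i = 0)

theorem ev_a {n q : ℕ} {P : SimpleGraph (Fin n) → Prop} (hP : GP n q P) (Y p : ℕ)
    (I : Finset (Fin 4)) (hI : ∀ i j a b, ev_S i a = true → ev_S j b = true →
      addCls (pat evenBase) evenCls I i j = true →
      ((pat [(0, 0), (1, 1)] : Fin 2 → Fin 2 → Bool) a b ||
        (pat [(0, 0), (1, 1)] : Fin 2 → Fin 2 → Bool) b a) = true)
    (h0 : hv P ![Y, 3 * p] (pat [(0, 0), (1, 1)]) = 0) : ev_v P Y p I = 0 := by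
  have h1 : ev_v P Y p I ≤ hv P ![Y, 3 * p] (pat [(0, 0), (1, 1)]) := by
    refine ev_emb hP _ _ _ _ ![![Y, 0], ![0, p], ![0, p], ![0, p]] ev_S ?_ ?_ ?_ hI
    · intro i
      fin_cases i <;> simp [sz, Fin.sum_univ_succ] <;> rfl
    · intro a
      fin_cases a <;> simp [Fin.sum_univ_succ]
      ring
    · intro i a
      fin_cases i <;> fin_cases a <;> simp [ev_S]
  rw [h0] at h1
  rcases hv01 P (sz 3 Y p) (addCls (pat evenBase) evenCls I) with h2 | h2
  · exact h2
  · have h3 : ev_v P Y p I = 1 := h2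
    omega

theorem ev_b {n q : ℕ} {P : SimpleGraph (Fin n) → Prop} (hP : GP n q P) (hS : Star n P) (Y p : ℕ)
    (hp : 0 < p) (hY : 0 < Y) (hn : Y + 3 * p = n) (I : Finset (Fin 4)) (i : Fin 4)
    (hI : ∀ j, (addCls (pat evenBase) evenCls I i j || addCls (pat evenBase) evenCls I j i)
      = true) : ev_v P Y p I = 1 := by
  refine hv_univ hP hS (sz 3 Y p) ?_ _ i ?_ ?_
  · simp [sz, Fin.sum_univ_succ]
    omega
  · refine (Nat.pos_iff_ne_zero.mp ?_)
    exact Fin.cases (motive := fun i => 0 < sz 3 Y p i) hY (fun _ => hp) i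
  · intro j
    have := hI j
    rw [Bool.or_eq_true] at this
    exact this

theorem ev_c {n q : ℕ} {P : SimpleGraph (Fin n) → Prop} (hP : GP n q P) (hS : Star n P) (Y p : ℕ)
    (hp : 0 < p) (I : Finset (Fin 4))
    (hI : ∀ j, addCls (pat evenBase) evenCls I 2 j = false ∧
      addCls (pat evenBase) evenCls I j 2 = false) : ev_v P Y p I = 0 := by
  refine hv_isol hP hS (sz 3 Y p) _ 2 ?_ hI
  have : sz 3 Y p 2 = p := rfl
  omega

/-- identity support -/
def ev_Sid (i a : Fin 4) : Bool := decide (i = a)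

theorem ev_mono {n q : ℕ} {P : SimpleGraph (Fin n) → Prop} (hP : GP n q P) (Y p : ℕ)
    (I J : Finset (Fin 4)) (hIJ : ∀ i j a b, ev_Sid i a = true → ev_Sid j b = true →
      addCls (pat evenBase) evenCls I i j = true →
      (addCls (pat evenBase) evenCls J a b || addCls (pat evenBase) evenCls J b a) = true) :
    ev_v P Y p I ≤ ev_v P Y p J := by
  refine ev_emb hP _ _ _ _ ![![Y, 0, 0, 0], ![0, p, 0, 0], ![0, 0, p, 0], ![0, 0, 0, p]]
    ev_Sid ?_ ?_ ?_ hIJ
  · intro i
    fin_cases i <;> simp [sz, Fin.sum_univ_succ] <;> rfl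
  · intro a
    fin_cases a <;> simp [sz, Fin.sum_univ_succ] <;> rfl
  · intro i a
    fin_cases i <;> fin_cases a <;> simp [ev_Sid]

/-- support of the exchange of the parts 1 and 2 -/
def ev_Ssw (i a : Fin 4) : Bool := decide (a = ![0, 2, 1, 3] i)

theorem ev_swap {n q : ℕ} {P : SimpleGraph (Fin n) → Prop} (hP : GP n q P) (Y p : ℕ)
    (I J : Finset (Fin 4)) (hIJ : ∀ i j a b, ev_Ssw i a = true → ev_Ssw j b = true →
      addCls (pat evenBase) evenCls I i j = true →
      (addCls (pat evenBase) evenCls J a b || addCls (pat evenBase) evenCls J b a) = true) :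
    ev_v P Y p I ≤ ev_v P Y p J := by
  refine ev_emb hP _ _ _ _ ![![Y, 0, 0, 0], ![0, 0, p, 0], ![0, p, 0, 0], ![0, 0, 0, p]]
    ev_Ssw ?_ ?_ ?_ hIJ
  · intro i
    fin_cases i <;> simp [sz, Fin.sum_univ_succ] <;> rfl
  · intro a
    fin_cases a <;> simp [sz, Fin.sum_univ_succ] <;> rfl
  · intro i a
    fin_cases i <;> fin_cases a <;> simp [ev_Ssw]

/-- support of the map of the five parts onto four parts -/
def ev_S5 (i : Fin 5) (a : Fin 4) : Bool := decide (a = ![0, 0, 1, 2, 3] i)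

theorem ev_d {n q : ℕ} {P : SimpleGraph (Fin n) → Prop} (hP : GP n q P) (X p : ℕ)
    (J : Finset (Fin 4)) (hJ : ∀ i j a b, ev_S5 i a = true → ev_S5 j b = true →
      pM 19 i j = true →
      (addCls (pat evenBase) evenCls J a b || addCls (pat evenBase) evenCls J b a) = true) :
    fM P X p 19 ≤ ev_v P (X + p) p J := by
  refine ev_emb hP _ _ _ _
    ![![X, 0, 0, 0], ![p, 0, 0, 0], ![0, p, 0, 0], ![0, 0, p, 0], ![0, 0, 0, p]]
    ev_S5 ?_ ?_ ?_ hJ
  · intro i
    fin_cases i <;> simp [sz, Fin.sum_univ_succ] <;> rfl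
  · intro a
    fin_cases a <;> simp [sz, Fin.sum_univ_succ] <;> rfl
  · intro i a
    fin_cases i <;> fin_cases a <;> simp [ev_S5]

theorem ev_le_one {n : ℕ} (P : SimpleGraph (Fin n) → Prop) (Y p : ℕ) (I : Finset (Fin 4)) :
    ev_v P Y p I ≤ 1 := by
  rcases hv01 P (sz 3 Y p) (addCls (pat evenBase) evenCls I) with h2 | h2
  · have h3 : ev_v P Y p I = 0 := h2
    omega
  · have h3 : ev_v P Y p I = 1 := h2
    omega

theorem even_contra_of {n q : ℕ} {P : SimpleGraph (Fin n) → Prop} (hP : GP n q P) (hS : Star n P)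
    (X p : ℕ) (hp : 3 < p) (hX : 0 < X) (hn : X + 4 * p = n)
    (hdisc : hv P ![X + p, 3 * p] (pat [(0, 0), (1, 1)]) = 0)
    (hrel : ∑ I : Finset (Fin 4), (-1 : ℤ) ^ I.card *
      hv P (sz 3 (X + p) p) (addCls (pat evenBase) evenCls I) = 0)
    (he : fM P X p 19 = 1) : False := by
  have hsum : ∑ I : Finset (Fin 4), (-1 : ℤ) ^ I.card * ev_v P (X + p) p I = 0 := hrel
  rw [ev_subsets] at hsum
  have hp0 : 0 < p := by omega
  have hY : 0 < X + p := by omega
  have hn' : X + p + 3 * p = n := by omega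
  have a0 : ev_v P (X + p) p ∅ = 0 := ev_a hP _ _ _ (by decide) hdisc
  have a2 : ev_v P (X + p) p {2} = 0 := ev_a hP _ _ _ (by decide) hdisc
  have a3 : ev_v P (X + p) p {3} = 0 := ev_a hP _ _ _ (by decide) hdisc
  have a23 : ev_v P (X + p) p {2, 3} = 0 := ev_a hP _ _ _ (by decide) hdisc
  have c0 : ev_v P (X + p) p {0} = 0 := ev_c hP hS _ _ hp0 _ (by decide)
  have b01 : ev_v P (X + p) p {0, 1} = 1 := ev_b hP hS _ _ hp0 hY hn' _ 0 (by decide)
  have b02 : ev_v P (X + p) p {0, 2} = 1 := ev_b hP hS _ _ hp0 hY hn' _ 1 (by decide)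
  have b012 : ev_v P (X + p) p {0, 1, 2} = 1 := ev_b hP hS _ _ hp0 hY hn' _ 0 (by decide)
  have b013 : ev_v P (X + p) p {0, 1, 3} = 1 := ev_b hP hS _ _ hp0 hY hn' _ 0 (by decide)
  have b023 : ev_v P (X + p) p {0, 2, 3} = 1 := ev_b hP hS _ _ hp0 hY hn' _ 1 (by decide)
  have b0123 : ev_v P (X + p) p {0, 1, 2, 3} = 1 := ev_b hP hS _ _ hp0 hY hn' _ 0 (by decide)
  have e1 : fM P X p 19 ≤ ev_v P (X + p) p {0, 3} := ev_d hP _ _ _ (by decide)
  have e2 := ev_le_one P (X + p) p {0, 3}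
  have e3 := ev_le_one P (X + p) p {1, 2, 3}
  have e4 : ev_v P (X + p) p {1} ≤ ev_v P (X + p) p {1, 2} := ev_mono hP _ _ _ _ (by decide)
  have e5 : ev_v P (X + p) p {0, 3} ≤ ev_v P (X + p) p {1, 3} := ev_swap hP _ _ _ _ (by decide)
  have k1 : ({0, 1} : Finset (Fin 4)).card = 2 := by decide
  have k2 : ({0, 2} : Finset (Fin 4)).card = 2 := by decide
  have k3 : ({0, 3} : Finset (Fin 4)).card = 2 := by decide
  have k4 : ({1, 2} : Finset (Fin 4)).card = 2 := by decide
  have k5 : ({1, 3} : Finset (Fin 4)).card = 2 := by decide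
  have k6 : ({2, 3} : Finset (Fin 4)).card = 2 := by decide
  have k7 : ({0, 1, 2} : Finset (Fin 4)).card = 3 := by decide
  have k8 : ({0, 1, 3} : Finset (Fin 4)).card = 3 := by decide
  have k9 : ({0, 2, 3} : Finset (Fin 4)).card = 3 := by decide
  have k10 : ({1, 2, 3} : Finset (Fin 4)).card = 3 := by decide
  have k11 : ({0, 1, 2, 3} : Finset (Fin 4)).card = 4 := by decide
  rw [a0, a2, a3, a23, c0, b01, b02, b012, b013, b023, b0123, k1, k2, k3, k4, k5, k6, k7, k8, k9,
    k10, k11, Finset.card_singleton] at hsum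
  norm_num at hsum
  omega

/-- `19` is the mask of a clique on parts `0, 1, 2` plus two disjoint cliques `3, 4` -/
theorem even_contra {n q : ℕ} {P : SimpleGraph (Fin n) → Prop} (hP : GP n q P) (hS : Star n P)
    (X p : ℕ) [Fact p.Prime] (hp : 3 < p) (hX : 0 < X) (hY : Odd (X + p)) (hn : X + 4 * p = n)
    (hq : q + p < 3 * X * p + 6 * p * p) (he : fM P X p 19 = 1) : False := by
  have hn' : (X + p) + 3 * p = n := by omega
  have hq1 : q < 3 * p * (X + p) + 3 * p * p := by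
    have e : 3 * p * (X + p) + 3 * p * p = 3 * X * p + 6 * p * p := by ring
    rw [e]
    omega
  have hq2 : q < 3 * p * (X + p) + 2 * p * p + p * (p - 1) := by
    obtain ⟨m, rfl⟩ : ∃ m, p = m + 1 := ⟨p - 1, by omega⟩
    have e : 3 * (m + 1) * (X + (m + 1)) + 2 * (m + 1) * (m + 1) + (m + 1) * (m + 1 - 1) + (m + 1) =
        3 * X * (m + 1) + 6 * (m + 1) * (m + 1) := by
      rw [Nat.add_sub_cancel]
      ring
    omega
  exact even_contra_of hP hS X p hp hX hn
    (disc3 hP hS p (X + p) hp (by omega) hn' hq1)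
    (relEven hP (X + p) p (by omega) hY hn' hq2) he

end Pool.Agent.H119R2.Kp
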