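import Mathlib
import Pool.Agent.H119R2.Kp.Defs2
import Pool.Agent.H119R2.Kp.PVE

set_option autoImplicit false

/-! Task FDA of helper119 (Karp / evasiveness): facts on the values `fM` from `emb` and `hv_univ`
(helper267). -/

namespace Pool.Agent.H119R2.Kp

open Finset

theorem FDA_sz0 (X p : ℕ) : sz 4 X p 0 = X := rfl

theorem FDA_szne (X p : ℕ) (i : Fin 5) (hi : i ≠ 0) : sz 4 X p i = p := by
  obtain ⟨j, rfl⟩ := Fin.exists_succ_eq.2 hi
  rfl

theorem fM_mono {n q : ℕ} {P : SimpleGraph (Fin n) → Prop} (hP : GP n q P) (X p : ℕ)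
    (g g' : ℕ) (h : ∀ a b, pM g a b = true → pM g' a b = true) : fM P X p g ≤ fM P X p g' := by
  refine emb hP (sz 4 X p) (sz 4 X p) (pM g) (pM g')
    (fun i a => if i = a then sz 4 X p i else 0) (fun i => ?_) (fun a => ?_) ?_
  · rw [Finset.sum_ite_eq, if_pos (Finset.mem_univ _)]
  · rw [Finset.sum_ite_eq', if_pos (Finset.mem_univ _)]
  · intro i j a b hij hia hjb
    have h1 : i = a := by
      by_contra hne
      exact hia (if_neg hne)
    have h2 : j = b := by
      by_contra hne
      exact hjb (if_neg hne)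
    subst h1 h2
    exact hij.imp (h _ _) (h _ _)

theorem FDA_perm_le {n q : ℕ} {P : SimpleGraph (Fin n) → Prop} (hP : GP n q P) (X p : ℕ)
    (σ : Equiv.Perm (Fin 5)) (hσ : σ 0 = 0) (g g' : ℕ)
    (h : ∀ a b, pM g' (σ a) (σ b) = pM g a b) : fM P X p g ≤ fM P X p g' := by
  have hs : ∀ i, sz 4 X p (σ i) = sz 4 X p i := by
    intro i
    by_cases hi : i = 0
    · rw [hi, hσ]
    · rw [FDA_szne X p i hi, FDA_szne X p (σ i)]
      intro h1
      exact hi (σ.injective (h1.trans hσ.symm))
  refine emb hP (sz 4 X p) (sz 4 X p) (pM g) (pM g')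
    (fun i a => if a = σ i then sz 4 X p i else 0) (fun i => ?_) (fun a => ?_) ?_
  · rw [Finset.sum_ite_eq', if_pos (Finset.mem_univ _)]
  · have h1 : ∀ i, (if a = σ i then sz 4 X p i else 0) =
        if i = σ.symm a then sz 4 X p i else 0 := by
      intro i
      by_cases h2 : a = σ i
      · rw [if_pos h2, if_pos (by rw [h2, Equiv.symm_apply_apply])]
      · rw [if_neg h2, if_neg (fun h3 => h2 (by rw [h3, Equiv.apply_symm_apply]))]
    rw [Finset.sum_congr rfl (fun i _ => h1 i), Finset.sum_ite_eq', if_pos (Finset.mem_univ _),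
      ← hs, Equiv.apply_symm_apply]
  · intro i j a b hij hia hjb
    have h1 : a = σ i := by
      by_contra hne
      exact hia (if_neg hne)
    have h2 : b = σ j := by
      by_contra hne
      exact hjb (if_neg hne)
    rw [h1, h2, h, h]
    exact hij

theorem fM_perm {n q : ℕ} {P : SimpleGraph (Fin n) → Prop} (hP : GP n q P) (X p : ℕ)
    (σ : Equiv.Perm (Fin 5)) (hσ : σ 0 = 0) (g g' : ℕ)
    (h : ∀ a b, pM g' (σ a) (σ b) = pM g a b) : fM P X p g = fM P X p g' := by
  refine le_antisymm (FDA_perm_le hP X p σ hσ g g' h)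
    (FDA_perm_le hP X p σ.symm ?_ g' g fun a b => ?_)
  · rw [Equiv.symm_apply_eq, hσ]
  · rw [← h, Equiv.apply_symm_apply, Equiv.apply_symm_apply]

theorem fM_swap {n q : ℕ} {P : SimpleGraph (Fin n) → Prop} (hP : GP n q P) (X p : ℕ)
    (hXp : X ≤ p) (g g' : ℕ) (h : ∀ i j a b, pM g i j = true → sw i a = true → sw j b = true →
    pM g' a b = true) : fM P X p g ≤ fM P X p g' := by
  let t : Fin 5 → Fin 5 → ℕ := fun i a =>
    if i = 0 then (if a = 1 then X else 0)
    else if i = 1 then (if a = 0 then X else if a = 1 then p - X else 0)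
    else if a = i then p else 0
  have hsw : ∀ i a, t i a ≠ 0 → sw i a = true := by
    intro i a hia
    simp only [t] at hia
    unfold sw
    split_ifs at hia ⊢ <;> simp_all
  refine emb hP (sz 4 X p) (sz 4 X p) (pM g) (pM g') t (fun i => ?_) (fun a => ?_) ?_
  · rw [Fin.sum_univ_five]
    fin_cases i
    · simp [t, sz]
    · simp only [t, sz]
      simp
      exact Nat.add_sub_cancel' hXp
    · simp [t, sz]; rfl
    · simp [t, sz]; rfl
    · simp [t, sz]; rfl
  · rw [Fin.sum_univ_five]
    fin_cases a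
    · simp [t, sz]
    · simp only [t, sz]
      simp
      exact Nat.add_sub_cancel' hXp
    · simp [t, sz]; rfl
    · simp [t, sz]; rfl
    · simp [t, sz]; rfl
  · intro i j a b hij hia hjb
    rcases hij with h1 | h1
    · exact Or.inl (h i j a b h1 (hsw i a hia) (hsw j b hjb))
    · exact Or.inr (h j i b a h1 (hsw j b hjb) (hsw i a hia))

theorem fM_univ {n q : ℕ} {P : SimpleGraph (Fin n) → Prop} (hP : GP n q P) (hS : Star n P)
    (X p : ℕ) (hp : 0 < p) (hX : 0 < X) (hn : X + 4 * p = n) (g : ℕ) (a : Fin 5)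
    (h : ∀ b, pM g a b = true) : fM P X p g = 1 := by
  refine hv_univ hP hS (sz 4 X p) ?_ (pM g) a ?_ (fun j => Or.inl (h j))
  · rw [Fin.sum_univ_five, FDA_sz0, FDA_szne X p 1 (by decide), FDA_szne X p 2 (by decide),
      FDA_szne X p 3 (by decide), FDA_szne X p 4 (by decide)]
    omega
  · by_cases ha : a = 0
    · rw [ha, FDA_sz0]; omega
    · rw [FDA_szne X p a ha]; omega

end Pool.Agent.H119R2.Kp
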