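import Mathlib
import Pool.Agent.H119R2.Kp.Defs2
import Pool.Agent.H119R2.Kp.PVE
import Pool.Agent.H119R2.Kp.Facts

set_option autoImplicit false

/-! Task FDB of helper119 (Karp / evasiveness): `fM_zero`, `fM_one`, `fM_hub` (helper221). -/

namespace Pool.Agent.H119R2.Kp

open Finset
open Pool.Agent.H98R2.Ev (EV toG NE)


namespace FDB

lemma sz_eq (X p : ℕ) (a : Fin 5) : sz 4 X p a = if a = 0 then X else p := by
  refine Fin.cases ?_ (fun b => ?_) a
  · rfl
  · rw [if_neg (Fin.succ_ne_zero b)]; rfl

lemma pM_symm (g : ℕ) (a b : Fin 5) : pM g a b = pM g b a := by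
  have h : ix a b = ix b a := by
    revert a b; decide
  unfold pM
  rw [h]
  congr 1
  exact decide_eq_decide.2 eq_comm

lemma pM_refl (g : ℕ) (a : Fin 5) : pM g a a = true := by
  unfold pM
  simp

/-- the transport matrix of a two-colouring of the five parts -/
def tc (X p : ℕ) (i a : Fin 5) (b : Fin 2) : ℕ :=
  if (a = 0 ∨ a = i) then (if b = 0 then sz 4 X p a else 0) else (if b = 1 then sz 4 X p a else 0)

lemma tc_row (X p : ℕ) (i a : Fin 5) : ∑ b, tc X p i a b = sz 4 X p a := by
  rw [Fin.sum_univ_two]
  unfold tc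
  split_ifs <;> simp_all

lemma tc_col (X p : ℕ) (i : Fin 5) (hi : i ≠ 0) (b : Fin 2) :
    ∑ a, tc X p i a b = (![X + p, 3 * p] : Fin 2 → ℕ) b := by
  rw [Fin.sum_univ_five]
  unfold tc
  simp only [sz_eq]
  fin_cases b
  · fin_cases i <;> simp at hi ⊢
  · fin_cases i <;> simp at hi ⊢ <;> ring

end FDB

open FDB

theorem fM_zero {n q : ℕ} {P : SimpleGraph (Fin n) → Prop} (hP : GP n q P) (hS : Star n P)
    (X p : ℕ) [Fact p.Prime] (hp : 3 < p) (hX : 0 < X) (hn : X + 4 * p = n)
    (hq : q < 3 * X * p + 6 * p * p) (g : ℕ) (i : Fin 5) (hi : i ≠ 0)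
    (h : ∀ a b, (a = 0 ∨ a = i) → ¬(b = 0 ∨ b = i) → pM g a b = false) : fM P X p g = 0 := by
  have h1 : fM P X p g ≤ hv P ![X + p, 3 * p] (pat [(0, 0), (1, 1)]) := by
    refine emb hP (sz 4 X p) _ (pM g) _ (fun a b => tc X p i a b) (tc_row X p i)
      (tc_col X p i hi) ?_
    intro u v a b huv hua hvb
    have huv' : pM g u v = true := by
      rcases huv with huv | huv
      · exact huv
      · rw [pM_symm]; exact huv
    have hab : a = b := by
      have hu : (a = 0 ↔ (u = 0 ∨ u = i)) := by
        unfold tc at hua
        by_cases hu : u = 0 ∨ u = i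
        · rw [if_pos hu] at hua
          refine ⟨fun _ => hu, fun _ => ?_⟩
          by_contra ha
          rw [if_neg ha] at hua
          exact hua rfl
        · rw [if_neg hu] at hua
          refine ⟨fun ha => ?_, fun hu' => absurd hu' hu⟩
          subst ha
          simp at hua
      have hv' : (b = 0 ↔ (v = 0 ∨ v = i)) := by
        unfold tc at hvb
        by_cases hv : v = 0 ∨ v = i
        · rw [if_pos hv] at hvb
          refine ⟨fun _ => hv, fun _ => ?_⟩
          by_contra ha
          rw [if_neg ha] at hvb
          exact hvb rfl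
        · rw [if_neg hv] at hvb
          refine ⟨fun ha => ?_, fun hu' => absurd hu' hv⟩
          subst ha
          simp at hvb
      by_contra hab
      by_cases ha : a = 0
      · have hb : b ≠ 0 := fun hb => hab (ha.trans hb.symm)
        have := h u v (hu.1 ha) (fun hc => hb (hv'.2 hc))
        rw [this] at huv'
        exact Bool.noConfusion huv'
      · have hb : b = 0 := by
          clear hua hvb hu hv'
          revert a b
          decide
        have := h v u (hv'.1 hb) (fun hc => ha (hu.2 hc))
        rw [pM_symm, this] at huv'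
        exact Bool.noConfusion huv'
    subst hab
    left
    clear hua hvb
    revert a
    decide
  rw [disc3 hP hS p (X + p) hp (by omega) (by omega) (by nlinarith)] at h1
  rcases hv01 P (sz 4 X p) (pM g) with h2 | h2
  · exact h2
  · unfold fM at h1
    rw [h2] at h1
    norm_num at h1

theorem fM_one {n q : ℕ} {P : SimpleGraph (Fin n) → Prop} (hP : GP n q P) (hS : Star n P)
    (X p : ℕ) [Fact p.Prime] (hp : 3 < p) (hX : 0 < X) (hn : X + 4 * p = n)
    (hq : q < 3 * X * p + 6 * p * p) (g : ℕ) (i : Fin 5) (hi : i ≠ 0)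
    (h : ∀ a b, (a = 0 ∨ a = i) → ¬(b = 0 ∨ b = i) → pM g a b = true) : fM P X p g = 1 := by
  have h1 : hv P ![X + p, 3 * p] (pat [(0, 1)]) ≤ fM P X p g := by
    refine emb hP _ (sz 4 X p) _ (pM g) (fun b a => tc X p i a b) (tc_col X p i hi)
      (tc_row X p i) ?_
    intro u v a b huv hua hvb
    have hne : u ≠ v := by
      rintro rfl
      revert huv
      clear hua hvb
      revert u
      decide
    have hu : (u = 0 ↔ (a = 0 ∨ a = i)) := by
      unfold tc at hua
      by_cases hu : a = 0 ∨ a = i
      · rw [if_pos hu] at hua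
        refine ⟨fun _ => hu, fun _ => ?_⟩
        by_contra ha
        rw [if_neg ha] at hua
        exact hua rfl
      · rw [if_neg hu] at hua
        refine ⟨fun ha => ?_, fun hu' => absurd hu' hu⟩
        subst ha
        simp at hua
    have hv' : (v = 0 ↔ (b = 0 ∨ b = i)) := by
      unfold tc at hvb
      by_cases hv : b = 0 ∨ b = i
      · rw [if_pos hv] at hvb
        refine ⟨fun _ => hv, fun _ => ?_⟩
        by_contra ha
        rw [if_neg ha] at hvb
        exact hvb rfl
      · rw [if_neg hv] at hvb
        refine ⟨fun ha => ?_, fun hu' => absurd hu' hv⟩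
        subst ha
        simp at hvb
    by_cases ha : u = 0
    · have hb : v ≠ 0 := fun hb => hne (ha.trans hb.symm)
      left
      exact h a b (hu.1 ha) (fun hc => hb (hv'.2 hc))
    · have hb : v = 0 := by
        clear huv hua hvb hu hv'
        revert u v
        decide
      right
      exact h b a (hv'.1 hb) (fun hc => ha (hu.2 hc))
  rw [codisc3 hP hS p (X + p) hp (by omega) (by omega) (by nlinarith)] at h1
  rcases hv01 P (sz 4 X p) (pM g) with h2 | h2
  · exfalso
    unfold fM at h1
    rw [h2] at h1
    norm_num at h1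
  · exact h2

/-- `910` is the mask of `K_p` (part `1`) plus a clique on the other parts -/
theorem fM_hub {n q : ℕ} {P : SimpleGraph (Fin n) → Prop} (hP : GP n q P) (hS : Star n P)
    (X p : ℕ) (hX : 0 < X) (hXp : X < p) (hn : X + 4 * p = n)
    (z r : ℕ) [Fact z.Prime] (hz : 3 < z) (hr : 0 < r) (hrX : r ≤ X) (hz' : p + r + 3 * z = n)
    (hq : q < 3 * z * p + 3 * z * z) (g : ℕ) (j i : Fin 5) (hij : j ≠ i)
    (h : ∀ a, a ≠ i → pM g j a = true)
    (h' : i ≠ 0 ∨ ∃ b, b ≠ j ∧ b ≠ 0 ∧ pM g 0 b = true) : fM P X p 910 ≤ fM P X p g := by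
  rcases hv01 P (sz 4 X p) (pM 910) with h910 | h910
  · unfold fM
    rw [h910]
    rcases hv01 P (sz 4 X p) (pM g) with h2 | h2 <;> rw [h2]
    norm_num
  -- the value at `K_p ∪ K_{n-p}`
  have e1 : hv P (sz 4 X p) (pM 910) ≤ hv P ![p, r + 3 * z] (pat [(0, 0), (1, 1)]) := by
    refine emb hP (sz 4 X p) _ (pM 910) _
      (fun a b => if (a = 1 ↔ b = 0) then sz 4 X p a else 0) ?_ ?_ ?_
    · intro a
      rw [Fin.sum_univ_two]
      by_cases ha : a = 1 <;> simp [ha]
    · intro b
      rw [Fin.sum_univ_five]
      simp only [sz_eq]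
      fin_cases b
      · simp
      · simp
        omega
    · intro u v a b huv hua hvb
      have hu : (u = 1 ↔ a = 0) := by
        by_contra hc
        exact hua (if_neg hc)
      have hv' : (v = 1 ↔ b = 0) := by
        by_contra hc
        exact hvb (if_neg hc)
      clear hua hvb
      revert u v a b
      decide
  rw [h910] at e1
  have e2 : hv P ![p, r + 3 * z] (pat [(0, 0), (1, 1)]) = 1 := by
    rcases hv01 P ![p, r + 3 * z] (pat [(0, 0), (1, 1)]) with h2 | h2
    · rw [h2] at e1; norm_num at e1
    · exact h2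
  have e3 := hub1 hP hS z p r hz (by omega) hr hz' hq e2
  have e4 : hv P ![p, r, 3 * z] (pat [(0, 0), (1, 1), (1, 2)]) ≤ fM P X p g := by
    have hpat : ∀ u v : Fin 3, (pat [((0 : Fin 3), (0 : Fin 3)), (1, 1), (1, 2)] u v = true ∨
        pat [((0 : Fin 3), (0 : Fin 3)), (1, 1), (1, 2)] v u = true) →
        (u = 0 ∧ v = 0) ∨ (u = 1 ∧ v = 1) ∨ (u = 1 ∧ v = 2) ∨ (u = 2 ∧ v = 1) := by decide
    by_cases hi : i = 0
    · subst hi
      obtain ⟨b0, hb0j, hb00, hb0⟩ : ∃ b, b ≠ j ∧ b ≠ 0 ∧ pM g 0 b = true := by
        rcases h' with h' | h'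
        · exact absurd rfl h'
        · exact h'
      let t : Fin 3 → Fin 5 → ℕ := ![fun a => if a = 0 then X else if a = b0 then p - X else 0,
        fun a => if a = j then r else 0,
        fun a => if a = 0 then 0 else if a = b0 then X else if a = j then p - r else p]
      have hcol : ∀ a, ∑ i, t i a = sz 4 X p a := by
        intro a
        rw [Fin.sum_univ_three, sz_eq]
        simp only [t, Matrix.cons_val_zero, Matrix.cons_val_one, Matrix.cons_val]
        split_ifs <;> omega
      have hr0 : ∑ a, t 0 a = p := by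
        have : ∀ a, t 0 a = (if a = 0 then X else 0) + (if a = b0 then p - X else 0) := by
          intro a
          simp only [t, Matrix.cons_val_zero]
          split_ifs <;> omega
        rw [Finset.sum_congr rfl (fun a _ => this a), Finset.sum_add_distrib]
        simp
        omega
      have hr1 : ∑ a, t 1 a = r := by
        simp [t]
      have hr2 : ∑ a, t 2 a = 3 * z := by
        have h1 : ∑ a, ∑ i, t i a = n := by
          rw [Finset.sum_congr rfl (fun a _ => hcol a), Fin.sum_univ_five]
          simp only [sz_eq]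
          simp
          omega
        rw [Finset.sum_comm, Fin.sum_univ_three, hr0, hr1] at h1
        omega
      refine emb hP _ (sz 4 X p) _ (pM g) t ?_ hcol ?_
      · intro u
        fin_cases u
        · exact hr0
        · exact hr1
        · exact hr2
      · intro u v a b huv hua hvb
        have H0 : ∀ a, t 0 a ≠ 0 → a = 0 ∨ a = b0 := by
          intro a ha
          by_contra hc
          push Not at hc
          apply ha
          simp [t, hc.1, hc.2]
        have H1 : ∀ a, t 1 a ≠ 0 → a = j := by
          intro a ha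
          by_contra hc
          apply ha
          simp [t, hc]
        have H2 : ∀ a, t 2 a ≠ 0 → a ≠ 0 := by
          intro a ha hc
          apply ha
          simp [t, hc]
        rcases hpat u v huv with ⟨rfl, rfl⟩ | ⟨rfl, rfl⟩ | ⟨rfl, rfl⟩ | ⟨rfl, rfl⟩
        · rcases H0 a hua with rfl | rfl <;> rcases H0 b hvb with rfl | rfl
          · exact Or.inl (pM_refl _ _)
          · exact Or.inl hb0
          · exact Or.inr hb0
          · exact Or.inl (pM_refl _ _)
        · rw [H1 a hua, H1 b hvb]
          exact Or.inl (pM_refl _ _)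
        · rw [H1 a hua]
          exact Or.inl (h b (H2 b hvb))
        · rw [H1 b hvb]
          exact Or.inr (h a (H2 a hua))
    · let t : Fin 3 → Fin 5 → ℕ := ![fun a => if a = i then p else 0,
        fun a => if a = j then r else 0,
        fun a => if a = i then 0 else if a = j then sz 4 X p a - r else sz 4 X p a]
      have hcol : ∀ a, ∑ i, t i a = sz 4 X p a := by
        intro a
        rw [Fin.sum_univ_three]
        simp only [t, Matrix.cons_val_zero, Matrix.cons_val_one, Matrix.cons_val, sz_eq]
        split_ifs <;> omega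
      have hr0 : ∑ a, t 0 a = p := by
        simp [t]
      have hr1 : ∑ a, t 1 a = r := by
        simp [t]
      have hr2 : ∑ a, t 2 a = 3 * z := by
        have h1 : ∑ a, ∑ i, t i a = n := by
          rw [Finset.sum_congr rfl (fun a _ => hcol a), Fin.sum_univ_five]
          simp only [sz_eq]
          simp
          omega
        rw [Finset.sum_comm, Fin.sum_univ_three, hr0, hr1] at h1
        omega
      refine emb hP _ (sz 4 X p) _ (pM g) t ?_ hcol ?_
      · intro u
        fin_cases u
        · exact hr0
        · exact hr1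
        · exact hr2
      · intro u v a b huv hua hvb
        have H0 : ∀ a, t 0 a ≠ 0 → a = i := by
          intro a ha
          by_contra hc
          apply ha
          simp [t, hc]
        have H1 : ∀ a, t 1 a ≠ 0 → a = j := by
          intro a ha
          by_contra hc
          apply ha
          simp [t, hc]
        have H2 : ∀ a, t 2 a ≠ 0 → a ≠ i := by
          intro a ha hc
          apply ha
          simp [t, hc]
        rcases hpat u v huv with ⟨rfl, rfl⟩ | ⟨rfl, rfl⟩ | ⟨rfl, rfl⟩ | ⟨rfl, rfl⟩
        · rw [H0 a hua, H0 b hvb]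
          exact Or.inl (pM_refl _ _)
        · rw [H1 a hua, H1 b hvb]
          exact Or.inl (pM_refl _ _)
        · rw [H1 a hua]
          exact Or.inl (h b (H2 b hvb))
        · rw [H1 b hvb]
          exact Or.inr (h a (H2 a hua))
  rw [e3] at e4
  unfold fM at e4 ⊢
  rw [h910]
  exact e4

end Pool.Agent.H119R2.Kp
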