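import Mathlib
import Pool.Agent.H119R2.Kp.Defs2
import Pool.Agent.H119R2.Kp.PVE
import Pool.Agent.H119R2.Kp.Facts
import Pool.Agent.H119R2.Kp.RelSw
import Pool.Agent.H119R2.Kp.Even

set_option autoImplicit false

/-! Task OD of helper119 (Karp / evasiveness): the odd case (helper56). -/

namespace Pool.Agent.H119R2.Kp

open Finset
open Pool.Agent.H98R2.Ev (EV toG NE)

/-- the value of the subset `I` -/
noncomputable def od_v {n : ℕ} (P : SimpleGraph (Fin n) → Prop) (X p : ℕ)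
    (I : Finset (Fin 6)) : ℤ := hv P (sz 4 X p) (addCls (pat oddBase) oddCls I)

/-- the subsets of value one -/
def od_c (I : Finset (Fin 6)) : Bool :=
  decide (1 ∈ I) || decide (4 ∈ I) ||
    ((decide (0 ∈ I) || decide (2 ∈ I)) && (decide (3 ∈ I) || decide (5 ∈ I)))

theorem od_sum : ∑ I : Finset (Fin 6), (-1 : ℤ) ^ I.card * (if od_c I = true then 1 else 0) = 1 := by
  decide +kernel

/-- minimal subsets of value one -/
theorem od_min : ∀ I : Finset (Fin 6), od_c I = true →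
    ({1} ⊆ I ∨ {4} ⊆ I ∨ {0, 3} ⊆ I ∨ {2, 3} ⊆ I ∨ {0, 5} ⊆ I ∨ {2, 5} ⊆ I) := by
  decide +kernel

theorem od_max : ∀ I : Finset (Fin 6), od_c I = false → (I ⊆ {0, 2} ∨ I ⊆ {3, 5}) := by
  decide +kernel

theorem addCls_mono {k m : ℕ} (Γ : Fin k → Fin k → Bool) (O : Fin m → List (Fin k × Fin k))
    {I J : Finset (Fin m)} (h : I ⊆ J) (a b : Fin k) (hI : addCls Γ O I a b = true) :
    addCls Γ O J a b = true := by
  unfold addCls at hI ⊢
  rw [Bool.or_eq_true] at hI ⊢
  rcases hI with h1 | h1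
  · exact Or.inl h1
  · right
    rw [decide_eq_true_eq] at h1 ⊢
    obtain ⟨j, hj, hj'⟩ := h1
    exact ⟨j, h hj, hj'⟩

theorem od_mono {n q : ℕ} {P : SimpleGraph (Fin n) → Prop} (hP : GP n q P) (X p : ℕ)
    {I J : Finset (Fin 6)} (hIJ : I ⊆ J) : od_v P X p I ≤ od_v P X p J := by
  refine emb hP _ _ _ _ (fun i a => if i = a then sz 4 X p i else 0) ?_ ?_ ?_
  · intro i
    simp
  · intro a
    simp
  · intro i j a b hij hia hjb
    have h1 : i = a := by
      by_contra h
      exact hia (if_neg h)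
    have h2 : j = b := by
      by_contra h
      exact hjb (if_neg h)
    subst h1 h2
    rcases hij with h | h
    · exact Or.inl (addCls_mono _ _ hIJ _ _ h)
    · exact Or.inr (addCls_mono _ _ hIJ _ _ h)

theorem od_zero1 {n q : ℕ} {P : SimpleGraph (Fin n) → Prop} (hP : GP n q P) (hS : Star n P)
    (X p : ℕ) (hp : 0 < p) : od_v P X p {0, 2} = 0 := by
  refine hv_isol hP hS (sz 4 X p) _ 3 ?_ (by decide)
  have : sz 4 X p 3 = p := rfl
  omega

/-- support of the map of the five parts onto two parts -/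
def od_S (i : Fin 5) (a : Fin 2) : Bool := decide (a = ![0, 1, 0, 1, 1] i)

theorem od_zero2 {n q : ℕ} {P : SimpleGraph (Fin n) → Prop} (hP : GP n q P) (X p : ℕ)
    (h0 : hv P ![X + p, 3 * p] (pat [(0, 0), (1, 1)]) = 0) : od_v P X p {3, 5} = 0 := by
  have h1 : od_v P X p {3, 5} ≤ hv P ![X + p, 3 * p] (pat [(0, 0), (1, 1)]) := by
    refine ev_emb hP _ _ _ _ ![![X, 0], ![0, p], ![p, 0], ![0, p], ![0, p]] od_S ?_ ?_ ?_
      (by decide)
    · intro i
      fin_cases i <;> simp [sz, Fin.sum_univ_succ] <;> rfl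
    · intro a
      fin_cases a <;> simp [Fin.sum_univ_succ]
      ring
    · intro i a
      fin_cases i <;> fin_cases a <;> simp [od_S]
  rw [h0] at h1
  rcases hv01 P (sz 4 X p) (addCls (pat oddBase) oddCls {3, 5}) with h2 | h2
  · exact h2
  · have h3 : od_v P X p {3, 5} = 1 := h2
    omega

/-- support of the map of the five parts onto three parts -/
def od_S5 (i : Fin 5) (a : Fin 3) : Bool := decide (a = ![2, 2, 2, 0, 1] i)

theorem od_first {n q : ℕ} {P : SimpleGraph (Fin n) → Prop} (hP : GP n q P) (X p m : ℕ)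
    (hm : m = X + 2 * p) :
    fM P X p 19 ≤ hv P ![p, p, m] (pat [(0, 0), (1, 1), (2, 2)]) := by
  refine ev_emb hP _ _ _ _
    ![![0, 0, X], ![0, 0, p], ![0, 0, p], ![p, 0, 0], ![0, p, 0]]
    od_S5 ?_ ?_ ?_ (by decide)
  · intro i
    fin_cases i <;> simp [sz, Fin.sum_univ_succ] <;> rfl
  · intro a
    fin_cases a <;> simp [Fin.sum_univ_succ]
    omega
  · intro i a
    fin_cases i <;> fin_cases a <;> simp [od_S5]

theorem od_sz (X p : ℕ) (a : Fin 5) : sz 4 X p a = (![X, p, p, p, p] : Fin 5 → ℕ) a := by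
  fin_cases a <;> rfl

/-- support of the embedding with the list of targets -/
def od_T (l : Fin 4 → List (Fin 5)) (i : Fin 4) (a : Fin 5) : Bool := decide (a ∈ l i)

/-- embedding of the hub pattern -/
theorem od_hub {n q : ℕ} {P : SimpleGraph (Fin n) → Prop} (hP : GP n q P) (X p r m : ℕ)
    (I : Finset (Fin 6)) (t : Fin 4 → Fin 5 → ℕ) (S : Fin 4 → Fin 5 → Bool)
    (hrow : ∀ i, ∑ a, t i a = (![p, p, r, m] : Fin 4 → ℕ) i)
    (hcol : ∀ a, ∑ i, t i a = (![X, p, p, p, p] : Fin 5 → ℕ) a)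
    (hS : ∀ i a, S i a = false → t i a = 0)
    (hΓ : ∀ i j a b, S i a = true → S j b = true →
      (pat [(0, 0), (1, 1), (2, 2), (2, 3)] : Fin 4 → Fin 4 → Bool) i j = true →
      (addCls (pat oddBase) oddCls I a b || addCls (pat oddBase) oddCls I b a) = true)
    (h : hv P ![p, p, r, m] (pat [(0, 0), (1, 1), (2, 2), (2, 3)]) = 1) :
    1 ≤ od_v P X p I := by
  rw [← h]
  exact ev_emb hP _ _ _ _ t S hrow (fun a => (hcol a).trans (od_sz X p a).symm) hS hΓ

section

variable {n q : ℕ} {P : SimpleGraph (Fin n) → Prop}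

theorem od_1 (hP : GP n q P) (X p r m : ℕ) (hr : r ≤ X) (hm : m + r = X + 2 * p)
    (h : hv P ![p, p, r, m] (pat [(0, 0), (1, 1), (2, 2), (2, 3)]) = 1) :
    1 ≤ od_v P X p {1} := by
  refine od_hub hP X p r m _
    ![![0, p, 0, 0, 0], ![0, 0, p, 0, 0], ![r, 0, 0, 0, 0], ![X - r, 0, 0, p, p]]
    (od_T ![[1], [2], [0], [0, 3, 4]]) ?_ ?_ ?_ (by decide) h
  · intro i
    fin_cases i <;> simp [Fin.sum_univ_succ]
    omega
  · intro a
    fin_cases a <;> simp [Fin.sum_univ_succ]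
    omega
  · intro i a
    fin_cases i <;> fin_cases a <;> simp [od_T]

theorem od_4 (hP : GP n q P) (X p r m : ℕ) (hXp : X < p) (hr : r ≤ X) (hm : m + r = X + 2 * p)
    (h : hv P ![p, p, r, m] (pat [(0, 0), (1, 1), (2, 2), (2, 3)]) = 1) :
    1 ≤ od_v P X p {4} := by
  refine od_hub hP X p r m _
    ![![0, p, 0, 0, 0], ![X, 0, p - X, 0, 0], ![0, 0, r, 0, 0], ![0, 0, X - r, p, p]]
    (od_T ![[1], [0, 2], [2], [2, 3, 4]]) ?_ ?_ ?_ (by decide) h
  · intro i
    fin_cases i <;> simp [Fin.sum_univ_succ] <;> omega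
  · intro a
    fin_cases a <;> simp [Fin.sum_univ_succ]
    omega
  · intro i a
    fin_cases i <;> fin_cases a <;> simp [od_T]

theorem od_03 (hP : GP n q P) (X p r m : ℕ) (hXp : X < p) (hr : r ≤ X) (hm : m + r = X + 2 * p)
    (h : hv P ![p, p, r, m] (pat [(0, 0), (1, 1), (2, 2), (2, 3)]) = 1) :
    1 ≤ od_v P X p {0, 3} := by
  refine od_hub hP X p r m _
    ![![X, p - X, 0, 0, 0], ![0, 0, p, 0, 0], ![0, r, 0, 0, 0], ![0, X - r, 0, p, p]]
    (od_T ![[0, 1], [2], [1], [1, 3, 4]]) ?_ ?_ ?_ (by decide) h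
  · intro i
    fin_cases i <;> simp [Fin.sum_univ_succ] <;> omega
  · intro a
    fin_cases a <;> simp [Fin.sum_univ_succ]
    omega
  · intro i a
    fin_cases i <;> fin_cases a <;> simp [od_T]

theorem od_23 (hP : GP n q P) (X p r m : ℕ) (hXp : X < p) (hr : r ≤ X) (hm : m + r = X + 2 * p)
    (h : hv P ![p, p, r, m] (pat [(0, 0), (1, 1), (2, 2), (2, 3)]) = 1) :
    1 ≤ od_v P (X) p {2, 3} := by
  -- a -> X vertices of part 2 and p - X of part 1; b -> X of part 0 and p - X of part 2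
  refine od_hub hP X p r m _
    ![![X, 0, p - X, 0, 0], ![0, p - X, X, 0, 0], ![0, r, 0, 0, 0], ![0, X - r, 0, p, p]]
    (od_T ![[0, 2], [1, 2], [1], [1, 3, 4]]) ?_ ?_ ?_ (by decide) h
  · intro i
    fin_cases i <;> simp [Fin.sum_univ_succ] <;> omega
  · intro a
    fin_cases a <;> simp [Fin.sum_univ_succ] <;> omega
  · intro i a
    fin_cases i <;> fin_cases a <;> simp [od_T]

theorem od_05 (hP : GP n q P) (X p r m : ℕ) (hr : r ≤ X) (hm : m + r = X + 2 * p)
    (h : hv P ![p, p, r, m] (pat [(0, 0), (1, 1), (2, 2), (2, 3)]) = 1) :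
    1 ≤ od_v P X p {0, 5} := by
  refine od_hub hP X p r m _
    ![![0, 0, 0, p, 0], ![0, 0, 0, 0, p], ![r, 0, 0, 0, 0], ![X - r, p, p, 0, 0]]
    (od_T ![[3], [4], [0], [0, 1, 2]]) ?_ ?_ ?_ (by decide) h
  · intro i
    fin_cases i <;> simp [Fin.sum_univ_succ]
    omega
  · intro a
    fin_cases a <;> simp [Fin.sum_univ_succ]
    omega
  · intro i a
    fin_cases i <;> fin_cases a <;> simp [od_T]

theorem od_25 (hP : GP n q P) (X p r m : ℕ) (hXp : X < p) (hr : r ≤ X) (hm : m + r = X + 2 * p)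
    (h : hv P ![p, p, r, m] (pat [(0, 0), (1, 1), (2, 2), (2, 3)]) = 1) :
    1 ≤ od_v P X p {2, 5} := by
  refine od_hub hP X p r m _
    ![![0, 0, 0, p, 0], ![0, 0, 0, 0, p], ![0, 0, r, 0, 0], ![X, p, p - r, 0, 0]]
    (od_T ![[3], [4], [2], [0, 1, 2]]) ?_ ?_ ?_ (by decide) h
  · intro i
    fin_cases i <;> simp [Fin.sum_univ_succ]
    omega
  · intro a
    fin_cases a <;> simp [Fin.sum_univ_succ]
    omega
  · intro i a
    fin_cases i <;> fin_cases a <;> simp [od_T]

end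

theorem od_01 {n : ℕ} (P : SimpleGraph (Fin n) → Prop) (X p : ℕ) (I : Finset (Fin 6)) :
    od_v P X p I = 0 ∨ od_v P X p I = 1 := hv01 P _ _

theorem odd_contra_of {n q : ℕ} {P : SimpleGraph (Fin n) → Prop} (hP : GP n q P) (hS : Star n P)
    (X p : ℕ) (hp : 3 < p) (hXp : X < p) (r m : ℕ) (hr : r ≤ X) (hm : m + r = X + 2 * p)
    (hdisc : hv P ![X + p, 3 * p] (pat [(0, 0), (1, 1)]) = 0)
    (hrel : ∑ I : Finset (Fin 6), (-1 : ℤ) ^ I.card *
      hv P (sz 4 X p) (addCls (pat oddBase) oddCls I) = 0)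
    (h : hv P ![p, p, r, m] (pat [(0, 0), (1, 1), (2, 2), (2, 3)]) = 1) : False := by
  have hv : ∀ I : Finset (Fin 6), od_v P X p I = if od_c I = true then 1 else 0 := by
    intro I
    have h01 := od_01 P X p I
    by_cases hc : od_c I = true
    · rw [if_pos hc]
      have h1 : 1 ≤ od_v P X p I := by
        rcases od_min I hc with h' | h' | h' | h' | h' | h'
        · exact (od_1 hP X p r m hr hm h).trans (od_mono hP X p h')
        · exact (od_4 hP X p r m hXp hr hm h).trans (od_mono hP X p h')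
        · exact (od_03 hP X p r m hXp hr hm h).trans (od_mono hP X p h')
        · exact (od_23 hP X p r m hXp hr hm h).trans (od_mono hP X p h')
        · exact (od_05 hP X p r m hr hm h).trans (od_mono hP X p h')
        · exact (od_25 hP X p r m hXp hr hm h).trans (od_mono hP X p h')
      omega
    · rw [if_neg hc]
      rw [Bool.not_eq_true] at hc
      have h1 : od_v P X p I ≤ 0 := by
        rcases od_max I hc with h' | h'
        · exact (od_mono hP X p h').trans (od_zero1 hP hS X p (by omega)).le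
        · exact (od_mono hP X p h').trans (od_zero2 hP X p hdisc).le
      omega
  have hsum : ∑ I : Finset (Fin 6), (-1 : ℤ) ^ I.card * od_v P X p I = 0 := hrel
  have h3 : ∑ I : Finset (Fin 6), (-1 : ℤ) ^ I.card * od_v P X p I =
      ∑ I : Finset (Fin 6), (-1 : ℤ) ^ I.card * (if od_c I = true then 1 else 0) :=
    sum_congr rfl fun I _ => by rw [hv I]
  rw [hsum, od_sum] at h3
  exact absurd h3 (by norm_num)

theorem odd_contra {n q : ℕ} {P : SimpleGraph (Fin n) → Prop} (hP : GP n q P) (hS : Star n P)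
    (X p : ℕ) [Fact p.Prime] (hp : 3 < p) (hX : Odd X) (hXp : X < p) (hn : X + 4 * p = n)
    (hq : q + p < 3 * X * p + 6 * p * p)
    (z r : ℕ) [Fact z.Prime] (hz : 3 < z) (hr : 0 < r) (hrX : r ≤ X) (hz' : 2 * p + r + 3 * z = n)
    (hq' : q < 3 * z * (2 * p) + 3 * z * z) (he : fM P X p 19 = 1) : False := by
  have hX0 : 0 < X := hX.pos
  have hn' : (X + p) + 3 * p = n := by omega
  have hq1 : q < 3 * p * (X + p) + 3 * p * p := by
    have e : 3 * p * (X + p) + 3 * p * p = 3 * X * p + 6 * p * p := by ring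
    rw [e]
    omega
  have hq2 : q < 3 * p * X + 5 * p * p + p * (p - 1) := by
    obtain ⟨k, rfl⟩ : ∃ k, p = k + 1 := ⟨p - 1, by omega⟩
    have e : 3 * (k + 1) * X + 5 * (k + 1) * (k + 1) + (k + 1) * (k + 1 - 1) + (k + 1) =
        3 * X * (k + 1) + 6 * (k + 1) * (k + 1) := by
      rw [Nat.add_sub_cancel]
      ring
    omega
  have h1 : hv P ![p, p, r + 3 * z] (pat [(0, 0), (1, 1), (2, 2)]) = 1 := by
    have h2 := od_first hP X p (r + 3 * z) (by omega)
    rw [he] at h2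
    rcases hv01 P ![p, p, r + 3 * z] (pat [(0, 0), (1, 1), (2, 2)]) with h3 | h3
    · rw [h3] at h2
      exact absurd h2 (by norm_num)
    · exact h3
  have h4 := hub2 hP hS z p r hz (by omega) hr hz' hq' h1
  exact odd_contra_of hP hS X p hp hXp r (3 * z) hrX (by omega)
    (disc3 hP hS p (X + p) hp (by omega) hn' hq1)
    (relOdd hP X p (by omega) hX hn hq2) h4

end Pool.Agent.H119R2.Kp
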