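import Mathlib
import Pool.Agent.H119R2.Kp.Defs2
import Pool.Agent.H119R2.Kp.Alt
import Pool.Agent.H119R2.Kp.FDA
import Pool.Agent.H119R2.Kp.FDB
import Pool.Agent.H119R2.Kp.Cert
import Pool.Agent.H119R2.Kp.Even
import Pool.Agent.H119R2.Kp.Odd

set_option autoImplicit false

/-! MP_257582_lc: assembly of the combinatorial part -/

namespace Pool.Agent.H119R2.Kp

open Finset
open Pool.Agent.H98R2.Ev (EV toG NE)

theorem fM_FD {n q : ℕ} {P : SimpleGraph (Fin n) → Prop} (hP : GP n q P) (hS : Star n P)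
    (X p : ℕ) [Fact p.Prime] (hp : 3 < p) (hX : 0 < X) (hXp : X < p) (hn : X + 4 * p = n)
    (hq : q < 3 * X * p + 6 * p * p) (hq9 : q < 4 * X * p + 5 * p * p)
    (z1 r1 : ℕ) [Fact z1.Prime] (hz1 : 3 < z1) (hr1 : 0 < r1) (hrX1 : r1 ≤ X)
    (hz1' : p + r1 + 3 * z1 = n) (hq1 : q < 3 * z1 * p + 3 * z1 * z1) : FD (fM P X p) where
  h01 := fun _ => hv01 P _ _
  mono := fun g g' h => fM_mono hP X p g g' h
  perm := fun σ hσ g g' h => fM_perm hP X p σ hσ g g' h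
  swap := fun g g' h => fM_swap hP X p hXp.le g g' h
  zero := fun g i hi h => fM_zero hP hS X p hp hX hn hq g i hi h
  one := fun g i hi h => fM_one hP hS X p hp hX hn hq g i hi h
  univ := fun g a h => fM_univ hP hS X p (by omega) hX hn g a h
  rel0 := fM_rel0 hP X p hX hn hq
  rel9 := fM_rel9 hP X p hX hn hq9
  relM := fM_relM hP X p hX hn hq
  hub := fun g j i hij h h' => fM_hub hP hS X p hX hXp hn z1 r1 hz1 hr1 hrX1 hz1' hq1 g j i hij h h'

theorem core {n q : ℕ} {P : SimpleGraph (Fin n) → Prop} (hP : GP n q P) (hS : Star n P)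
    (X p : ℕ) [Fact p.Prime] (hp : 3 < p) (hX : 0 < X) (hXp : X < p) (hn : X + 4 * p = n)
    (hq : q + p < 3 * X * p + 6 * p * p) (hq9 : q < 4 * X * p + 5 * p * p)
    (z1 r1 : ℕ) [Fact z1.Prime] (hz1 : 3 < z1) (hr1 : 0 < r1) (hrX1 : r1 ≤ X)
    (hz1' : p + r1 + 3 * z1 = n) (hq1 : q < 3 * z1 * p + 3 * z1 * z1)
    (z2 r2 : ℕ) [Fact z2.Prime] (hz2 : 3 < z2) (hr2 : 0 < r2) (hrX2 : r2 ≤ X)
    (hz2' : 2 * p + r2 + 3 * z2 = n) (hq2 : q < 3 * z2 * (2 * p) + 3 * z2 * z2) : False := by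
  have he : fM P X p 19 = 1 :=
    cert _ (fM_FD hP hS X p hp hX hXp hn (by omega) hq9 z1 r1 hz1 hr1 hrX1 hz1' hq1)
  have hpodd : Odd p := (Fact.out : p.Prime).odd_of_ne_two (by omega)
  rcases Nat.even_or_odd X with h | h
  · exact even_contra hP hS X p hp hX (h.add_odd hpodd) hn hq he
  · exact odd_contra hP hS X p hp h hXp hn hq z2 r2 hz2 hr2 hrX2 hz2' hq2 he

end Pool.Agent.H119R2.Kp
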