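import Mathlib
import Pool.Agent.Helper923.PNT

set_option autoImplicit false

namespace Pool.Agent.H119R2.Kp

open Filter Topology

theorem prime_between (δ : ℝ) (hδ : 0 < δ) :
    ∃ N : ℕ, ∀ x : ℝ, (N : ℝ) ≤ x → ∃ p : ℕ, p.Prime ∧ x < p ∧ (p : ℝ) < (1 + δ) * x := by
  have h1 := Pool.Agent.Helper923.PNT.theta_div_tendsto
  -- theta(x) <= (1 + δ/8) x, theta(y) >= (1 - δ/8) y eventually; reduce to δ ≤ 1
  set ε : ℝ := min δ 1 / 8 with hε
  have hε0 : 0 < ε := by
    have : 0 < min δ 1 := lt_min hδ one_pos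
    positivity
  have hε1 : ε ≤ 1 / 8 := by
    have : min δ 1 ≤ 1 := min_le_right _ _
    linarith
  have hεδ : 8 * ε ≤ δ := by
    have : min δ 1 ≤ δ := min_le_left _ _
    linarith
  have h2 : ∀ᶠ x : ℝ in atTop, |Chebyshev.theta x / x - 1| < ε := by
    have := (Metric.tendsto_nhds.mp h1) ε hε0
    simpa [Real.dist_eq] using this
  obtain ⟨M, hM⟩ := eventually_atTop.mp h2
  refine ⟨⌈max M 1⌉₊, fun x hx => ?_⟩
  have hx1 : max M 1 ≤ x := (Nat.le_ceil _).trans hx
  have hxM : M ≤ x := (le_max_left _ _).trans hx1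
  have hx0 : 1 ≤ x := (le_max_right _ _).trans hx1
  have hxpos : 0 < x := by linarith
  set y : ℝ := (1 + 4 * ε) * x with hy
  have hxy : x ≤ y := by
    rw [hy]; nlinarith
  have hypos : 0 < y := by linarith
  have ha := abs_lt.mp (hM x hxM)
  have hb := abs_lt.mp (hM y (hxM.trans hxy))
  have ha' : Chebyshev.theta x < (1 + ε) * x := by
    have : Chebyshev.theta x / x < 1 + ε := by linarith [ha.2]
    rwa [div_lt_iff₀ hxpos] at this
  have hb' : (1 - ε) * y < Chebyshev.theta y := by
    have : 1 - ε < Chebyshev.theta y / y := by linarith [hb.1]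
    rwa [lt_div_iff₀ hypos] at this
  have hlt : Chebyshev.theta x < Chebyshev.theta y := by
    refine ha'.trans (lt_trans ?_ hb')
    rw [hy, ← mul_assoc]
    apply mul_lt_mul_of_pos_right _ hxpos
    nlinarith
  -- a prime in (x, y]
  by_contra hcon
  push Not at hcon
  apply absurd hlt
  rw [not_lt]
  unfold Chebyshev.theta
  apply Finset.sum_le_sum_of_subset_of_nonneg
  · intro p hp
    simp only [Finset.mem_filter, Finset.mem_Ioc] at hp ⊢
    refine ⟨⟨hp.1.1, ?_⟩, hp.2⟩
    by_contra hc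
    have hc' : x < p := by
      rw [not_le] at hc
      exact (Nat.floor_lt hxpos.le).mp hc
    have h3 := hcon p hp.2 hc'
    have h4 : (p : ℝ) ≤ y := (Nat.le_floor_iff hypos.le).mp hp.1.2
    have h5 : y < (1 + δ) * x := by
      rw [hy]
      apply mul_lt_mul_of_pos_right _ hxpos
      linarith
    linarith
  · intro p hp _
    simp only [Finset.mem_filter] at hp
    exact Real.log_nonneg (by exact_mod_cast hp.2.one_lt.le)

end Pool.Agent.H119R2.Kp
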