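import Mathlib
import Pool.Agent.H119R2.Kp.Defs
import Pool.Agent.H119R2.Kp.D
import Pool.Agent.H119R2.Kp.D4
import Pool.Agent.H119R2.Kp.Base
import Pool.Agent.H119R2.Kp.NT
import Pool.Agent.H119R2.Kp.Core

set_option autoImplicit false

/-! FIN : the theorem, from `core`, `kss`, `prime_base`, `prime_between`, `dec_of_strategy`. -/

namespace Pool.Agent.H119R2.Kp

open Finset
open Pool.Agent.H98R2.Ev (EV toG NE)

private theorem L1 (t p : ℝ) (h1 : t / 5 < p) (h2 : p < 3 * t / 10) :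
    9 / 25 * t ^ 2 ≤ 3 * (t - 4 * p) * p + 6 * p * p := by
  have h3 : 0 ≤ (p - t / 5) * (3 * t / 10 - p) := by
    apply mul_nonneg <;> linarith
  have h4 : 3 * (t - 4 * p) * p + 6 * p * p = 9 / 25 * t ^ 2 + 6 * ((p - t / 5) * (3 * t / 10 - p)) := by
    ring
  linarith

private theorem L2 (t p δ : ℝ) (h0 : 0 < t) (hδ0 : 0 < δ) (hδ1 : δ ≤ 1 / 1000) (h1 : t / 5 < p)
    (h2 : p < t / 5 + δ * t / 5) : 9 / 25 * t ^ 2 - δ * t ^ 2 ≤ 4 * (t - 4 * p) * p + 5 * p * p := by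
  have e1 : 4 * (t - 4 * p) * p + 5 * p * p = p * (4 * t - 11 * p) := by ring
  rw [e1]
  have e2 : 9 / 5 * t - 11 / 5 * δ * t ≤ 4 * t - 11 * p := by linarith
  have hδt : δ * t ≤ t / 1000 := by
    have := mul_le_mul_of_nonneg_right hδ1 h0.le
    linarith
  have e3 : t / 5 * (9 / 5 * t - 11 / 5 * δ * t) ≤ p * (4 * t - 11 * p) := by
    apply mul_le_mul h1.le e2 _ (by linarith)
    linarith
  have e4 : 0 ≤ δ * t ^ 2 := by positivity
  have e5 : t / 5 * (9 / 5 * t - 11 / 5 * δ * t) = 9 / 25 * t ^ 2 - 11 / 25 * (δ * t ^ 2) := by ring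
  linarith

private theorem L3 (t p z : ℝ) (h0 : 0 < t) (h1 : t / 5 < p) (h2 : 0.79 * t < 3 * z) :
    9 / 25 * t ^ 2 ≤ 3 * z * p + 3 * z * z := by
  have h3 : (0.79 * t) * (0.46 * t) ≤ (3 * z) * (p + z) := by
    apply mul_le_mul h2.le _ (by positivity) (by linarith)
    linarith
  have h4 : (3 * z) * (p + z) = 3 * z * p + 3 * z * z := by ring
  have h5 : (0.79 * t) * (0.46 * t) = 0.3634 * t ^ 2 := by ring
  have : 0 < t ^ 2 := by positivity
  linarith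

private theorem L4 (t p z δ : ℝ) (h0 : 0 < t) (hδ0 : 0 < δ) (hδ1 : δ ≤ 1 / 1000) (h1 : t / 5 < p)
    (h2 : (3 / 5 : ℝ) * t - δ * t ≤ 3 * z) :
    9 / 25 * t ^ 2 - δ * t ^ 2 ≤ 3 * z * (2 * p) + 3 * z * z := by
  have hδt : δ * t ≤ t / 1000 := by
    have := mul_le_mul_of_nonneg_right hδ1 h0.le
    linarith
  have h3 : ((3 / 5 : ℝ) * t - δ * t) * ((3 / 5 : ℝ) * t - δ * t / 3) ≤ (3 * z) * (2 * p + z) := by
    apply mul_le_mul h2 _ (by linarith) (by linarith)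
    linarith
  have h4 : (3 * z) * (2 * p + z) = 3 * z * (2 * p) + 3 * z * z := by ring
  have h5 : ((3 / 5 : ℝ) * t - δ * t) * ((3 / 5 : ℝ) * t - δ * t / 3) =
      9 / 25 * t ^ 2 - 4 / 5 * (δ * t ^ 2) + δ ^ 2 * t ^ 2 / 3 := by ring
  have h6 : 0 ≤ δ * t ^ 2 := by positivity
  have h7 : 0 ≤ δ ^ 2 * t ^ 2 := by positivity
  linarith

private theorem L5 (δ : ℝ) (hδ0 : 0 < δ) (hδ1 : δ ≤ 1 / 1000) :
    9 / 25 - 10 * δ ≤ (9 / 25 - 10 * δ / 2) * (1 - δ) ^ 2 := by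
  have h1 : (9 / 25 - 10 * δ / 2) * (1 - δ) ^ 2 =
      9 / 25 - 10 * δ + (5 - 18 / 25) * δ + (10 + 9 / 25) * δ ^ 2 - 5 * δ ^ 3 := by ring
  rw [h1]
  have h2 : 0 < δ ^ 2 := by positivity
  have h3 : δ ^ 3 ≤ δ ^ 2 := by
    have : δ ^ 3 = δ * δ ^ 2 := by ring
    rw [this]
    have := mul_le_mul_of_nonneg_right hδ1 h2.le
    linarith
  linarith

/-- the star case, by `core` -/
theorem star_case (e : ℝ) (he : 0 < e) (he1 : e ≤ 1 / 100) : ∃ N : ℕ, ∀ n : ℕ, N ≤ n →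
    ∀ (q : ℕ) (P : SimpleGraph (Fin n) → Prop), GP n q P → Star n P →
      (q : ℝ) < (9 / 25 - e / 2) * (n : ℝ) ^ 2 → False := by
  set δ := e / 10 with hδ
  have hδ0 : 0 < δ := by positivity
  have hδ1 : δ ≤ 1 / 1000 := by rw [hδ]; linarith
  have heδ : e = 10 * δ := by rw [hδ]; ring
  obtain ⟨N₀, hN₀⟩ := prime_between δ hδ0
  refine ⟨6 * N₀ + ⌈2 / e⌉₊ + 100, fun n hn q P hP hS hq => ?_⟩
  have hn' : (6 * (N₀ : ℝ) + ⌈2 / e⌉₊ + 100) ≤ n := by exact_mod_cast hn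
  have hceil : 2 / e ≤ (⌈2 / e⌉₊ : ℝ) := Nat.le_ceil _
  have hN0 : (0 : ℝ) ≤ N₀ := Nat.cast_nonneg _
  have hc0 : (0 : ℝ) ≤ (⌈2 / e⌉₊ : ℝ) := Nat.cast_nonneg _
  have hn100 : (100 : ℝ) ≤ n := by linarith
  have hn6 : 6 * (N₀ : ℝ) ≤ n := by linarith
  have hne : 2 / e ≤ n := by linarith
  have hne' : 2 ≤ e * n := by
    rw [div_le_iff₀ he] at hne
    linarith
  obtain ⟨t, ht⟩ : ∃ t : ℝ, (n : ℝ) = t := ⟨_, rfl⟩
  rw [ht] at hn' hn100 hn6 hne hne' hq
  -- the prime p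
  obtain ⟨p, hp, hp1, hp2⟩ := hN₀ (t / 5) (by linarith)
  have ht0 : 0 < t := by linarith
  have hδt : δ * t ≤ t / 1000 := by
    have := mul_le_mul_of_nonneg_right hδ1 ht0.le
    linarith
  have hp0 : (0 : ℝ) ≤ p := Nat.cast_nonneg p
  have hδtp : δ * (t - p) ≤ (t - p) / 1000 := by
    have := mul_le_mul_of_nonneg_right hδ1 (show 0 ≤ t - p by linarith)
    linarith
  have hδtp2 : δ * (t - 2 * p) ≤ (t - 2 * p) / 1000 := by
    have := mul_le_mul_of_nonneg_right hδ1 (show 0 ≤ t - 2 * p by linarith)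
    linarith
  have hp2' : (p : ℝ) < t / 5 + δ * t / 5 := by
    refine lt_of_lt_of_eq hp2 (by ring)
  -- X
  have h4p : 4 * p < n := by
    rw [← Nat.cast_lt (α := ℝ)]
    push_cast
    rw [ht]
    linarith
  obtain ⟨X, hX⟩ : ∃ X : ℕ, X + 4 * p = n := ⟨n - 4 * p, by omega⟩
  have hXr : (X : ℝ) = t - 4 * p := by
    have : ((X + 4 * p : ℕ) : ℝ) = t := by rw [hX, ht]
    push_cast at this
    linarith
  have hX0 : 0 < X := by omega
  have hXp : X < p := by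
    have : (X : ℝ) < p := by rw [hXr]; linarith
    exact_mod_cast this
  have hXge : t / 5 - 4 * δ * t / 5 < X := by rw [hXr]; linarith
  -- z1
  have hnp : (0.795 : ℝ) * t < t - p := by linarith
  obtain ⟨z1, hz1, hz11, hz12⟩ := hN₀ ((1 - δ) * (t - p) / 3) (by linarith)
  have hz12' : 3 * (z1 : ℝ) < t - p := by
    have h1 : (1 + δ) * ((1 - δ) * (t - p) / 3) = (1 - δ ^ 2) * (t - p) / 3 := by ring
    rw [h1] at hz12
    have h2 : (1 - δ ^ 2) * (t - p) ≤ t - p := by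
      have := mul_nonneg (sq_nonneg δ) (show 0 ≤ t - p by linarith)
      linarith
    linarith
  have hz11' : (1 - δ) * (t - p) < 3 * (z1 : ℝ) := by linarith
  have hz1n : p + 3 * z1 < n := by
    rw [← Nat.cast_lt (α := ℝ)]
    push_cast
    rw [ht]
    linarith
  obtain ⟨r1, hr1⟩ : ∃ r1 : ℕ, p + r1 + 3 * z1 = n := ⟨n - p - 3 * z1, by omega⟩
  have hr1r : (r1 : ℝ) = t - p - 3 * z1 := by
    have : ((p + r1 + 3 * z1 : ℕ) : ℝ) = t := by rw [hr1, ht]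
    push_cast at this
    linarith
  have hr1X : r1 ≤ X := by
    have : (r1 : ℝ) ≤ X := by
      rw [hr1r]
      have h1 : δ * (t - p) ≤ δ * t := by
        apply mul_le_mul_of_nonneg_left _ hδ0.le
        have : (0 : ℝ) ≤ p := Nat.cast_nonneg p
        linarith
      linarith
    exact_mod_cast this
  -- z2
  have hnp2 : (3 / 5 : ℝ) * t - 2 * δ * t / 5 < t - 2 * p := by linarith only [hp2']
  have hnp2' : (0.59 : ℝ) * t < t - 2 * p := by linarith only [hnp2, hδt, ht0]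
  obtain ⟨z2, hz2, hz21, hz22⟩ := hN₀ ((1 - δ) * (t - 2 * p) / 3)
    (by linarith only [hδtp2, hnp2', hn6])
  have hz22' : 3 * (z2 : ℝ) < t - 2 * p := by
    have h1 : (1 + δ) * ((1 - δ) * (t - 2 * p) / 3) = (1 - δ ^ 2) * (t - 2 * p) / 3 := by ring
    rw [h1] at hz22
    have h2 : (1 - δ ^ 2) * (t - 2 * p) ≤ t - 2 * p := by
      have := mul_nonneg (sq_nonneg δ) (show 0 ≤ t - 2 * p by linarith only [hnp2', ht0])
      linarith only [this]
    linarith only [h2, hz22]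
  have hz21' : (1 - δ) * (t - 2 * p) < 3 * (z2 : ℝ) := by linarith only [hz21]
  have hz2n : 2 * p + 3 * z2 < n := by
    rw [← Nat.cast_lt (α := ℝ)]
    push_cast
    rw [ht]
    linarith
  obtain ⟨r2, hr2⟩ : ∃ r2 : ℕ, 2 * p + r2 + 3 * z2 = n := ⟨n - 2 * p - 3 * z2, by omega⟩
  have hr2r : (r2 : ℝ) = t - 2 * p - 3 * z2 := by
    have : ((2 * p + r2 + 3 * z2 : ℕ) : ℝ) = t := by rw [hr2, ht]
    push_cast at this
    linarith
  have hr2X : r2 ≤ X := by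
    have : (r2 : ℝ) ≤ X := by
      rw [hr2r]
      have h1 : δ * (t - 2 * p) ≤ δ * t := by
        apply mul_le_mul_of_nonneg_left _ hδ0.le
        have : (0 : ℝ) ≤ p := Nat.cast_nonneg p
        linarith
      linarith
    exact_mod_cast this
  have hpr : (0 : ℝ) < p := by linarith
  -- sizes
  have hp3 : 3 < p := by
    have : (3 : ℝ) < p := by linarith
    exact_mod_cast this
  have hz1l : (0.79 : ℝ) * t < 3 * z1 := by linarith
  have hz13 : 3 < z1 := by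
    have : (3 : ℝ) < z1 := by linarith
    exact_mod_cast this
  have hz2l : (3 / 5 : ℝ) * t - δ * t ≤ 3 * z2 := by
    have h1 : (1 - δ) * ((3 / 5 : ℝ) * t - 2 * δ * t / 5) ≤ (1 - δ) * (t - 2 * p) := by
      apply mul_le_mul_of_nonneg_left hnp2.le (by linarith only [hδ1])
    have h2 : (3 / 5 : ℝ) * t - δ * t ≤ (1 - δ) * ((3 / 5 : ℝ) * t - 2 * δ * t / 5) := by
      have : (1 - δ) * ((3 / 5 : ℝ) * t - 2 * δ * t / 5) = (3 / 5 : ℝ) * t - δ * t + 2 * δ ^ 2 * t / 5 := by ring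
      rw [this]
      have : 0 ≤ 2 * δ ^ 2 * t / 5 := by positivity
      linarith only [this]
    linarith only [h1, h2, hz21']
  have hz23 : 3 < z2 := by
    have : (3 : ℝ) < z2 := by linarith only [hz2l, hδt, hn100]
    exact_mod_cast this
  -- inequalities
  have ht2 : 0 < t ^ 2 := by positivity
  have hpt : (p : ℝ) ≤ t := by linarith only [hp2', hδt, ht0]
  have hsmall : (p : ℝ) ≤ e / 2 * t ^ 2 := by
    have h1 : 2 * t ≤ e * t * t := mul_le_mul_of_nonneg_right hne' ht0.le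
    have h2 : e / 2 * t ^ 2 = e * t * t / 2 := by ring
    linarith only [h1, h2, hpt]
  have hδt2 : 0 < δ * t ^ 2 := by positivity
  have hqr : (q : ℝ) < 9 / 25 * t ^ 2 - 5 * (δ * t ^ 2) := by
    have h1 : (9 / 25 - e / 2) * t ^ 2 = 9 / 25 * t ^ 2 - 5 * (δ * t ^ 2) := by
      rw [heδ]; ring
    linarith only [h1, hq]
  have i1 : q + p < 3 * X * p + 6 * p * p := by
    have h1 : (q : ℝ) + p < 3 * X * p + 6 * p * p := by
      rw [hXr]
      have h2 := L1 t p hp1 (by linarith only [hp2', hδt, ht0])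
      have h3 : (9 / 25 - e / 2) * t ^ 2 = 9 / 25 * t ^ 2 - e / 2 * t ^ 2 := by ring
      linarith only [h2, h3, hq, hsmall]
    exact_mod_cast h1
  have i2 : q < 4 * X * p + 5 * p * p := by
    have h1 : (q : ℝ) < 4 * X * p + 5 * p * p := by
      rw [hXr]
      have h2 := L2 t p δ ht0 hδ0 hδ1 hp1 hp2'
      linarith only [h2, hqr, hδt2]
    exact_mod_cast h1
  have i3 : q < 3 * z1 * p + 3 * z1 * z1 := by
    have h1 : (q : ℝ) < 3 * z1 * p + 3 * z1 * z1 := by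
      have h2 := L3 t p z1 ht0 hp1 hz1l
      linarith only [h2, hqr, hδt2]
    exact_mod_cast h1
  have i4 : q < 3 * z2 * (2 * p) + 3 * z2 * z2 := by
    have h1 : (q : ℝ) < 3 * z2 * (2 * p) + 3 * z2 * z2 := by
      have h2 := L4 t p z2 δ ht0 hδ0 hδ1 hp1 hz2l
      linarith only [h2, hqr, hδt2]
    exact_mod_cast h1
  have : Fact p.Prime := ⟨hp⟩
  have : Fact z1.Prime := ⟨hz1⟩
  have : Fact z2.Prime := ⟨hz2⟩
  exact core hP hS X p hp3 hX0 hXp hX i1 i2 z1 r1 hz13 (by omega) hr1X hr1 i3 z2 r2 hz23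
    (by omega) hr2X hr2 i4

theorem final : ∀ ε : ℝ, 0 < ε → ∃ N : ℕ, ∀ n : ℕ, N ≤ n →
    ∀ P : SimpleGraph (Fin n) → Prop,
      (∀ (σ : Fin n ≃ Fin n) (G : SimpleGraph (Fin n)), P G → P (G.map σ.toEmbedding)) →
      (∀ G H : SimpleGraph (Fin n), G ≤ H → P G → P H) →
      (∃ G, P G) → (∃ G, ¬ P G) →
      ∀ s : Finset (Sym2 (Fin n)) → SimpleGraph (Fin n) → Sym2 (Fin n),
      (∀ (Q : Finset (Sym2 (Fin n))) (G H : SimpleGraph (Fin n)),
        (∀ e ∈ Q, (e ∈ G.edgeSet ↔ e ∈ H.edgeSet)) → s Q G = s Q H) →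
      ∀ q : ℕ, (q : ℝ) < (9 / 25 - ε) * (n : ℝ) ^ 2 →
        ∃ G H : SimpleGraph (Fin n),
          (∀ e ∈ (fun Q : Finset (Sym2 (Fin n)) => insert (s Q G) Q)^[q]
            (∅ : Finset (Sym2 (Fin n))), (e ∈ G.edgeSet ↔ e ∈ H.edgeSet)) ∧ P G ∧ ¬ P H := by
  intro ε hε
  set e := min ε (1 / 100) with he
  have he0 : 0 < e := lt_min hε (by norm_num)
  have he1 : e ≤ 1 / 100 := min_le_right _ _
  have heε : e ≤ ε := min_le_left _ _
  set δ := e / 10 with hδ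
  have hδ0 : 0 < δ := by positivity
  have hδ1 : δ ≤ 1 / 1000 := by rw [hδ]; linarith
  have heδ : e = 10 * δ := by rw [hδ]; ring
  obtain ⟨N₀, hN₀⟩ := prime_between δ hδ0
  obtain ⟨N₁, hN₁⟩ := star_case e he0 he1
  refine ⟨2 * N₀ + 2 * N₁ + 100, fun n hn P hiso hmono h1 h0 s hs q hq => ?_⟩
  by_contra hcon
  have hdec : Dec q (fun S : Finset (EV (Fin n)) => P (toG S)) := by
    refine dec_of_strategy q P s hs fun G H hGH hPG => ?_
    by_contra hPH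
    exact hcon ⟨G, H, hGH, hPG, hPH⟩
  have hGP : GP n q P := ⟨hmono, hiso, hdec⟩
  have hn' : (2 * (N₀ : ℝ) + 2 * N₁ + 100) ≤ n := by exact_mod_cast hn
  have hN0 : (0 : ℝ) ≤ N₀ := Nat.cast_nonneg _
  have hN1 : (0 : ℝ) ≤ N₁ := Nat.cast_nonneg _
  obtain ⟨t, ht⟩ : ∃ t : ℝ, (n : ℝ) = t := ⟨_, rfl⟩
  rw [ht] at hn' hq
  have ht100 : 100 ≤ t := by linarith
  have ht2 : 0 < t ^ 2 := by positivity
  have hq' : (q : ℝ) < (9 / 25 - 10 * δ) * t ^ 2 := by
    refine lt_of_lt_of_le hq ?_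
    rw [← heδ]
    apply mul_le_mul_of_nonneg_right _ ht2.le
    linarith
  have hδt : δ * t ≤ t / 1000 := by
    have := mul_le_mul_of_nonneg_right hδ1 (show 0 ≤ t by linarith)
    linarith
  obtain ⟨m, hm, hm1, hm2⟩ := hN₀ ((1 - δ) * t) (by linarith)
  have hmt : (m : ℝ) ≤ t := by
    have h2 : (1 + δ) * ((1 - δ) * t) = t - δ ^ 2 * t := by ring
    rw [h2] at hm2
    have : 0 ≤ δ ^ 2 * t := by positivity
    linarith
  have hmn : m ≤ n := by
    rw [← Nat.cast_le (α := ℝ), ht]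
    exact hmt
  have : Fact m.Prime := ⟨hm⟩
  rcases kss P hGP h1 h0 m hm.one_lt.le hmn with ⟨n', hn1, hn2, P', hP', hS'⟩ | ⟨P', hP', h1', h0'⟩
  · refine hN₁ n' ?_ q P' hP' hS' ?_
    · have h1 : (N₁ : ℝ) ≤ n' := by
        have h2 : (m : ℝ) < n' := by exact_mod_cast hn1
        linarith
      exact_mod_cast h1
    · have h2 : (m : ℝ) < n' := by exact_mod_cast hn1
      have h3 : (1 - δ) * t < n' := by linarith
      have h4 : ((1 - δ) * t) ^ 2 ≤ (n' : ℝ) ^ 2 := by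
        apply pow_le_pow_left₀ _ h3.le
        linarith
      refine lt_of_lt_of_le hq' ?_
      have h5 : (9 / 25 - 10 * δ) * t ^ 2 ≤ (9 / 25 - e / 2) * ((1 - δ) * t) ^ 2 := by
        rw [heδ, mul_pow, ← mul_assoc]
        apply mul_le_mul_of_nonneg_right _ ht2.le
        exact L5 δ hδ0 hδ1
      refine h5.trans ?_
      apply mul_le_mul_of_nonneg_left h4
      linarith
  · have h2 := prime_base P' hP' h1' h0'
    have h3 : m * (m - 1) ≤ 2 * q + 1 := by omega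
    have h4 : ((m : ℝ) * (m - 1)) ≤ 2 * q + 1 := by
      have : ((m * (m - 1) : ℕ) : ℝ) ≤ ((2 * q + 1 : ℕ) : ℝ) := by exact_mod_cast h3
      push_cast [Nat.cast_sub hm.one_lt.le] at this
      exact this
    have h6 : 0.99 * t ≤ m := by linarith
    have h7 : (0.99 * t) ^ 2 ≤ (m : ℝ) ^ 2 := by
      apply pow_le_pow_left₀ (by positivity) h6
    have h8 : (0.99 * t) ^ 2 = 0.9801 * t ^ 2 := by ring
    have h9 : (m : ℝ) * (m - 1) = (m : ℝ) ^ 2 - m := by ring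
    have h10 : (9 / 25 - 10 * δ) * t ^ 2 = 9 / 25 * t ^ 2 - 10 * (δ * t ^ 2) := by ring
    have h11 : 0 < δ * t ^ 2 := by positivity
    have h12 : 100 * t ≤ t ^ 2 := by
      rw [sq]
      exact mul_le_mul_of_nonneg_right ht100 (by linarith)
    linarith

end Pool.Agent.H119R2.Kp
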